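import Pool.Agent.H26.DrazinDefs

/-!
# Basic lemmas on ascent and descent
-/

namespace Pool.Agent.H26.Drazin

open scoped InnerProductSpace

section Single

variable {E : Type*} [NormedAddCommGroup E] [InnerProductSpace ℂ E]

theorem mem_ker_pow {T : E →L[ℂ] E} {k : ℕ} {x : E} : x ∈ (T ^ k).ker ↔ (T ^ k) x = 0 :=
  LinearMap.mem_ker

theorem mem_range_pow {T : E →L[ℂ] E} {k : ℕ} {x : E} :
    x ∈ (T ^ k).range ↔ ∃ y, (T ^ k) y = x :=
  LinearMap.mem_range

theorem ker_pow_mono (T : E →L[ℂ] E) {j k : ℕ} (h : j ≤ k) : (T ^ j).ker ≤ (T ^ k).ker := by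
  intro x hx
  rw [mem_ker_pow] at hx ⊢
  obtain ⟨m, rfl⟩ := Nat.exists_eq_add_of_le h
  rw [add_comm, pow_add, mul_apply_eq_comp, hx, map_zero]

theorem range_pow_anti (T : E →L[ℂ] E) {j k : ℕ} (h : j ≤ k) : (T ^ k).range ≤ (T ^ j).range := by
  intro x hx
  rw [mem_range_pow] at hx ⊢
  obtain ⟨m, rfl⟩ := Nat.exists_eq_add_of_le h
  obtain ⟨y, rfl⟩ := hx
  exact ⟨(T ^ m) y, by rw [pow_add, mul_apply_eq_comp]⟩

theorem ker_pow_stable {T : E →L[ℂ] E} {j : ℕ} (h : (T ^ (j + 1)).ker = (T ^ j).ker) (m : ℕ) :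
    (T ^ (j + m)).ker = (T ^ j).ker := by
  induction m with
  | zero => rfl
  | succ m ih =>
    apply le_antisymm
    · intro x hx
      rw [mem_ker_pow] at hx
      have h1 : T x ∈ (T ^ (j + m)).ker := by
        rw [mem_ker_pow, ← mul_apply_eq_comp, ← pow_succ]
        exact hx
      rw [ih, mem_ker_pow, ← mul_apply_eq_comp, ← pow_succ, ← mem_ker_pow, h] at h1
      exact h1
    · exact ker_pow_mono T (by omega)

theorem range_pow_stable {T : E →L[ℂ] E} {j : ℕ} (h : (T ^ (j + 1)).range = (T ^ j).range)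
    (m : ℕ) : (T ^ (j + m)).range = (T ^ j).range := by
  induction m with
  | zero => rfl
  | succ m ih =>
    apply le_antisymm
    · exact range_pow_anti T (by omega)
    · intro x hx
      rw [← h, mem_range_pow] at hx
      obtain ⟨y, rfl⟩ := hx
      have h1 : (T ^ j) y ∈ (T ^ j).range := ⟨y, rfl⟩
      rw [← ih, mem_range_pow] at h1
      obtain ⟨z, hz⟩ := h1
      rw [mem_range_pow]
      refine ⟨z, ?_⟩
      rw [← add_assoc, pow_succ', mul_apply_eq_comp, hz, pow_succ',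
        mul_apply_eq_comp]

theorem asc_le_of_ker_eq {T : E →L[ℂ] E} {k : ℕ} (h : (T ^ (k + 1)).ker = (T ^ k).ker) :
    asc T ≤ k :=
  iInf₂_le k h

theorem dsc_le_of_range_eq {T : E →L[ℂ] E} {k : ℕ} (h : (T ^ (k + 1)).range = (T ^ k).range) :
    dsc T ≤ k :=
  iInf₂_le k h

theorem exists_of_asc_lt_top {T : E →L[ℂ] E} (h : asc T < ⊤) :
    ∃ k : ℕ, (T ^ (k + 1)).ker = (T ^ k).ker := by
  by_contra hc
  push Not at hc
  have : asc T = ⊤ := by
    unfold asc
    simp only [iInf_eq_top]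
    intro k hk
    exact absurd hk (hc k)
  exact absurd this h.ne

theorem exists_of_dsc_lt_top {T : E →L[ℂ] E} (h : dsc T < ⊤) :
    ∃ k : ℕ, (T ^ (k + 1)).range = (T ^ k).range := by
  by_contra hc
  push Not at hc
  have : dsc T = ⊤ := by
    unfold dsc
    simp only [iInf_eq_top]
    intro k hk
    exact absurd hk (hc k)
  exact absurd this h.ne

theorem asc_le_iff {T : E →L[ℂ] E} {k : ℕ} :
    asc T ≤ k ↔ (T ^ (k + 1)).ker = (T ^ k).ker := by
  refine ⟨fun h => ?_, asc_le_of_ker_eq⟩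
  have h1 : asc T < ((k + 1 : ℕ) : ℕ∞) := lt_of_le_of_lt h (by exact_mod_cast Nat.lt_succ_self k)
  unfold asc at h1
  simp only [iInf_lt_iff] at h1
  obtain ⟨j, hj, hjk⟩ := h1
  have hjk' : j ≤ k := by
    have : j < k + 1 := by exact_mod_cast hjk
    omega
  obtain ⟨m, rfl⟩ := Nat.exists_eq_add_of_le hjk'
  rw [ker_pow_stable hj m, add_assoc, ker_pow_stable hj (m + 1)]

theorem dsc_le_iff {T : E →L[ℂ] E} {k : ℕ} :
    dsc T ≤ k ↔ (T ^ (k + 1)).range = (T ^ k).range := by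
  refine ⟨fun h => ?_, dsc_le_of_range_eq⟩
  have h1 : dsc T < ((k + 1 : ℕ) : ℕ∞) := lt_of_le_of_lt h (by exact_mod_cast Nat.lt_succ_self k)
  unfold dsc at h1
  simp only [iInf_lt_iff] at h1
  obtain ⟨j, hj, hjk⟩ := h1
  have hjk' : j ≤ k := by
    have : j < k + 1 := by exact_mod_cast hjk
    omega
  obtain ⟨m, rfl⟩ := Nat.exists_eq_add_of_le hjk'
  rw [range_pow_stable hj m, add_assoc, range_pow_stable hj (m + 1)]

theorem asc_lt_top_iff {T : E →L[ℂ] E} : asc T < ⊤ ↔ ∃ k : ℕ, (T ^ (k + 1)).ker = (T ^ k).ker :=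
  ⟨exists_of_asc_lt_top, fun ⟨k, hk⟩ => lt_of_le_of_lt (asc_le_of_ker_eq hk) (ENat.natCast_lt_top k)⟩

theorem dsc_lt_top_iff {T : E →L[ℂ] E} :
    dsc T < ⊤ ↔ ∃ k : ℕ, (T ^ (k + 1)).range = (T ^ k).range :=
  ⟨exists_of_dsc_lt_top, fun ⟨k, hk⟩ => lt_of_le_of_lt (dsc_le_of_range_eq hk) (ENat.natCast_lt_top k)⟩

/-- An injective operator of finite descent is surjective. -/
theorem surjective_of_injective_of_dsc {T : E →L[ℂ] E} (hi : Function.Injective T)
    (hd : dsc T < ⊤) : Function.Surjective T := by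
  obtain ⟨k, hk⟩ := exists_of_dsc_lt_top hd
  intro y
  have h1 : (T ^ k) y ∈ (T ^ (k + 1)).range := by rw [hk]; exact ⟨y, rfl⟩
  rw [mem_range_pow] at h1
  obtain ⟨x, hx⟩ := h1
  have hinj : ∀ n : ℕ, Function.Injective (T ^ n) := by
    intro n
    induction n with
    | zero => intro a b h; simpa using h
    | succ n ih =>
      intro a b h
      rw [pow_succ, mul_apply_eq_comp, mul_apply_eq_comp] at h
      exact hi (ih h)
  refine ⟨x, hinj k ?_⟩
  rw [← mul_apply_eq_comp, ← pow_succ]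
  exact hx

end Single

section Pair

variable {H K : Type*} [NormedAddCommGroup H] [InnerProductSpace ℂ H]
  [NormedAddCommGroup K] [InnerProductSpace ℂ K]

theorem withLp_ext {z w : WithLp 2 (H × K)} (h1 : z.fst = w.fst) (h2 : z.snd = w.snd) :
    z = w := by
  apply (WithLp.prodContinuousLinearEquiv 2 ℂ H K).injective
  exact Prod.ext h1 h2

theorem blockOp_pow_snd (A : H →L[ℂ] H) (C : K →L[ℂ] H) (B : K →L[ℂ] K) (n : ℕ)
    (z : WithLp 2 (H × K)) : ((blockOp A C B ^ n) z).snd = (B ^ n) z.snd := by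
  induction n with
  | zero => simp
  | succ n ih =>
    rw [pow_succ', mul_apply_eq_comp, blockOp_snd, ih, pow_succ',
      mul_apply_eq_comp]

end Pair

end Pool.Agent.H26.Drazin
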