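import Pool.Agent.H26.DrazinL2

/-!
# Which pairs `(A, B)` have a Drazin invertible completion `M_C`?
-/

set_option linter.unusedSectionVars false

namespace Pool.Agent.H26.Drazin

open scoped InnerProductSpace InnerProduct

section Single

variable {E : Type*} [NormedAddCommGroup E] [InnerProductSpace ℂ E] [CompleteSpace E]

theorem isClosed_ker_pow (T : E →L[ℂ] E) (n : ℕ) : IsClosed ((T ^ n).ker : Set E) :=
  (T ^ n).isClosed_ker

theorem pow_apply_add (T : E →L[ℂ] E) (m n : ℕ) (x : E) :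
    (T ^ (m + n)) x = (T ^ m) ((T ^ n) x) := by
  rw [pow_add, mul_apply_eq_comp]

theorem pow_apply_succ (T : E →L[ℂ] E) (n : ℕ) (x : E) :
    (T ^ (n + 1)) x = T ((T ^ n) x) := by
  rw [pow_succ', mul_apply_eq_comp]

theorem pow_apply_succ' (T : E →L[ℂ] E) (n : ℕ) (x : E) :
    (T ^ (n + 1)) x = (T ^ n) (T x) := by
  rw [pow_succ, mul_apply_eq_comp]

/-- common index for a Drazin invertible operator -/
theorem IsDrazin.exists_index {T : E →L[ℂ] E} (h : IsDrazin T) :
    ∃ q : ℕ, (T ^ (q + 1)).ker = (T ^ q).ker ∧ (T ^ (q + 1)).range = (T ^ q).range := by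
  obtain ⟨a, ha⟩ := exists_of_asc_lt_top h.1
  obtain ⟨d, hd⟩ := exists_of_dsc_lt_top h.2
  refine ⟨a + d, ?_, ?_⟩
  · rw [add_assoc, ker_pow_stable ha, ker_pow_stable ha]
  · rw [show a + d + 1 = d + (a + 1) by omega, show a + d = d + a by omega,
      range_pow_stable hd, range_pow_stable hd]

/-- A bounded left inverse of `T` on `R(T^q)`. -/
theorem exists_bounded_inverse {T : E →L[ℂ] E} {q : ℕ} (hk : (T ^ (q + 1)).ker = (T ^ q).ker)
    (hr : (T ^ (q + 1)).range = (T ^ q).range) :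
    ∃ X : E →L[ℂ] E, (∀ z, X ((T ^ (q + 1)) z) = (T ^ q) z) ∧ ∀ z, X z ∈ (T ^ q).range := by
  set N : Submodule ℂ E := (T ^ (q + 1)).ker with hN
  have hNc : IsClosed (N : Set E) := isClosed_ker_pow T (q + 1)
  have : CompleteSpace N := hNc.completeSpace_coe
  let Φ : (Nᗮ × N) →L[ℂ] E := ((T ^ (q + 1)) ∘L Nᗮ.subtypeL).coprod N.subtypeL
  have hΦ : ∀ x : Nᗮ × N, Φ x = (T ^ (q + 1)) (x.1 : E) + (x.2 : E) := fun x => rfl
  have hker2 : ∀ x, (T ^ (q + 1)) ((T ^ (q + 1)) x) = 0 → (T ^ (q + 1)) x = 0 := by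
    intro x hx
    rw [← pow_apply_add, ← mem_ker_pow, show q + 1 + (q + 1) = q + (q + 2) by omega,
      ker_pow_stable hk, ← hk] at hx
    exact hx
  have hinj : Φ.ker = ⊥ := by
    rw [LinearMap.ker_eq_bot']
    intro x hx
    have hx' : (T ^ (q + 1)) (x.1 : E) + (x.2 : E) = 0 := hx
    have h1 : (T ^ (q + 1)) (x.1 : E) = - (x.2 : E) := by
      rw [eq_neg_iff_add_eq_zero]; exact hx'
    have h2 : (T ^ (q + 1)) (x.1 : E) = 0 := by
      apply hker2
      rw [h1, map_neg, show (T ^ (q + 1)) (x.2 : E) = 0 from x.2.2, neg_zero]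
    have h3 : (x.1 : E) = 0 := by
      have h4 : (x.1 : E) ∈ N := h2
      exact inner_self_eq_zero.1 ((Submodule.mem_orthogonal _ _).1 x.1.2 _ h4)
    have h5 : (x.2 : E) = 0 := by
      rw [h2, zero_add] at hx'
      exact hx'
    exact Prod.ext (Subtype.ext h3) (Subtype.ext h5)
  have hTP : ∀ z : E, (T ^ (q + 1)) ((Nᗮ.starProjection z : E)) = (T ^ (q + 1)) z := by
    intro z
    have h1 : z - Nᗮ.starProjection z ∈ N := by
      have h2 := Nᗮ.sub_starProjection_mem_orthogonal z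
      rw [Submodule.orthogonal_orthogonal] at h2
      exact h2
    have h3 : (T ^ (q + 1)) (z - Nᗮ.starProjection z) = 0 := h1
    rw [map_sub, sub_eq_zero] at h3
    exact h3.symm
  have hPmem : ∀ z : E, Nᗮ.starProjection z ∈ Nᗮ := fun z => Submodule.starProjection_apply_mem _ z
  have hsurj : Φ.range = ⊤ := by
    rw [LinearMap.range_eq_top]
    intro z
    have h1 : (T ^ (q + 1)) z ∈ (T ^ (q + (q + 2))).range := by
      rw [range_pow_stable hr (q + 2), ← hr]
      exact ⟨z, rfl⟩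
    obtain ⟨y, hy⟩ := mem_range_pow.1 h1
    have h2 : z - (T ^ (q + 1)) y ∈ N := by
      change (T ^ (q + 1)) (z - (T ^ (q + 1)) y) = 0
      rw [map_sub, ← pow_apply_add, show q + 1 + (q + 1) = q + (q + 2) by omega, hy, sub_self]
    refine ⟨(⟨Nᗮ.starProjection y, hPmem y⟩, ⟨z - (T ^ (q + 1)) y, h2⟩), ?_⟩
    change (T ^ (q + 1)) (Nᗮ.starProjection y) + (z - (T ^ (q + 1)) y) = z
    rw [hTP]
    abel
  let e := ContinuousLinearEquiv.ofBijective Φ hinj hsurj
  refine ⟨(T ^ q) ∘L Nᗮ.subtypeL ∘L (ContinuousLinearMap.fst ℂ Nᗮ N) ∘L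
    (e.symm : E →L[ℂ] (Nᗮ × N)), ?_, ?_⟩
  · intro z
    have h1 : (T ^ (q + 1)) z = e (⟨Nᗮ.starProjection z, hPmem z⟩, 0) := by
      change (T ^ (q + 1)) z = (T ^ (q + 1)) (Nᗮ.starProjection z) + ((0 : N) : E)
      rw [hTP]
      simp
    change (T ^ q) (((e.symm ((T ^ (q + 1)) z)).1 : Nᗮ) : E) = (T ^ q) z
    rw [h1, ContinuousLinearEquiv.symm_apply_apply]
    change (T ^ q) (Nᗮ.starProjection z) = (T ^ q) z
    have h2 : z - Nᗮ.starProjection z ∈ N := by
      have h2 := Nᗮ.sub_starProjection_mem_orthogonal z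
      rw [Submodule.orthogonal_orthogonal] at h2
      exact h2
    have h3 : (T ^ q) (z - Nᗮ.starProjection z) = 0 := hk.le h2
    rw [map_sub, sub_eq_zero] at h3
    exact h3.symm
  · intro z
    exact ⟨_, rfl⟩

/-- The easy half of Douglas' lemma. -/
theorem douglas {S T : E →L[ℂ] E} (h : ∀ w, ∃ v, T v = S w) :
    ∃ c : ℝ, 0 ≤ c ∧ ∀ x, ‖(ContinuousLinearMap.adjoint S) x‖ ≤
      c * ‖(ContinuousLinearMap.adjoint T) x‖ := by
  let ι := {x : E // (ContinuousLinearMap.adjoint T) x ≠ 0}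
  let g : ι → E →L[ℂ] ℂ := fun i =>
    innerSL ℂ (((‖(ContinuousLinearMap.adjoint T) i.1‖⁻¹ : ℝ) : ℂ) •
      (ContinuousLinearMap.adjoint S) i.1)
  have hg : ∀ i w, ‖g i w‖ = ‖(ContinuousLinearMap.adjoint T) i.1‖⁻¹ *
      ‖⟪(ContinuousLinearMap.adjoint S) i.1, w⟫_ℂ‖ := by
    intro i w
    change ‖⟪(((‖(ContinuousLinearMap.adjoint T) i.1‖⁻¹ : ℝ) : ℂ) •
      (ContinuousLinearMap.adjoint S) i.1), w⟫_ℂ‖ = _
    rw [inner_smul_left, norm_mul, RCLike.norm_conj, Complex.norm_real, norm_inv, norm_norm]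
  have hptw : ∀ w, ∃ C, ∀ i, ‖g i w‖ ≤ C := by
    intro w
    obtain ⟨v, hv⟩ := h w
    refine ⟨‖v‖, fun i => ?_⟩
    rw [hg, ContinuousLinearMap.adjoint_inner_left, ← hv, ← ContinuousLinearMap.adjoint_inner_left]
    have hpos : 0 < ‖(ContinuousLinearMap.adjoint T) i.1‖ := norm_pos_iff.2 i.2
    calc ‖(ContinuousLinearMap.adjoint T) i.1‖⁻¹ * ‖⟪(ContinuousLinearMap.adjoint T) i.1, v⟫_ℂ‖
        ≤ ‖(ContinuousLinearMap.adjoint T) i.1‖⁻¹ *
          (‖(ContinuousLinearMap.adjoint T) i.1‖ * ‖v‖) :=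
          mul_le_mul_of_nonneg_left (norm_inner_le_norm _ _) (inv_nonneg.2 hpos.le)
      _ = ‖v‖ := by
          rw [← mul_assoc, inv_mul_cancel₀ hpos.ne', one_mul]
  obtain ⟨C, hC⟩ := banach_steinhaus hptw
  refine ⟨max C 0, le_max_right _ _, fun x => ?_⟩
  by_cases hx : (ContinuousLinearMap.adjoint T) x = 0
  · have : (ContinuousLinearMap.adjoint S) x = 0 := by
      apply ext_inner_right ℂ
      intro w
      obtain ⟨v, hv⟩ := h w
      rw [ContinuousLinearMap.adjoint_inner_left, ← hv, ← ContinuousLinearMap.adjoint_inner_left,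
        hx, inner_zero_left, inner_zero_left]
    rw [this, norm_zero]
    exact mul_nonneg (le_max_right _ _) (norm_nonneg _)
  · have hpos : 0 < ‖(ContinuousLinearMap.adjoint T) x‖ := norm_pos_iff.2 hx
    have h1 := hC ⟨x, hx⟩
    have h2 : ‖g ⟨x, hx⟩‖ = ‖(ContinuousLinearMap.adjoint T) x‖⁻¹ *
        ‖(ContinuousLinearMap.adjoint S) x‖ := by
      change ‖innerSL ℂ (((‖(ContinuousLinearMap.adjoint T) x‖⁻¹ : ℝ) : ℂ) •
        (ContinuousLinearMap.adjoint S) x)‖ = _
      rw [innerSL_apply_norm, norm_smul, Complex.norm_real, norm_inv, norm_norm]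
    rw [h2] at h1
    have h3 : ‖(ContinuousLinearMap.adjoint S) x‖ ≤ C * ‖(ContinuousLinearMap.adjoint T) x‖ := by
      rw [inv_mul_le_iff₀ hpos, mul_comm] at h1
      exact h1
    exact h3.trans (mul_le_mul_of_nonneg_right (le_max_left _ _) hpos.le)

/-- If `T` has finite descent then `‖T*^q x‖ ≤ c ‖T*^(q+1) x‖`. -/
theorem exists_bound_of_dsc_adjoint {A : E →L[ℂ] E} {q : ℕ}
    (h : ((ContinuousLinearMap.adjoint A) ^ (q + 1)).range =
      ((ContinuousLinearMap.adjoint A) ^ q).range) :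
    ∃ c : ℝ, 0 ≤ c ∧ ∀ x, ‖(A ^ q) x‖ ≤ c * ‖(A ^ (q + 1)) x‖ := by
  have h1 : ∀ w, ∃ v, ((ContinuousLinearMap.adjoint A) ^ (q + 1)) v =
      ((ContinuousLinearMap.adjoint A) ^ q) w := by
    intro w
    have : ((ContinuousLinearMap.adjoint A) ^ q) w ∈
        ((ContinuousLinearMap.adjoint A) ^ (q + 1)).range := by
      rw [h]
      exact ⟨w, rfl⟩
    exact mem_range_pow.1 this
  obtain ⟨c, hc0, hc⟩ := douglas h1
  refine ⟨c, hc0, fun x => ?_⟩
  have h2 := hc x
  have hpow : ∀ n : ℕ, ContinuousLinearMap.adjoint ((ContinuousLinearMap.adjoint A) ^ n) =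
      A ^ n := by
    intro n
    rw [← ContinuousLinearMap.star_eq_adjoint, ← ContinuousLinearMap.star_eq_adjoint, star_pow,
      star_star]
  rw [hpow, hpow] at h2
  exact h2


/-- If `T` is Drazin invertible then `T - μ` is bijective for small `μ ≠ 0`. -/
theorem IsDrazin.exists_bijective {T : E →L[ℂ] E} (h : IsDrazin T) :
    ∃ δ : ℝ, 0 < δ ∧ ∀ μ : ℂ, 0 < ‖μ‖ → ‖μ‖ < δ →
      Function.Bijective (T - μ • (1 : E →L[ℂ] E)) := by
  obtain ⟨q, hk, hr⟩ := h.exists_index
  obtain ⟨X, hX, hXr⟩ := exists_bounded_inverse hk hr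
  refine ⟨1 / (‖X‖ + 1), by positivity, fun μ hμ0 hμ => ?_⟩
  have hμne : μ ≠ 0 := norm_pos_iff.1 hμ0
  have hlt : ‖μ • X‖ < 1 := by
    rw [norm_smul]
    have h1 : (0 : ℝ) < ‖X‖ + 1 := by positivity
    rw [lt_div_iff₀ h1] at hμ
    nlinarith [norm_nonneg X, norm_nonneg μ]
  constructor
  · rw [injective_iff_map_eq_zero]
    intro z hz
    have hz1 : T z = μ • z := by
      have : T z - μ • z = 0 := hz
      exact sub_eq_zero.1 this
    have hpow : ∀ n : ℕ, (T ^ n) z = μ ^ n • z := by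
      intro n
      induction n with
      | zero => simp
      | succ n ih => rw [pow_apply_succ, ih, map_smul, hz1, smul_smul, pow_succ]
    have h1 := hX z
    rw [hpow, hpow, map_smul, pow_succ, mul_smul] at h1
    have h2 : μ • X z = z := by
      have h3 : μ ^ q ≠ 0 := pow_ne_zero _ hμne
      exact smul_right_injective E h3 h1
    by_contra hzne
    have hzpos : 0 < ‖z‖ := norm_pos_iff.2 hzne
    have h4 : ‖z‖ ≤ ‖μ • X‖ * ‖z‖ := by
      calc ‖z‖ = ‖(μ • X) z‖ := by
            change ‖z‖ = ‖μ • X z‖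
            rw [h2]
        _ ≤ ‖μ • X‖ * ‖z‖ := ContinuousLinearMap.le_opNorm _ _
    nlinarith
  · -- surjectivity
    let u := Units.oneSub (μ • X) hlt
    have hu : ∀ x, x = (↑u⁻¹ : E →L[ℂ] E) x - μ • X ((↑u⁻¹ : E →L[ℂ] E) x) := by
      intro x
      have h1 : (u : E →L[ℂ] E) * (↑u⁻¹ : E →L[ℂ] E) = 1 := u.mul_inv
      have h2 := congrArg (fun T : E →L[ℂ] E => T x) h1
      exact h2.symm
    -- on the range
    have hR : ∀ y, ∃ x, (T - μ • (1 : E →L[ℂ] E)) x = (T ^ (q + 1)) y := by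
      intro y
      set r := (T ^ (q + 1)) y with hrdef
      set x := (↑u⁻¹ : E →L[ℂ] E) (X r) with hx
      have h1 : x = X r + μ • X x := by
        have := hu (X r)
        rw [← hx, eq_sub_iff_add_eq] at this
        exact this.symm
      -- `T X w = w` for `w ∈ R(T^q)`
      have hTX : ∀ w ∈ (T ^ q).range, T (X w) = w := by
        intro w hw
        rw [← hr] at hw
        obtain ⟨v, rfl⟩ := mem_range_pow.1 hw
        rw [hX, ← pow_apply_succ]
      have hxr : x ∈ (T ^ q).range := by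
        rw [h1]
        exact Submodule.add_mem _ (hXr _) (Submodule.smul_mem _ _ (hXr _))
      have hrr : r ∈ (T ^ q).range := by
        rw [← hr]
        exact ⟨y, rfl⟩
      refine ⟨x, ?_⟩
      change T x - μ • x = r
      conv_lhs => rw [h1]
      rw [map_add, map_smul, hTX r hrr, hTX x hxr, smul_add, ← sub_sub]
      rw [show μ • X r = μ • x - μ • μ • X x by
        rw [← smul_sub]; congr 1; exact (sub_eq_of_eq_add h1).symm]
      abel
    -- on the kernel
    have hN : ∀ n, (T ^ (q + 1)) n = 0 → ∃ x, (T - μ • (1 : E →L[ℂ] E)) x = n := by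
      intro n hn
      have key : ∀ k : ℕ, ∃ x, (T - μ • (1 : E →L[ℂ] E)) x = n - (μ⁻¹) ^ k • (T ^ k) n := by
        intro k
        induction k with
        | zero => exact ⟨0, by simp⟩
        | succ k ih =>
          obtain ⟨x, hx⟩ := ih
          refine ⟨x - (μ⁻¹) ^ (k + 1) • (T ^ k) n, ?_⟩
          rw [map_sub, hx]
          change _ - (T ((μ⁻¹) ^ (k + 1) • (T ^ k) n) - μ • ((μ⁻¹) ^ (k + 1) • (T ^ k) n)) = _
          rw [map_smul, ← pow_apply_succ, smul_smul μ, pow_succ' μ⁻¹ k, ← mul_assoc,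
            mul_inv_cancel₀ hμne, one_mul]
          abel
      obtain ⟨x, hx⟩ := key (q + 1)
      refine ⟨x, ?_⟩
      rw [hx, hn, smul_zero, sub_zero]
    intro z
    have h1 : (T ^ (q + 1)) z ∈ (T ^ (q + (q + 2))).range := by
      rw [range_pow_stable hr (q + 2), ← hr]
      exact ⟨z, rfl⟩
    obtain ⟨y, hy⟩ := mem_range_pow.1 h1
    have h2 : (T ^ (q + 1)) (z - (T ^ (q + 1)) y) = 0 := by
      rw [map_sub, ← pow_apply_add, show q + 1 + (q + 1) = q + (q + 2) by omega, hy, sub_self]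
    obtain ⟨x1, hx1⟩ := hR y
    obtain ⟨x2, hx2⟩ := hN _ h2
    refine ⟨x1 + x2, ?_⟩
    rw [map_add, hx1, hx2]
    abel

end Single

section Dim

theorem hdim_le_of_injective {E F : Type*} [NormedAddCommGroup E] [InnerProductSpace ℂ E]
    [NormedAddCommGroup F] [InnerProductSpace ℂ F]
    {M : Submodule ℂ E} {N : Submodule ℂ F} (f : M →ₗ[ℂ] N)
    (hf : Function.Injective f) : hdim M ≤ hdim N := by
  unfold hdim
  have h1 := LinearMap.lift_rank_le_of_injective f hf
  have h2 := OrderHomClass.mono Cardinal.toENat h1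
  rw [Cardinal.toENat_lift, Cardinal.toENat_lift] at h2
  exact h2

/-- Equal dimensions give an isometric isomorphism, for closed subspaces of separable spaces. -/
theorem exists_isometryEquiv_of_hdim_eq {E F : Type*} [NormedAddCommGroup E]
    [InnerProductSpace ℂ E] [CompleteSpace E] [TopologicalSpace.SeparableSpace E]
    [NormedAddCommGroup F] [InnerProductSpace ℂ F] [CompleteSpace F]
    [TopologicalSpace.SeparableSpace F]
    {M : Submodule ℂ E} {N : Submodule ℂ F} (hM : IsClosed (M : Set E))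
    (hN : IsClosed (N : Set F)) (h : hdim M = hdim N) : Nonempty (M ≃ₗᵢ[ℂ] N) := by
  have : CompleteSpace M := hM.completeSpace_coe
  have : CompleteSpace N := hN.completeSpace_coe
  by_cases hfin : FiniteDimensional ℂ M
  · have h1 : hdim M = (Module.finrank ℂ M : ℕ∞) := by
      unfold hdim
      rw [← Module.finrank_eq_rank]
      simp
    have hfinN : FiniteDimensional ℂ N := by
      rw [h1] at h
      unfold hdim at h
      have h2 : Cardinal.toENat (Module.rank ℂ N) < ⊤ := by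
        rw [← h]
        exact ENat.natCast_lt_top _
      rw [Cardinal.toENat_lt_top] at h2
      exact Module.rank_lt_aleph0_iff.1 h2
    have h2 : hdim N = (Module.finrank ℂ N : ℕ∞) := by
      unfold hdim
      rw [← Module.finrank_eq_rank]
      simp
    rw [h1, h2] at h
    have h3 : Module.finrank ℂ M = Module.finrank ℂ N := by exact_mod_cast h
    exact ⟨(stdOrthonormalBasis ℂ M).repr.trans
      ((LinearIsometryEquiv.piLpCongrLeft 2 ℂ ℂ (finCongr h3)).trans
        (stdOrthonormalBasis ℂ N).repr.symm)⟩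
  · have hfinN : ¬ FiniteDimensional ℂ N := by
      intro hN'
      apply hfin
      have h2 : hdim N = (Module.finrank ℂ N : ℕ∞) := by
        unfold hdim
        rw [← Module.finrank_eq_rank]
        simp
      rw [h2] at h
      unfold hdim at h
      have h3 : Cardinal.toENat (Module.rank ℂ M) < ⊤ := by
        rw [h]
        exact ENat.natCast_lt_top _
      rw [Cardinal.toENat_lt_top] at h3
      exact Module.rank_lt_aleph0_iff.1 h3
    have hsM : TopologicalSpace.SeparableSpace M :=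
      (TopologicalSpace.IsSeparable.of_separableSpace (M : Set E)).separableSpace
    have hsN : TopologicalSpace.SeparableSpace N :=
      (TopologicalSpace.IsSeparable.of_separableSpace (N : Set F)).separableSpace
    exact exists_isometryEquiv hfin hfinN

end Dim

section Core

variable {E : Type*} [NormedAddCommGroup E] [InnerProductSpace ℂ E] [CompleteSpace E]

/-- A surjective operator between Hilbert spaces has a bounded right inverse. -/
theorem exists_rightInverse {F : Type*} [NormedAddCommGroup F] [InnerProductSpace ℂ F]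
    [CompleteSpace F] (f : E →L[ℂ] F) (hf : Function.Surjective f) :
    ∃ g : F →L[ℂ] E, ∀ y, f (g y) = y := by
  have hc : IsClosed (f.ker : Set E) := f.isClosed_ker
  have : CompleteSpace f.ker := hc.completeSpace_coe
  let f1 : (f.kerᗮ : Submodule ℂ E) →L[ℂ] F := f ∘L (f.kerᗮ).subtypeL
  have hinj : f1.ker = ⊥ := by
    rw [LinearMap.ker_eq_bot']
    intro x hx
    have h1 : (x : E) ∈ f.ker := hx
    exact Subtype.ext (inner_self_eq_zero.1 ((Submodule.mem_orthogonal _ _).1 x.2 _ h1))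
  have hsurj : f1.range = ⊤ := by
    rw [LinearMap.range_eq_top]
    intro y
    obtain ⟨x, rfl⟩ := hf y
    obtain ⟨a, ha, b, hb, rfl⟩ := f.ker.exists_add_mem_mem_orthogonal x
    refine ⟨⟨b, hb⟩, ?_⟩
    change f b = f (a + b)
    rw [map_add, show f a = 0 from ha, zero_add]
  let e := ContinuousLinearEquiv.ofBijective f1 hinj hsurj
  refine ⟨(f.kerᗮ).subtypeL ∘L (e.symm : F →L[ℂ] (f.kerᗮ : Submodule ℂ E)), fun y => ?_⟩
  change e (e.symm y) = y
  exact e.apply_symm_apply y

/-- `N(T^q)ᗮ ∩ N(T^(q+1))`. -/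
noncomputable def core (T : E →L[ℂ] E) (q : ℕ) : Submodule ℂ E :=
  ((T ^ q).ker)ᗮ ⊓ (T ^ (q + 1)).ker

theorem isClosed_core (T : E →L[ℂ] E) (q : ℕ) : IsClosed (core T q : Set E) := by
  unfold core
  rw [Submodule.coe_inf]
  exact (Submodule.isClosed_orthogonal _).inter (isClosed_ker_pow T (q + 1))

theorem map_ker_pow (T : E →L[ℂ] E) (q : ℕ) {x : E} (hx : (T ^ q) x = 0) : (T ^ q) (T x) = 0 := by
  rw [← pow_apply_succ', pow_apply_succ, hx, map_zero]

/-- a bounded right inverse of the operator induced on `E / N(T^q)` -/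
theorem exists_quotient_rightInverse {T : E →L[ℂ] E} {q : ℕ}
    (hr : (T ^ (q + 1)).range = (T ^ q).range) :
    ∃ R : E →L[ℂ] E, (∀ z, R z ∈ ((T ^ q).ker)ᗮ) ∧
      ∀ y, (T ^ q) (T (R y)) = (T ^ q) y := by
  set N : Submodule ℂ E := (T ^ q).ker with hN
  have hNc : IsClosed (N : Set E) := isClosed_ker_pow T q
  have : CompleteSpace N := hNc.completeSpace_coe
  let f : E →L[ℂ] (Nᗮ : Submodule ℂ E) := (Nᗮ.orthogonalProjectionOnto) ∘L T
  have hPf : ∀ x, ((f x : (Nᗮ : Submodule ℂ E)) : E) = Nᗮ.starProjection (T x) := fun x => rfl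
  have hsub : ∀ z, z - Nᗮ.starProjection z ∈ N := by
    intro z
    have h2 := Nᗮ.sub_starProjection_mem_orthogonal z
    rw [Submodule.orthogonal_orthogonal] at h2
    exact h2
  have hTP : ∀ z, (T ^ q) (Nᗮ.starProjection z) = (T ^ q) z := by
    intro z
    have h3 : (T ^ q) (z - Nᗮ.starProjection z) = 0 := hsub z
    rw [map_sub, sub_eq_zero] at h3
    exact h3.symm
  have hTTP : ∀ z, (T ^ q) (T (Nᗮ.starProjection z)) = (T ^ q) (T z) := by
    intro z
    have h3 : (T ^ q) (z - Nᗮ.starProjection z) = 0 := hsub z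
    have h4 := map_ker_pow T q h3
    rw [map_sub, map_sub, sub_eq_zero] at h4
    exact h4.symm
  have hf : Function.Surjective f := by
    intro y
    have h1 : (T ^ q) (y : E) ∈ (T ^ (q + 1)).range := by
      rw [hr]
      exact ⟨_, rfl⟩
    obtain ⟨z, hz⟩ := mem_range_pow.1 h1
    refine ⟨z, ?_⟩
    apply Subtype.ext
    rw [hPf]
    have h2 : (y : E) - T z ∈ N := by
      change (T ^ q) ((y : E) - T z) = 0
      rw [map_sub, ← pow_apply_succ', hz, sub_self]
    have h3 : Nᗮ.starProjection ((y : E) - T z) = 0 := by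
      rw [Submodule.starProjection_apply_eq_zero_iff, Submodule.orthogonal_orthogonal]
      exact h2
    rw [map_sub, sub_eq_zero] at h3
    rw [← h3]
    exact Submodule.starProjection_eq_self_iff.2 y.2
  obtain ⟨g, hg⟩ := exists_rightInverse f hf
  refine ⟨Nᗮ.starProjection ∘L (g ∘L Nᗮ.orthogonalProjectionOnto), ?_, ?_⟩
  · intro z
    exact Submodule.starProjection_apply_mem _ _
  · intro y
    change (T ^ q) (T (Nᗮ.starProjection (g (Nᗮ.orthogonalProjectionOnto y)))) = (T ^ q) y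
    rw [hTTP, ← hTP (T (g (Nᗮ.orthogonalProjectionOnto y))), ← hPf, hg]
    exact hTP y

/-- For an operator of finite descent, `n(T - μ)` is constant for small `μ ≠ 0`. -/
theorem hdim_ker_sub {T : E →L[ℂ] E} {q : ℕ} (hr : (T ^ (q + 1)).range = (T ^ q).range) :
    ∃ δ : ℝ, 0 < δ ∧ ∀ μ : ℂ, 0 < ‖μ‖ → ‖μ‖ < δ →
      hdim (T - μ • (1 : E →L[ℂ] E)).ker = hdim (core T q) := by
  obtain ⟨R, hRm, hR⟩ := exists_quotient_rightInverse hr
  refine ⟨1 / (‖R‖ + 1), by positivity, fun μ hμ0 hμ => ?_⟩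
  have hμne : μ ≠ 0 := norm_pos_iff.1 hμ0
  have hlt : ‖μ • R‖ < 1 := by
    rw [norm_smul]
    have h1 : (0 : ℝ) < ‖R‖ + 1 := by positivity
    rw [lt_div_iff₀ h1] at hμ
    nlinarith [norm_nonneg R, norm_nonneg μ]
  let u := Units.oneSub (μ • R) hlt
  have huv : (u : E →L[ℂ] E) = 1 - μ • R := rfl
  have hu1 : ∀ x, (u : E →L[ℂ] E) ((↑u⁻¹ : E →L[ℂ] E) x) = x := by
    intro x
    have h1 : (u : E →L[ℂ] E) * (↑u⁻¹ : E →L[ℂ] E) = 1 := u.mul_inv
    exact congrArg (fun T : E →L[ℂ] E => T x) h1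
  have hu2 : ∀ x, (↑u⁻¹ : E →L[ℂ] E) ((u : E →L[ℂ] E) x) = x := by
    intro x
    have h1 : (↑u⁻¹ : E →L[ℂ] E) * (u : E →L[ℂ] E) = 1 := u.inv_mul
    exact congrArg (fun T : E →L[ℂ] E => T x) h1
  have hux : ∀ x, (u : E →L[ℂ] E) x = x - μ • R x := fun x => rfl
  set N : Submodule ℂ E := (T ^ q).ker with hN
  have hNc : IsClosed (N : Set E) := isClosed_ker_pow T q
  have : CompleteSpace N := hNc.completeSpace_coe
  have hsub : ∀ z, z - Nᗮ.starProjection z ∈ N := by
    intro z
    have h2 := Nᗮ.sub_starProjection_mem_orthogonal z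
    rw [Submodule.orthogonal_orthogonal] at h2
    exact h2
  have hTP : ∀ z, (T ^ q) (Nᗮ.starProjection z) = (T ^ q) z := by
    intro z
    have h3 : (T ^ q) (z - Nᗮ.starProjection z) = 0 := hsub z
    rw [map_sub, sub_eq_zero] at h3
    exact h3.symm
  have hTTP : ∀ z, (T ^ q) (T (Nᗮ.starProjection z)) = (T ^ q) (T z) := by
    intro z
    have h3 : (T ^ q) (z - Nᗮ.starProjection z) = 0 := hsub z
    have h4 := map_ker_pow T q h3
    rw [map_sub, map_sub, sub_eq_zero] at h4
    exact h4.symm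
  have heig : ∀ x ∈ (T - μ • (1 : E →L[ℂ] E)).ker, T x = μ • x := by
    intro x hx
    have : T x - μ • x = 0 := hx
    exact sub_eq_zero.1 this
  apply le_antisymm
  · -- `x ↦ (1 - μ R) P x`
    let f : E →L[ℂ] E := (u : E →L[ℂ] E) ∘L Nᗮ.starProjection
    have hf : ∀ x, f x = Nᗮ.starProjection x - μ • R (Nᗮ.starProjection x) := fun x => rfl
    have hmem : ∀ x ∈ (T - μ • (1 : E →L[ℂ] E)).ker, f x ∈ core T q := by
      intro x hx
      refine ⟨?_, ?_⟩
      · change f x ∈ Nᗮ
        rw [hf]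
        exact Submodule.sub_mem _ (Submodule.starProjection_apply_mem _ _)
          (Submodule.smul_mem _ _ (hRm _))
      · change (T ^ (q + 1)) (f x) = 0
        rw [pow_apply_succ', hf, map_sub, map_sub, map_smul, map_smul, hTTP, heig x hx,
          map_smul, hR, hTP, sub_self]
    apply hdim_le_of_injective ((f : E →ₗ[ℂ] E).restrict hmem)
    rw [← LinearMap.ker_eq_bot, LinearMap.ker_eq_bot']
    intro x hx
    have h1 : f (x : E) = 0 := congrArg Subtype.val hx
    have h2 : Nᗮ.starProjection (x : E) = 0 := by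
      have h3 := hu2 (Nᗮ.starProjection (x : E))
      rw [show (u : E →L[ℂ] E) (Nᗮ.starProjection (x : E)) = 0 from h1, map_zero] at h3
      exact h3.symm
    have h3 : (T ^ q) (x : E) = 0 := by
      rw [← hTP, h2, map_zero]
    have hpow : ∀ n : ℕ, (T ^ n) (x : E) = μ ^ n • (x : E) := by
      intro n
      induction n with
      | zero => simp
      | succ n ih => rw [pow_apply_succ, ih, map_smul, heig _ x.2, smul_smul, pow_succ]
    rw [hpow] at h3
    exact Subtype.ext ((smul_eq_zero.1 h3).resolve_left (pow_ne_zero _ hμne))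
  · -- `n ↦ T^q (1 - μ R)⁻¹ n`
    let f : E →L[ℂ] E := (T ^ q) ∘L (↑u⁻¹ : E →L[ℂ] E)
    have hf : ∀ x, f x = (T ^ q) ((↑u⁻¹ : E →L[ℂ] E) x) := fun x => rfl
    have hw : ∀ n, (↑u⁻¹ : E →L[ℂ] E) n = n + μ • R ((↑u⁻¹ : E →L[ℂ] E) n) := by
      intro n
      have h1 := hu1 n
      rw [hux, sub_eq_iff_eq_add] at h1
      exact h1
    have hmem : ∀ n ∈ core T q, f n ∈ (T - μ • (1 : E →L[ℂ] E)).ker := by
      intro n hn
      change T (f n) - μ • f n = 0
      rw [hf, ← pow_apply_succ, pow_apply_succ']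
      conv_lhs => enter [1]; rw [hw]
      rw [map_add, map_add, ← pow_apply_succ', show (T ^ (q + 1)) n = 0 from hn.2, zero_add,
        map_smul, map_smul, hR, sub_self]
    apply hdim_le_of_injective ((f : E →ₗ[ℂ] E).restrict hmem)
    rw [← LinearMap.ker_eq_bot, LinearMap.ker_eq_bot']
    intro n hn
    have h1 : (T ^ q) ((↑u⁻¹ : E →L[ℂ] E) (n : E)) = 0 := congrArg Subtype.val hn
    have h2 : (↑u⁻¹ : E →L[ℂ] E) (n : E) ∈ Nᗮ := by
      rw [hw]
      exact Submodule.add_mem _ n.2.1 (Submodule.smul_mem _ _ (hRm _))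
    have h3 : (↑u⁻¹ : E →L[ℂ] E) (n : E) = 0 :=
      inner_self_eq_zero.1 ((Submodule.mem_orthogonal _ _).1 h2 _ h1)
    have h4 := hu1 (n : E)
    rw [h3, map_zero] at h4
    exact Subtype.ext h4.symm

end Core

section Block

variable {H K : Type*} [NormedAddCommGroup H] [InnerProductSpace ℂ H] [CompleteSpace H]
  [NormedAddCommGroup K] [InnerProductSpace ℂ K] [CompleteSpace K]

theorem blockOp_sub (A : H →L[ℂ] H) (C : K →L[ℂ] H) (B : K →L[ℂ] K) (μ : ℂ) :
    blockOp A C B - μ • (1 : WithLp 2 (H × K) →L[ℂ] WithLp 2 (H × K)) =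
      blockOp (A - μ • (1 : H →L[ℂ] H)) C (B - μ • (1 : K →L[ℂ] K)) := by
  ext z
  apply withLp_ext
  · change (A z.fst + C z.snd) - μ • z.fst = (A z.fst - μ • z.fst) + C z.snd
    abel
  · change B z.snd - μ • z.snd = B z.snd - μ • z.snd
    rfl

/-- If `[[a, C], [0, b]]` is bijective then `d(a) = n(b)`. -/
theorem hdim_eq_of_bijective {a : H →L[ℂ] H} {C : K →L[ℂ] H} {b : K →L[ℂ] K}
    (h : Function.Bijective (blockOp a C b)) : hdim (a.range)ᗮ = hdim b.ker := by
  let M := blockOp a C b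
  have hM1 : M.ker = ⊥ := LinearMap.ker_eq_bot.2 h.1
  have hM2 : M.range = ⊤ := LinearMap.range_eq_top.2 h.2
  let e := ContinuousLinearEquiv.ofBijective M hM1 hM2
  have he : ∀ z, e z = blockOp a C b z := fun z => rfl
  have hcl : IsClosed (a.range : Set H) := by
    have h1 : (a.range : Set H) = {x : H | (e.symm (WithLp.toLp 2 (x, (0 : K)))).snd = 0} := by
      ext x
      constructor
      · rintro ⟨y, rfl⟩
        have h2 : e (WithLp.toLp 2 (y, (0 : K))) = WithLp.toLp 2 (a y, (0 : K)) := by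
          rw [he]
          apply withLp_ext
          · change a y + C 0 = a y
            rw [map_zero, add_zero]
          · change b 0 = 0
            rw [map_zero]
        change (e.symm (WithLp.toLp 2 (a y, (0 : K)))).snd = 0
        rw [← h2, ContinuousLinearEquiv.symm_apply_apply]
        rfl
      · intro hx
        change (e.symm (WithLp.toLp 2 (x, (0 : K)))).snd = 0 at hx
        refine ⟨(e.symm (WithLp.toLp 2 (x, (0 : K)))).fst, ?_⟩
        have h2 := e.apply_symm_apply (WithLp.toLp 2 (x, (0 : K)))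
        have h3 := congrArg WithLp.fst h2
        rw [he, blockOp_fst, hx, map_zero, add_zero] at h3
        exact h3
    rw [h1]
    apply isClosed_eq _ continuous_const
    apply (WithLp.sndL 2 ℂ H K).continuous.comp
    apply e.symm.continuous.comp
    apply (WithLp.prodContinuousLinearEquiv 2 ℂ H K).symm.continuous.comp
    exact continuous_id.prodMk continuous_const
  have : CompleteSpace a.range := hcl.completeSpace_coe
  apply le_antisymm
  · let inl : H →ₗ[ℂ] WithLp 2 (H × K) :=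
      ((WithLp.prodContinuousLinearEquiv 2 ℂ H K).symm : (H × K) →ₗ[ℂ] WithLp 2 (H × K)) ∘ₗ
        LinearMap.inl ℂ H K
    let f : H →ₗ[ℂ] K := (WithLp.sndₗ 2 ℂ H K) ∘ₗ (e.symm : WithLp 2 (H × K) →ₗ[ℂ] _) ∘ₗ inl
    have hf : ∀ y, f y = (e.symm (WithLp.toLp 2 (y, (0 : K)))).snd := fun y => rfl
    have hmem : ∀ y ∈ (a.range)ᗮ, f y ∈ b.ker := by
      intro y _
      change b (f y) = 0
      rw [hf]
      have h2 := e.apply_symm_apply (WithLp.toLp 2 (y, (0 : K)))
      have h3 := congrArg WithLp.snd h2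
      rw [he, blockOp_snd] at h3
      exact h3
    apply hdim_le_of_injective (f.restrict hmem)
    rw [← LinearMap.ker_eq_bot, LinearMap.ker_eq_bot']
    intro y hy
    have h1 : (e.symm (WithLp.toLp 2 ((y : H), (0 : K)))).snd = 0 := congrArg Subtype.val hy
    have h2 := e.apply_symm_apply (WithLp.toLp 2 ((y : H), (0 : K)))
    have h3 := congrArg WithLp.fst h2
    rw [he, blockOp_fst, h1, map_zero, add_zero] at h3
    have h4 : (y : H) ∈ a.range := ⟨_, h3⟩
    exact Subtype.ext (inner_self_eq_zero.1 ((Submodule.mem_orthogonal _ _).1 y.2 _ h4))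
  · let f : K →ₗ[ℂ] H := ((a.range)ᗮ.starProjection ∘L C : K →L[ℂ] H)
    have hmem : ∀ k ∈ b.ker, f k ∈ (a.range)ᗮ := by
      intro k _
      exact Submodule.starProjection_apply_mem _ _
    apply hdim_le_of_injective (f.restrict hmem)
    rw [← LinearMap.ker_eq_bot, LinearMap.ker_eq_bot']
    intro k hk
    have h1 : (a.range)ᗮ.starProjection (C (k : K)) = 0 := congrArg Subtype.val hk
    rw [Submodule.starProjection_apply_eq_zero_iff, Submodule.orthogonal_orthogonal] at h1
    obtain ⟨x, hx⟩ := h1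
    have hx' : a x = C (k : K) := hx
    have h2 : blockOp a C b (WithLp.toLp 2 (-x, (k : K))) = 0 := by
      apply withLp_ext
      · change a (-x) + C (k : K) = 0
        rw [map_neg, hx', neg_add_cancel]
      · exact k.2
    have h3 := h.1 (h2.trans (map_zero _).symm)
    exact Subtype.ext (congrArg WithLp.snd h3)

/-- Necessity: descent of `B`, descent of `A*`, and (iii). -/
theorem necessity {A : H →L[ℂ] H} {C : K →L[ℂ] H} {B : K →L[ℂ] K}
    (h : IsDrazin (blockOp A C B)) :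
    dsc (ContinuousLinearMap.adjoint A) < ⊤ ∧ dsc B < ⊤ ∧ CondIII A B := by
  obtain ⟨q, hk, hr⟩ := h.exists_index
  refine ⟨?_, ?_, ?_⟩
  · -- descent of the adjoint
    obtain ⟨X, hX, -⟩ := exists_bounded_inverse hk hr
    set M := blockOp A C B with hM
    have hadjpow : ∀ n : ℕ, ContinuousLinearMap.adjoint (M ^ n) =
        (ContinuousLinearMap.adjoint M) ^ n := by
      intro n
      rw [← ContinuousLinearMap.star_eq_adjoint, ← ContinuousLinearMap.star_eq_adjoint, star_pow]
    have h1 : X ∘L (M ^ (q + 1)) = M ^ q := ContinuousLinearMap.ext fun z => hX z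
    have h2 : ∀ z, ((ContinuousLinearMap.adjoint M) ^ (q + 1)) ((ContinuousLinearMap.adjoint X) z) =
        ((ContinuousLinearMap.adjoint M) ^ q) z := by
      intro z
      have h3 := congrArg ContinuousLinearMap.adjoint h1
      rw [ContinuousLinearMap.adjoint_comp, hadjpow, hadjpow] at h3
      exact congrArg (fun T : WithLp 2 (H × K) →L[ℂ] WithLp 2 (H × K) => T z) h3
    have hfst : ∀ z, ((ContinuousLinearMap.adjoint M) z).fst =
        (ContinuousLinearMap.adjoint A) z.fst := by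
      intro z
      apply ext_inner_right ℂ
      intro x
      have h3 : ⟪(ContinuousLinearMap.adjoint M) z, WithLp.toLp 2 (x, (0 : K))⟫_ℂ =
          ⟪z, M (WithLp.toLp 2 (x, (0 : K)))⟫_ℂ := ContinuousLinearMap.adjoint_inner_left _ _ _
      rw [WithLp.prod_inner_apply, WithLp.prod_inner_apply] at h3
      have h4 : ((M (WithLp.toLp 2 (x, (0 : K)))).ofLp).fst = A x := by
        change A x + C 0 = A x
        rw [map_zero, add_zero]
      have h5 : ((M (WithLp.toLp 2 (x, (0 : K)))).ofLp).snd = 0 := by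
        change B 0 = 0
        rw [map_zero]
      rw [h4, h5, inner_zero_right, add_zero] at h3
      rw [inner_zero_right, add_zero] at h3
      rw [ContinuousLinearMap.adjoint_inner_left]
      exact h3
    have hpfst : ∀ (n : ℕ) z, (((ContinuousLinearMap.adjoint M) ^ n) z).fst =
        ((ContinuousLinearMap.adjoint A) ^ n) z.fst := by
      intro n
      induction n with
      | zero => intro z; simp
      | succ n ih =>
        intro z
        rw [pow_succ', mul_apply_eq_comp, hfst, ih, pow_succ' (ContinuousLinearMap.adjoint A),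
          mul_apply_eq_comp]
    rw [dsc_lt_top_iff]
    refine ⟨q, le_antisymm (range_pow_anti _ (Nat.le_succ q)) ?_⟩
    intro x hx
    obtain ⟨y, rfl⟩ := mem_range_pow.1 hx
    rw [mem_range_pow]
    refine ⟨((ContinuousLinearMap.adjoint X) (WithLp.toLp 2 (y, (0 : K)))).fst, ?_⟩
    rw [← hpfst, h2, hpfst]
    rfl
  · rw [dsc_lt_top_iff]
    refine ⟨q, le_antisymm (range_pow_anti _ (Nat.le_succ q)) ?_⟩
    intro x hx
    obtain ⟨y, rfl⟩ := mem_range_pow.1 hx
    have h1 : ((blockOp A C B) ^ q) (WithLp.toLp 2 ((0 : H), y)) ∈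
        ((blockOp A C B) ^ (q + 1)).range := by
      rw [hr]
      exact ⟨_, rfl⟩
    obtain ⟨z, hz⟩ := mem_range_pow.1 h1
    rw [mem_range_pow]
    refine ⟨z.snd, ?_⟩
    have h2 := congrArg WithLp.snd hz
    rw [blockOp_pow_snd, blockOp_pow_snd] at h2
    exact h2
  · obtain ⟨δ, hδ, hbij⟩ := h.exists_bijective
    refine ⟨δ, hδ, fun μ h0 h1 => ?_⟩
    have h2 := hbij μ h0 h1
    rw [blockOp_sub] at h2
    exact hdim_eq_of_bijective h2

end Block

end Pool.Agent.H26.Drazin
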