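import Mathlib

/-!
# Definitions for the completion problem `M_C = [[A, C], [0, B]]` (MP_632fda_an)

Ascent, descent, left / right / two sided Drazin invertibility, the condition (iii), the
condition (E) and admissible operators `C`, exactly as in the problem file.
-/

namespace Pool.Agent.H26.Drazin

open scoped InnerProductSpace

section Single

variable {E : Type*} [NormedAddCommGroup E] [InnerProductSpace ℂ E]

/-- The ascent: least `k` with `N(T^(k+1)) = N(T^k)`, or `∞`. -/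
noncomputable def asc (T : E →L[ℂ] E) : ℕ∞ :=
  ⨅ (k : ℕ) (_ : (T ^ (k + 1)).ker = (T ^ k).ker), (k : ℕ∞)

/-- The descent: least `k` with `R(T^(k+1)) = R(T^k)`, or `∞`. -/
noncomputable def dsc (T : E →L[ℂ] E) : ℕ∞ :=
  ⨅ (k : ℕ) (_ : (T ^ (k + 1)).range = (T ^ k).range), (k : ℕ∞)

/-- Left Drazin invertible: finite ascent `a` and `R(T^(a+1))` closed. -/
def IsLeftDrazin (T : E →L[ℂ] E) : Prop :=
  ∃ a : ℕ, asc T = a ∧ IsClosed ((T ^ (a + 1)).range : Set E)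

/-- Right Drazin invertible: finite descent `d` and `R(T^d)` closed. -/
def IsRightDrazin (T : E →L[ℂ] E) : Prop :=
  ∃ d : ℕ, dsc T = d ∧ IsClosed ((T ^ d).range : Set E)

/-- Drazin invertible: finite ascent and finite descent. -/
def IsDrazin (T : E →L[ℂ] E) : Prop := asc T < ⊤ ∧ dsc T < ⊤

/-- Dimension of a closed subspace of a separable Hilbert space, as an element of
`{0, 1, 2, …, ∞}`. -/
noncomputable def hdim (M : Submodule ℂ E) : ℕ∞ := Cardinal.toENat (Module.rank ℂ M)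

end Single

section Pair

variable {H K : Type*} [NormedAddCommGroup H] [InnerProductSpace ℂ H]
  [NormedAddCommGroup K] [InnerProductSpace ℂ K]

/-- Condition (iii): `d(A - λ) = n(B - λ)` for all `0 < |λ| < δ`, some `δ > 0`. -/
def CondIII (A : H →L[ℂ] H) (B : K →L[ℂ] K) : Prop :=
  ∃ δ : ℝ, 0 < δ ∧ ∀ μ : ℂ, 0 < ‖μ‖ → ‖μ‖ < δ →
    hdim (A - μ • (1 : H →L[ℂ] H)).rangeᗮ = hdim (B - μ • (1 : K →L[ℂ] K)).ker

/-- `𝒮 = R(A) + N(A^p)`. -/
def spS (A : H →L[ℂ] H) (p : ℕ) : Submodule ℂ H := A.range ⊔ (A ^ p).ker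

/-- `𝒯 = closure of N(B) ∩ R(B^p)`. -/
def spT (B : K →L[ℂ] K) (p : ℕ) : Submodule ℂ K := (B.ker ⊓ (B ^ p).range).topologicalClosure

/-- Condition (E): `𝒮` is closed and `dim 𝒮ᗮ = dim 𝒯`. -/
def CondE (A : H →L[ℂ] H) (B : K →L[ℂ] K) (p : ℕ) : Prop :=
  IsClosed (spS A p : Set H) ∧ hdim (spS A p)ᗮ = hdim (spT B p)

/-- `C` is admissible (for `A`, `B`, `p`): `C` agrees on `𝒯` with some bounded invertible
`J : 𝒯 → 𝒮ᗮ`, and `C = 0` on `𝒯ᗮ`. -/
def IsAdmissible (A : H →L[ℂ] H) (B : K →L[ℂ] K) (p : ℕ) (C : K →L[ℂ] H) : Prop :=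
  ∃ J : spT B p ≃L[ℂ] (spS A p)ᗮ, (∀ t : spT B p, C t = J t) ∧ ∀ x ∈ (spT B p)ᗮ, C x = 0

/-- The operator matrix `M_C = [[A, C], [0, B]]` on the Hilbert space direct sum `H ⊕ K`. -/
noncomputable def blockOp (A : H →L[ℂ] H) (C : K →L[ℂ] H) (B : K →L[ℂ] K) :
    WithLp 2 (H × K) →L[ℂ] WithLp 2 (H × K) :=
  (WithLp.prodContinuousLinearEquiv 2 ℂ H K).symm.toContinuousLinearMap ∘L
    ((A ∘L WithLp.fstL 2 ℂ H K + C ∘L WithLp.sndL 2 ℂ H K).prod (B ∘L WithLp.sndL 2 ℂ H K))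

theorem blockOp_fst (A : H →L[ℂ] H) (C : K →L[ℂ] H) (B : K →L[ℂ] K) (z : WithLp 2 (H × K)) :
    (blockOp A C B z).fst = A z.fst + C z.snd := rfl

theorem blockOp_snd (A : H →L[ℂ] H) (C : K →L[ℂ] H) (B : K →L[ℂ] K) (z : WithLp 2 (H × K)) :
    (blockOp A C B z).snd = B z.snd := rfl

end Pair

end Pool.Agent.H26.Drazin
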