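import Pool.Agent.H26.DrazinBasic

/-!
# Bases and weighted composition operators on infinite dimensional separable Hilbert spaces
-/

namespace Pool.Agent.H26.Drazin

open scoped InnerProductSpace ENNReal

section Basis

variable {E : Type*} [NormedAddCommGroup E] [InnerProductSpace ℂ E]

/-- An orthonormal set in a separable inner product space is countable. -/
theorem orthonormal_countable [TopologicalSpace.SeparableSpace E] {w : Set E}
    (hw : Orthonormal ℂ ((↑) : w → E)) : w.Countable := by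
  have hdist : ∀ x ∈ w, ∀ y ∈ w, x ≠ y → 1 ≤ dist x y := by
    intro x hx y hy hxy
    have hx1 : ‖x‖ = 1 := hw.1 ⟨x, hx⟩
    have hy1 : ‖y‖ = 1 := hw.1 ⟨y, hy⟩
    have hxy0 : ⟪x, y⟫_ℂ = 0 := hw.2 (i := ⟨x, hx⟩) (j := ⟨y, hy⟩) (fun h => hxy (congrArg Subtype.val h))
    have h2 : ‖x - y‖ ^ 2 = 2 := by
      rw [@norm_sub_sq ℂ, hxy0, hx1, hy1]
      norm_num
    rw [dist_eq_norm]
    by_contra hlt
    push Not at hlt
    nlinarith [norm_nonneg (x - y)]
  apply Set.PairwiseDisjoint.countable_of_isOpen (s := fun x => Metric.ball x (1 / 2))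
  · intro x hx y hy hxy
    apply Metric.ball_disjoint_ball
    have := hdist x hx y hy hxy
    linarith
  · intro x _
    exact Metric.isOpen_ball
  · intro x _
    exact ⟨x, Metric.mem_ball_self (by norm_num)⟩

/-- Every infinite dimensional separable complex Hilbert space has a Hilbert basis indexed
by `ℕ`. -/
theorem exists_nat_hilbertBasis [CompleteSpace E] [TopologicalSpace.SeparableSpace E]
    (hE : ¬ FiniteDimensional ℂ E) : Nonempty (HilbertBasis ℕ ℂ E) := by
  obtain ⟨w, b, hb⟩ := exists_hilbertBasis ℂ E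
  have hon : Orthonormal ℂ ((↑) : w → E) := hb ▸ b.orthonormal
  have hcount : w.Countable := orthonormal_countable hon
  have hinf : w.Infinite := by
    intro hfin
    apply hE
    have := hfin.fintype
    exact b.toOrthonormalBasis.toBasis.finiteDimensional_of_finite
  have : Countable w := hcount
  have : Infinite w := hinf.to_subtype
  obtain ⟨e⟩ : Nonempty (ℕ ≃ w) := nonempty_equiv_of_countable
  have ho : Orthonormal ℂ (fun n : ℕ => ((e n : w) : E)) := hon.comp e e.injective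
  refine ⟨HilbertBasis.mk ho ?_⟩
  have hr : Set.range (fun n : ℕ => ((e n : w) : E)) = Set.range b := by
    rw [hb]
    exact e.surjective.range_comp ((↑) : w → E)
  rw [hr, b.dense_span]

/-- Two infinite dimensional separable complex Hilbert spaces are isometrically isomorphic. -/
theorem exists_isometryEquiv {F : Type*} [NormedAddCommGroup F] [InnerProductSpace ℂ F]
    [CompleteSpace E] [TopologicalSpace.SeparableSpace E] (hE : ¬ FiniteDimensional ℂ E)
    [CompleteSpace F] [TopologicalSpace.SeparableSpace F] (hF : ¬ FiniteDimensional ℂ F) :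
    Nonempty (E ≃ₗᵢ[ℂ] F) := by
  obtain ⟨b⟩ := exists_nat_hilbertBasis hE
  obtain ⟨c⟩ := exists_nat_hilbertBasis hF
  exact ⟨b.repr.trans c.repr.symm⟩

theorem coord_ext (b : HilbertBasis ℕ ℂ E) {x y : E} (h : ∀ n, ⟪b n, x⟫_ℂ = ⟪b n, y⟫_ℂ) :
    x = y := by
  apply b.repr.injective
  apply lp.ext
  funext n
  rw [b.repr_apply_apply, b.repr_apply_apply, h n]

/-- Weighted composition operators on a space with a Hilbert basis. -/
theorem exists_wco (b : HilbertBasis ℕ ℂ E) (σ : ℕ → ℕ) (hσ : Function.Injective σ)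
    (w : ℕ → ℂ) (hw : ∀ n, ‖w n‖ ≤ 1) :
    ∃ T : E →L[ℂ] E, (∀ x, ‖T x‖ ≤ ‖x‖) ∧ ∀ x n, ⟪b n, T x⟫_ℂ = w n * ⟪b (σ n), x⟫_ℂ := by
  classical
  have h2 : (0 : ℝ) < (2 : ℝ≥0∞).toReal := by norm_num
  have hsum : ∀ (f : lp (fun _ : ℕ => ℂ) 2) (s : Finset ℕ),
      ∑ i ∈ s, ‖w i * f (σ i)‖ ^ (2 : ℝ≥0∞).toReal ≤ ‖f‖ ^ (2 : ℝ≥0∞).toReal := by
    intro f s
    calc ∑ i ∈ s, ‖w i * f (σ i)‖ ^ (2 : ℝ≥0∞).toReal
        ≤ ∑ i ∈ s, ‖f (σ i)‖ ^ (2 : ℝ≥0∞).toReal := by
          apply Finset.sum_le_sum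
          intro i _
          apply Real.rpow_le_rpow (norm_nonneg _) _ h2.le
          rw [norm_mul]
          calc ‖w i‖ * ‖f (σ i)‖ ≤ 1 * ‖f (σ i)‖ :=
                mul_le_mul_of_nonneg_right (hw i) (norm_nonneg _)
            _ = ‖f (σ i)‖ := one_mul _
      _ = ∑ j ∈ s.image σ, ‖f j‖ ^ (2 : ℝ≥0∞).toReal := by
          rw [Finset.sum_image (fun a _ c _ h => hσ h)]
      _ ≤ ‖f‖ ^ (2 : ℝ≥0∞).toReal := lp.sum_rpow_le_norm_rpow h2 f _
  have hmem : ∀ f : lp (fun _ : ℕ => ℂ) 2, Memℓp (fun i => w i * f (σ i)) 2 :=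
    fun f => memℓp_gen' (hsum f)
  let T0 : lp (fun _ : ℕ => ℂ) 2 →ₗ[ℂ] lp (fun _ : ℕ => ℂ) 2 :=
    { toFun := fun f => ⟨fun i => w i * f (σ i), hmem f⟩
      map_add' := by
        intro f g
        ext i
        change w i * (f (σ i) + g (σ i)) = w i * f (σ i) + w i * g (σ i)
        ring
      map_smul' := by
        intro c f
        ext i
        change w i * (c • f (σ i)) = c • (w i * f (σ i))
        rw [smul_eq_mul, smul_eq_mul]
        ring }
  have hT0 : ∀ f, ‖T0 f‖ ≤ 1 * ‖f‖ := by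
    intro f
    rw [one_mul]
    exact lp.norm_le_of_forall_sum_le h2 (norm_nonneg f) (hsum f)
  let T1 : lp (fun _ : ℕ => ℂ) 2 →L[ℂ] lp (fun _ : ℕ => ℂ) 2 := T0.mkContinuous 1 hT0
  refine ⟨(b.repr.symm.toContinuousLinearEquiv.toContinuousLinearMap ∘L T1) ∘L
    b.repr.toContinuousLinearEquiv.toContinuousLinearMap, ?_, ?_⟩
  · intro x
    change ‖b.repr.symm (T0 (b.repr x))‖ ≤ ‖x‖
    rw [LinearIsometryEquiv.norm_map]
    have := hT0 (b.repr x)
    rw [one_mul, LinearIsometryEquiv.norm_map] at this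
    exact this
  · intro x n
    rw [← b.repr_apply_apply, ← b.repr_apply_apply]
    change (b.repr (b.repr.symm (T0 (b.repr x))) : ∀ _ : ℕ, ℂ) n = _
    rw [LinearIsometryEquiv.apply_symm_apply]
    rfl

end Basis

end Pool.Agent.H26.Drazin
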