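import Pool.Agent.H26.DrazinCompletion

/-!
# Sufficiency: a Drazin invertible completion exists
-/

set_option linter.unusedSectionVars false

namespace Pool.Agent.H26.Drazin

open scoped InnerProductSpace InnerProduct

variable {H K : Type*} [NormedAddCommGroup H] [InnerProductSpace ℂ H] [CompleteSpace H]
  [NormedAddCommGroup K] [InnerProductSpace ℂ K] [CompleteSpace K]

/-- Descent of `A*` and `B` at the index `q`, and an isometry of the two cores, give a Drazin
invertible completion. -/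
theorem sufficiency {A : H →L[ℂ] H} {B : K →L[ℂ] K} {q : ℕ}
    (hA : ((ContinuousLinearMap.adjoint A) ^ (q + 1)).range =
      ((ContinuousLinearMap.adjoint A) ^ q).range)
    (hB : (B ^ (q + 1)).range = (B ^ q).range)
    (U : core B q ≃ₗᵢ[ℂ] core (ContinuousLinearMap.adjoint A) q) :
    ∃ C : K →L[ℂ] H, IsDrazin (blockOp A C B) := by
  set A' := ContinuousLinearMap.adjoint A with hA'
  have hAA' : ContinuousLinearMap.adjoint A' = A := ContinuousLinearMap.adjoint_adjoint A
  have hadj : ∀ x y : H, ⟪x, A y⟫_ℂ = ⟪A' x, y⟫_ℂ := fun x y =>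
    (ContinuousLinearMap.adjoint_inner_left A y x).symm
  -- the spaces
  set N : Submodule ℂ K := (B ^ q).ker with hN
  have hNc : IsClosed (N : Set K) := isClosed_ker_pow B q
  have : CompleteSpace N := hNc.completeSpace_coe
  set N' : Submodule ℂ H := (A' ^ q).ker with hN'
  have hN'c : IsClosed (N' : Set H) := isClosed_ker_pow A' q
  have : CompleteSpace N' := hN'c.completeSpace_coe
  have hcB : IsClosed (core B q : Set K) := isClosed_core B q
  have : CompleteSpace (core B q) := hcB.completeSpace_coe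
  -- `H₁ = N'ᗮ`
  have hH1A : ∀ h ∈ N'ᗮ, A h ∈ N'ᗮ := by
    intro h hh
    rw [Submodule.mem_orthogonal]
    intro u hu
    rw [hadj]
    exact (Submodule.mem_orthogonal _ _).1 hh _ (map_ker_pow A' q hu)
  obtain ⟨c, hc0, hc⟩ := exists_bound_of_dsc_adjoint hA
  have hclos : (N'ᗮ : Submodule ℂ H) = (A ^ q).range.topologicalClosure := by
    rw [hN', ContinuousLinearMap.orthogonal_ker]
    have : ContinuousLinearMap.adjoint (A' ^ q) = A ^ q := by
      rw [← ContinuousLinearMap.star_eq_adjoint, star_pow, ContinuousLinearMap.star_eq_adjoint,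
        hAA']
    rw [this]
  have hrange : ∀ x, (A ^ q) x ∈ N'ᗮ := by
    intro x
    rw [hclos]
    exact Submodule.le_topologicalClosure _ ⟨x, rfl⟩
  have hbelow : ∀ h ∈ N'ᗮ, ‖h‖ ≤ c * ‖A h‖ := by
    intro h hh
    rw [hclos] at hh
    have hcl : IsClosed {h : H | ‖h‖ ≤ c * ‖A h‖} :=
      isClosed_le continuous_norm (continuous_const.mul (A.continuous.norm))
    have hsub : ((A ^ q).range : Set H) ⊆ {h : H | ‖h‖ ≤ c * ‖A h‖} := by
      rintro _ ⟨x, rfl⟩
      have := hc x
      rw [pow_apply_succ] at this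
      exact this
    exact closure_minimal hsub hcl hh
  have hA0 : ∀ h ∈ N'ᗮ, A h = 0 → h = 0 := by
    intro h hh h0
    have := hbelow h hh
    rw [h0, norm_zero, mul_zero] at this
    exact norm_le_zero_iff.1 this
  -- the range of `A` on `H₁`
  let A1 : (N'ᗮ : Submodule ℂ H) →L[ℂ] H := A ∘L (N'ᗮ).subtypeL
  have hA1 : IsClosed (A1.range : Set H) := by
    have h1 : AntilipschitzWith (Real.toNNReal c) A1 := by
      apply A1.antilipschitz_of_bound
      intro x
      rw [Real.coe_toNNReal _ hc0]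
      exact hbelow x x.2
    exact h1.isClosed_range A1.uniformContinuous
  have : CompleteSpace A1.range := hA1.completeSpace_coe
  have hsplit : ∀ h ∈ N'ᗮ, ∃ x ∈ N'ᗮ, ∃ s ∈ core A' q, h = A x + s := by
    intro h hh
    obtain ⟨r, hr, s, hs, rfl⟩ := A1.range.exists_add_mem_mem_orthogonal h
    obtain ⟨x, hx⟩ := hr
    have hx' : A (x : H) = r := hx
    have hrN : r ∈ N'ᗮ := by
      rw [← hx']
      exact hH1A _ x.2
    refine ⟨x, x.2, s, ⟨?_, ?_⟩, by rw [hx']⟩
    · change s ∈ N'ᗮ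
      have := Submodule.sub_mem _ hh hrN
      rwa [add_sub_cancel_left] at this
    · change (A' ^ (q + 1)) s = 0
      rw [pow_apply_succ']
      have h1 : A' s ∈ (N'ᗮ)ᗮ := by
        rw [Submodule.mem_orthogonal']
        intro u hu
        rw [← hadj]
        exact (Submodule.mem_orthogonal' _ _).1 hs _ ⟨⟨u, hu⟩, rfl⟩
      rw [Submodule.orthogonal_orthogonal] at h1
      exact h1
  have hcoreA : ∀ s ∈ core A' q, s ∈ N'ᗮ ∧ ∀ x ∈ N'ᗮ, ⟪s, A x⟫_ℂ = 0 := by
    intro s hs
    refine ⟨hs.1, fun x hx => ?_⟩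
    rw [hadj]
    apply (Submodule.mem_orthogonal _ _).1 hx
    change (A' ^ q) (A' s) = 0
    rw [← pow_apply_succ']
    exact hs.2
  -- the operator `C`
  let C : K →L[ℂ] H := (core A' q).subtypeL ∘L
    (U.toContinuousLinearEquiv.toContinuousLinearMap ∘L (core B q).orthogonalProjectionOnto)
  have hC1 : ∀ k, C k ∈ core A' q := fun k => (U ((core B q).orthogonalProjectionOnto k)).2
  have hC2 : ∀ k ∈ (core B q)ᗮ, C k = 0 := by
    intro k hk
    change ((U ((core B q).orthogonalProjectionOnto k) : core A' q) : H) = 0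
    have : (core B q).orthogonalProjectionOnto k = 0 := by
      rw [Submodule.orthogonalProjectionOnto_eq_zero_iff]
      exact hk
    rw [this, map_zero]
    rfl
  have hC3 : ∀ k : core B q, C k = U k := by
    intro k
    change ((U ((core B q).orthogonalProjectionOnto (k : K)) : core A' q) : H) = U k
    rw [Submodule.orthogonalProjectionOnto_mem_subspace_eq_self]
  have hCN : ∀ k ∈ N, C k = 0 := by
    intro k hk
    apply hC2
    rw [Submodule.mem_orthogonal']
    intro u hu
    exact (Submodule.mem_orthogonal _ _).1 hu.1 _ hk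
  refine ⟨C, ?_⟩
  set M := blockOp A C B with hM
  -- (α) `M^n (0, k) = (0, B^n k)` for `k ∈ N`
  have hBN : ∀ k ∈ N, B k ∈ N := fun k hk => map_ker_pow B q hk
  have hα : ∀ n : ℕ, ∀ z : WithLp 2 (H × K), z.fst = 0 → z.snd ∈ N →
      ((M ^ n) z).fst = 0 ∧ ((M ^ n) z).snd ∈ N := by
    intro n
    induction n with
    | zero => intro z h1 h2; exact ⟨h1, h2⟩
    | succ n ih =>
      intro z h1 h2
      obtain ⟨h3, h4⟩ := ih z h1 h2
      rw [pow_succ', mul_apply_eq_comp]
      constructor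
      · rw [hM, blockOp_fst, ← hM, h3, map_zero, zero_add, hCN _ h4]
      · rw [hM, blockOp_snd, ← hM]
        exact hBN _ h4
  have hα' : ∀ z : WithLp 2 (H × K), z.fst = 0 → z.snd ∈ N → (M ^ q) z = 0 := by
    intro z h1 h2
    apply withLp_ext
    · exact (hα q z h1 h2).1
    · rw [hM, blockOp_pow_snd]
      exact h2
  -- (β)
  have hF2 : ∀ z : WithLp 2 (H × K), z.fst ∈ N'ᗮ → (M z).fst ∈ N'ᗮ := by
    intro z hz
    rw [hM, blockOp_fst]
    exact Submodule.add_mem _ (hH1A _ hz) (hcoreA _ (hC1 _)).1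
  have hF2n : ∀ n : ℕ, ∀ z : WithLp 2 (H × K), z.fst ∈ N'ᗮ → ((M ^ n) z).fst ∈ N'ᗮ := by
    intro n
    induction n with
    | zero => intro z hz; exact hz
    | succ n ih =>
      intro z hz
      rw [pow_succ', mul_apply_eq_comp]
      exact hF2 _ (ih z hz)
  have hβ' : ∀ n : ℕ, ∀ z : WithLp 2 (H × K), ((M ^ n) z).fst - (A ^ n) z.fst ∈ N'ᗮ := by
    intro n
    induction n with
    | zero => intro z; simp
    | succ n ih =>
      intro z
      rw [pow_succ', mul_apply_eq_comp, hM, blockOp_fst, ← hM, pow_succ' A,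
        mul_apply_eq_comp]
      have h1 : A ((M ^ n) z).fst + C ((M ^ n) z).snd - A ((A ^ n) z.fst) =
          A (((M ^ n) z).fst - (A ^ n) z.fst) + C ((M ^ n) z).snd := by
        rw [map_sub]; abel
      rw [h1]
      exact Submodule.add_mem _ (hH1A _ (ih z)) (hcoreA _ (hC1 _)).1
  have hβ : ∀ z : WithLp 2 (H × K), ((M ^ q) z).fst ∈ N'ᗮ := by
    intro z
    have h1 := Submodule.add_mem _ (hβ' q z) (hrange z.fst)
    rwa [sub_add_cancel] at h1
  -- (γ)
  have hγ : ∀ z : WithLp 2 (H × K), z.fst ∈ N'ᗮ → (M z).fst = 0 → (M z).snd ∈ N →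
      z.fst = 0 ∧ z.snd ∈ N := by
    intro z hz h1 h2
    rw [hM, blockOp_fst] at h1
    rw [hM, blockOp_snd] at h2
    obtain ⟨k0, hk0, k1, hk1, hk⟩ := N.exists_add_mem_mem_orthogonal z.snd
    have hk1c : k1 ∈ core B q := by
      refine ⟨hk1, ?_⟩
      change (B ^ (q + 1)) k1 = 0
      rw [pow_apply_succ']
      have h3 : k1 = z.snd - k0 := by rw [hk]; abel
      have h4 : (B ^ q) (B k0) = 0 := hBN _ hk0
      rw [h3, map_sub, map_sub, show (B ^ q) (B z.snd) = 0 from h2, h4, sub_zero]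
    have hCz : C z.snd = U ⟨k1, hk1c⟩ := by
      rw [hk, map_add, hCN _ hk0, zero_add]
      exact hC3 ⟨k1, hk1c⟩
    have hA1z : A z.fst = 0 := by
      have h5 : ⟪A z.fst, A z.fst⟫_ℂ = 0 := by
        have h6 : A z.fst = - C z.snd := by rw [eq_neg_iff_add_eq_zero]; exact h1
        have h7 := (hcoreA _ (hC1 z.snd)).2 _ hz
        calc ⟪A z.fst, A z.fst⟫_ℂ = ⟪- C z.snd, A z.fst⟫_ℂ := by rw [← h6]
          _ = 0 := by rw [inner_neg_left, h7, neg_zero]
      exact inner_self_eq_zero.1 h5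
    refine ⟨hA0 _ hz hA1z, ?_⟩
    rw [hA1z, zero_add, hCz] at h1
    have h8 : U ⟨k1, hk1c⟩ = 0 := Subtype.ext h1
    have h9 : (⟨k1, hk1c⟩ : core B q) = 0 := by
      apply U.injective
      rw [h8, map_zero]
    have h10 : k1 = 0 := congrArg Subtype.val h9
    rw [hk, h10, add_zero]
    exact hk0
  -- (δ)
  have hδ : ∀ z : WithLp 2 (H × K), z.fst ∈ N'ᗮ → ∃ w f : WithLp 2 (H × K),
      w.fst ∈ N'ᗮ ∧ f.fst = 0 ∧ f.snd ∈ N ∧ z = M w + f := by
    intro z hz
    -- solve `B k'' ≡ z.snd mod N`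
    have h1 : (B ^ q) z.snd ∈ (B ^ (q + 1)).range := by
      rw [hB]
      exact ⟨_, rfl⟩
    obtain ⟨k, hk⟩ := mem_range_pow.1 h1
    have h2 : z.snd - B k ∈ N := by
      change (B ^ q) (z.snd - B k) = 0
      rw [map_sub, ← pow_apply_succ', hk, sub_self]
    obtain ⟨x, hx, s, hs, hxs⟩ := hsplit (z.fst - C k)
      (Submodule.sub_mem _ hz (hcoreA _ (hC1 _)).1)
    obtain ⟨n, hn⟩ := U.surjective ⟨s, hs⟩
    have hCn : C (n : K) = s := by rw [hC3, hn]
    have hBn : B (n : K) ∈ N := by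
      change (B ^ q) (B (n : K)) = 0
      rw [← pow_apply_succ']
      exact n.2.2
    refine ⟨WithLp.toLp 2 (x, k + (n : K)), WithLp.toLp 2 ((0 : H), z.snd - B k - B (n : K)),
      hx, rfl, Submodule.sub_mem _ h2 hBn, ?_⟩
    apply withLp_ext
    · change z.fst = (A x + C (k + (n : K))) + 0
      rw [map_add, hCn, add_zero]
      have : z.fst = C k + (A x + s) := by rw [← hxs]; abel
      rw [this]
      abel
    · change z.snd = B (k + (n : K)) + (z.snd - B k - B (n : K))
      rw [map_add]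
      abel
  have hδn : ∀ n : ℕ, ∀ z : WithLp 2 (H × K), z.fst ∈ N'ᗮ → ∃ w f : WithLp 2 (H × K),
      w.fst ∈ N'ᗮ ∧ f.fst = 0 ∧ f.snd ∈ N ∧ z = (M ^ n) w + f := by
    intro n
    induction n with
    | zero => intro z hz; exact ⟨z, 0, hz, rfl, Submodule.zero_mem _, by simp⟩
    | succ n ih =>
      intro z hz
      obtain ⟨w, f, hw, hf1, hf2, rfl⟩ := ih z hz
      obtain ⟨w', f', hw', hf'1, hf'2, hww⟩ := hδ w hw
      obtain ⟨h3, h4⟩ := hα n f' hf'1 hf'2
      refine ⟨w', (M ^ n) f' + f, hw', ?_, ?_, ?_⟩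
      · change ((M ^ n) f').fst + f.fst = 0
        rw [h3, hf1, add_zero]
      · change ((M ^ n) f').snd + f.snd ∈ N
        exact Submodule.add_mem _ h4 hf2
      · rw [pow_succ, mul_apply_eq_comp, ← add_assoc, ← map_add, ← hww]
  constructor
  · rw [asc_lt_top_iff]
    refine ⟨q + q, le_antisymm ?_ (ker_pow_mono _ (Nat.le_succ _))⟩
    intro z hz
    rw [mem_ker_pow] at hz ⊢
    -- iterate (γ)
    have hiter : ∀ n : ℕ, ∀ w : WithLp 2 (H × K), w.fst ∈ N'ᗮ → (M ^ n) w = 0 →
        w.fst = 0 ∧ w.snd ∈ N := by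
      intro n
      induction n with
      | zero =>
        intro w _ h0
        have h1 : w = 0 := h0
        rw [h1]
        exact ⟨rfl, Submodule.zero_mem _⟩
      | succ n ih =>
        intro w hw h0
        rw [pow_succ, mul_apply_eq_comp] at h0
        obtain ⟨h1, h2⟩ := ih (M w) (hF2 w hw) h0
        exact hγ w hw h1 h2
    have h1 : (M ^ (q + 1)) ((M ^ q) z) = 0 := by
      rw [← mul_apply_eq_comp, ← pow_add, show q + 1 + q = q + q + 1 by omega]
      exact hz
    obtain ⟨h2, h3⟩ := hiter (q + 1) _ (hβ z) h1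
    rw [pow_add, mul_apply_eq_comp]
    exact hα' _ h2 h3
  · rw [dsc_lt_top_iff]
    refine ⟨q + q, le_antisymm (range_pow_anti _ (Nat.le_succ _)) ?_⟩
    intro y hy
    obtain ⟨z, rfl⟩ := mem_range_pow.1 hy
    obtain ⟨w, f, -, hf1, hf2, hwf⟩ := hδn (q + 1) _ (hβ z)
    rw [mem_range_pow]
    refine ⟨w, ?_⟩
    rw [pow_add M q q, mul_apply_eq_comp, hwf, map_add, hα' f hf1 hf2, add_zero,
      ← mul_apply_eq_comp, ← pow_add, show q + (q + 1) = q + q + 1 by omega]

/-- **Which pairs have a Drazin invertible completion?** -/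
theorem exists_completion_iff (H K : Type*)
    [NormedAddCommGroup H] [InnerProductSpace ℂ H] [CompleteSpace H]
    [TopologicalSpace.SeparableSpace H]
    [NormedAddCommGroup K] [InnerProductSpace ℂ K] [CompleteSpace K]
    [TopologicalSpace.SeparableSpace K]
    (A : H →L[ℂ] H) (B : K →L[ℂ] K) :
    (∃ C : K →L[ℂ] H, IsDrazin (blockOp A C B)) ↔
      dsc (ContinuousLinearMap.adjoint A) < ⊤ ∧ dsc B < ⊤ ∧ CondIII A B := by
  constructor
  · rintro ⟨C, hC⟩
    exact necessity hC
  · rintro ⟨hA, hB, δ, hδ, hiii⟩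
    obtain ⟨a, ha⟩ := exists_of_dsc_lt_top hA
    obtain ⟨d, hd⟩ := exists_of_dsc_lt_top hB
    -- a common index
    have hA2 : ((ContinuousLinearMap.adjoint A) ^ (a + d + 1)).range =
        ((ContinuousLinearMap.adjoint A) ^ (a + d)).range := by
      rw [add_assoc, range_pow_stable ha, range_pow_stable ha]
    have hB2 : (B ^ (a + d + 1)).range = (B ^ (a + d)).range := by
      rw [show a + d + 1 = d + (a + 1) by omega, show a + d = d + a by omega,
        range_pow_stable hd, range_pow_stable hd]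
    obtain ⟨δ1, hδ1, h1⟩ := hdim_ker_sub hA2
    obtain ⟨δ2, hδ2, h2⟩ := hdim_ker_sub hB2
    -- evaluate (iii) at a small real `μ`
    set t : ℝ := min δ (min δ1 δ2) / 2 with ht
    have hm : 0 < min δ (min δ1 δ2) := lt_min hδ (lt_min hδ1 hδ2)
    have ht0 : 0 < t := by rw [ht]; linarith
    have htm : t < min δ (min δ1 δ2) := by rw [ht]; linarith
    have hnt : ‖(t : ℂ)‖ = t := by
      rw [Complex.norm_real, Real.norm_of_nonneg ht0.le]
    have e1 := hiii (t : ℂ) (by rw [hnt]; exact ht0)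
      (by rw [hnt]; exact lt_of_lt_of_le htm (min_le_left _ _))
    have e2 := h1 (t : ℂ) (by rw [hnt]; exact ht0)
      (by rw [hnt]; exact lt_of_lt_of_le htm ((min_le_right _ _).trans (min_le_left _ _)))
    have e3 := h2 (t : ℂ) (by rw [hnt]; exact ht0)
      (by rw [hnt]; exact lt_of_lt_of_le htm ((min_le_right _ _).trans (min_le_right _ _)))
    have hadj : ContinuousLinearMap.adjoint (A - (t : ℂ) • (1 : H →L[ℂ] H)) =
        ContinuousLinearMap.adjoint A - (t : ℂ) • (1 : H →L[ℂ] H) := by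
      rw [map_sub]
      congr 1
      rw [map_smulₛₗ, Complex.conj_ofReal]
      congr 1
      exact ContinuousLinearMap.adjoint_id
    rw [ContinuousLinearMap.orthogonal_range, hadj, e2, e3] at e1
    obtain ⟨U⟩ := exists_isometryEquiv_of_hdim_eq (isClosed_core B (a + d))
      (isClosed_core (ContinuousLinearMap.adjoint A) (a + d)) e1.symm
    exact sufficiency hA2 hB2 U

end Pool.Agent.H26.Drazin
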