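import Mathlib

/-!
# Koszul algebras: the definitions used in the statement for MP_2e24ef_al
-/

open TensorProduct CategoryTheory Opposite

universe u

namespace Pool.Agent.H26.Koszul


section Defs

variable {k : Type u} [Field k] {V : Type u} [AddCommGroup V] [Module k V]

/-- The multiplication map `V ⊗ V → T(V)`, `v ⊗ w ↦ v w`, into the tensor algebra. -/
noncomputable def mulTwo (k : Type u) [Field k] (V : Type u) [AddCommGroup V] [Module k V] :
    V ⊗[k] V →ₗ[k] TensorAlgebra k V :=
  (LinearMap.mul' k (TensorAlgebra k V)).comp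
    (TensorProduct.map (TensorAlgebra.ι k) (TensorAlgebra.ι k))

/-- The relation on `T(V)` which sets every element of `R ⊆ V ⊗ V` equal to zero. -/
def QuadRel (R : Submodule k (V ⊗[k] V)) (a b : TensorAlgebra k V) : Prop :=
  ∃ r ∈ R, a = mulTwo k V r ∧ b = 0

/-- The quadratic algebra `A = T(V)/(R)`. -/
abbrev QuadAlg (R : Submodule k (V ⊗[k] V)) : Type u := RingQuot (QuadRel R)

variable (R : Submodule k (V ⊗[k] V))

/-- The canonical map `V → T(V)/(R) = A`; its image is the degree one part `A_1`. -/
noncomputable def gen : V →ₗ[k] QuadAlg R :=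
  (RingQuot.mkAlgHom k (QuadRel R)).toLinearMap.comp (TensorAlgebra.ι k)

theorem lift_zero_mulTwo (r : V ⊗[k] V) :
    TensorAlgebra.lift k (0 : V →ₗ[k] k) (mulTwo k V r) = 0 := by
  induction r using TensorProduct.induction_on with
  | zero => simp
  | tmul v w =>
    change TensorAlgebra.lift k (0 : V →ₗ[k] k) (TensorAlgebra.ι k v * TensorAlgebra.ι k w) = 0
    rw [map_mul, TensorAlgebra.lift_ι_apply]; simp
  | add x y hx hy => rw [map_add, map_add, hx, hy, add_zero]

/-- The augmentation `A → k`, the algebra map that kills `V`. -/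
noncomputable def aug : QuadAlg R →ₐ[k] k :=
  RingQuot.liftAlgHom k ⟨TensorAlgebra.lift k (0 : V →ₗ[k] k), by
    rintro a b ⟨r, -, rfl, rfl⟩
    rw [lift_zero_mulTwo]
    exact (map_zero (TensorAlgebra.lift k (0 : V →ₗ[k] k))).symm⟩

/-- `A = T(V)/(R)` is Koszul: the trivial module `k` has a linear free resolution
`... → A^(B 2) → A^(B 1) → A^(B 0) = A → k → 0`, that is, the matrices `D i` of the differentials
have all their entries in `A_1`, the image of `D 0` is the kernel of the augmentation and the image
of `D (i+1)` is the kernel of `D i`. Here a matrix `D i : B (i+1) → B i → A` stands for the map of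
left modules `A^(B (i+1)) → A^(B i)` which sends `f` to `∑ c, f c • D i c`. -/
def IsKoszul : Prop :=
  ∃ (B : ℕ → Type) (_ : ∀ i, Fintype (B i)) (_ : Unique (B 0))
    (D : ∀ i, B (i + 1) → B i → QuadAlg R),
    (∀ i c b, D i c b ∈ LinearMap.range (gen R)) ∧
    (∀ f : B 0 → QuadAlg R,
      f ∈ LinearMap.range (Fintype.linearCombination (QuadAlg R) (D 0)) ↔ aug R (f default) = 0) ∧
    ∀ i, LinearMap.range (Fintype.linearCombination (QuadAlg R) (D (i + 1))) =
      LinearMap.ker (Fintype.linearCombination (QuadAlg R) (D i))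

end Defs

section TrivialModule

variable {k : Type u} [Field k] {A : Type u} [Ring A] [Algebra k A] (ε : A →ₐ[k] k)

/-- The trivial left module `k` of an augmented algebra: `a` acts by multiplication by `ε a`. -/
def Triv (_ : A →ₐ[k] k) : Type u := k

instance : AddCommGroup (Triv ε) := inferInstanceAs (AddCommGroup k)
instance : Module k (Triv ε) := inferInstanceAs (Module k k)
instance : Module A (Triv ε) := Module.compHom k ε.toRingHom

end TrivialModule

/-- `b` is the sequence of Betti numbers of `A = T(V)/(R)`: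
`dim_k Ext^i_A(k, k) = b i` for all `i`. -/
def HasBetti {k : Type u} [Field k] {V : Type u} [AddCommGroup V] [Module k V]
    (R : Submodule k (V ⊗[k] V)) (b : ℕ → ℕ) : Prop :=
  ∀ i, Module.rank k (((Ext k (ModuleCat.{u} (QuadAlg R)) i).obj
    (op (ModuleCat.of (QuadAlg R) (Triv (aug R))))).obj
      (ModuleCat.of (QuadAlg R) (Triv (aug R)))) = b i

end Pool.Agent.H26.Koszul
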