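import Pool.Agent.H26.KoszulDefs

/-!
# The counterexamples for MP_2e24ef_al: construction and proof

See the header of `Pool/Agent/Results/MP_2e24ef_al/Q1False.lean` for an outline.
-/

open TensorProduct CategoryTheory Opposite

universe u

set_option linter.unusedSectionVars false

namespace Pool.Agent.H26.Koszul

/-! ## A linear resolution computes `Ext` -/

section Ext

variable {k : Type u} [Field k] {A : Type u} [Ring A] [Algebra k A] (ε : A →ₐ[k] k)

theorem smul_triv (a : A) (x : Triv ε) : a • x = ε a • x := rfl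

instance : IsScalarTower k A (Triv ε) := ⟨fun c a x => by
  rw [smul_triv, smul_triv, map_smul, smul_assoc]⟩

instance : SMulCommClass k A (Triv ε) := ⟨fun c a x => by
  rw [smul_triv, smul_triv, smul_comm]⟩
instance : SMulCommClass A k (Triv ε) := SMulCommClass.symm _ _ _

/-- the unit vector of the trivial module -/
def tone : Triv ε := (1 : k)

variable (B : ℕ → Type) [∀ i, Fintype (B i)] [Unique (B 0)]
  (D : ∀ i, B (i + 1) → B i → A)

/-- the differential -/
noncomputable def dl (i : ℕ) : (B (i + 1) → A) →ₗ[A] (B i → A) :=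
  Fintype.linearCombination A (D i)

/-- the augmentation -/
noncomputable def augm : (B 0 → A) →ₗ[A] Triv ε :=
  (LinearMap.toSpanSingleton A (Triv ε) (tone ε)).comp (LinearMap.proj default)

theorem augm_apply (f : B 0 → A) : augm ε B f = ε (f default) := by
  have : augm ε B f = f default • tone ε := rfl
  rw [this, smul_triv]
  change (ε (f default)) * (1 : k) = ε (f default)
  exact mul_one _

variable (h0 : LinearMap.range (dl B D 0) = LinearMap.ker (augm ε B))
  (hS : ∀ i, LinearMap.range (dl B D (i + 1)) = LinearMap.ker (dl B D i))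

include hS in
theorem dl_comp (i : ℕ) : (dl B D i).comp (dl B D (i + 1)) = 0 := by
  ext1 x
  have : dl B D (i + 1) x ∈ LinearMap.ker (dl B D i) := by
    rw [← hS]; exact ⟨x, rfl⟩
  exact this

include hS in
theorem hcx (i : ℕ) :
    (ModuleCat.ofHom (dl B D (i + 1)) : ModuleCat.of A (B (i + 1 + 1) → A) ⟶ ModuleCat.of A (B (i + 1) → A)) ≫
      (ModuleCat.ofHom (dl B D i) : ModuleCat.of A (B (i + 1) → A) ⟶ ModuleCat.of A (B i → A))
      = 0 := by
  rw [← ModuleCat.ofHom_comp, dl_comp B D hS i]; rfl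

/-- the complex -/
noncomputable def cx : ChainComplex (ModuleCat.{u} A) ℕ :=
  ChainComplex.of (fun i => ModuleCat.of A (B i → A)) (fun i => ModuleCat.ofHom (dl B D i))
    (fun i => hcx B D hS i)

theorem cx_d (n : ℕ) : (cx B D hS).d (n + 1) n = ModuleCat.ofHom (dl B D n) :=
  ChainComplex.of_d (fun i => ModuleCat.of A (B i → A)) (fun i => ModuleCat.ofHom (dl B D i)) n

include h0 in
theorem cx_w0 : (ModuleCat.ofHom (dl B D 0) : ModuleCat.of A (B (0 + 1) → A) ⟶ ModuleCat.of A (B 0 → A)) ≫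
    (ModuleCat.ofHom (augm ε B) : ModuleCat.of A (B 0 → A) ⟶ ModuleCat.of A (Triv ε)) = 0 := by
  rw [← ModuleCat.ofHom_comp]
  have h : (augm ε B).comp (dl B D 0) = 0 := by
    ext1 x
    have : dl B D 0 x ∈ LinearMap.ker (augm ε B) := by
      rw [← h0]; exact ⟨x, rfl⟩
    exact this
  rw [h]; rfl

include h0 in
theorem cx_w : (cx B D hS).d 1 0 ≫
    (ModuleCat.ofHom (augm ε B) : (cx B D hS).X 0 ⟶ ModuleCat.of A (Triv ε)) = 0 := by
  have h1 := cx_d B D hS 0
  have : (cx B D hS).d 1 0 ≫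
    (ModuleCat.ofHom (augm ε B) : (cx B D hS).X 0 ⟶ ModuleCat.of A (Triv ε)) =
    (ModuleCat.ofHom (dl B D 0) : ModuleCat.of A (B (0 + 1) → A) ⟶ ModuleCat.of A (B 0 → A)) ≫
    (ModuleCat.ofHom (augm ε B) : ModuleCat.of A (B 0 → A) ⟶ ModuleCat.of A (Triv ε)) :=
    congrArg (fun z : ModuleCat.of A (B (0 + 1) → A) ⟶ ModuleCat.of A (B 0 → A) => z ≫
      (ModuleCat.ofHom (augm ε B) : ModuleCat.of A (B 0 → A) ⟶ ModuleCat.of A (Triv ε))) h1
  rw [this]
  exact cx_w0 ε B D h0

theorem cx_exactAt (n : ℕ) : (cx B D hS).ExactAt (n + 1) := by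
  rw [HomologicalComplex.exactAt_iff' _ (n + 1 + 1) (n + 1) n (by simp) (by simp)]
  rw [ShortComplex.moduleCat_exact_iff_range_eq_ker]
  have e1 : ((cx B D hS).sc' (n + 1 + 1) (n + 1) n).f = ModuleCat.ofHom (dl B D (n + 1)) :=
    cx_d B D hS (n + 1)
  have e2 : ((cx B D hS).sc' (n + 1 + 1) (n + 1) n).g = ModuleCat.ofHom (dl B D n) :=
    cx_d B D hS n
  rw [e1, e2]
  exact hS n

theorem augm_surj : Function.Surjective (augm ε B) := by
  intro c
  refine ⟨fun _ => algebraMap k A c, ?_⟩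
  rw [augm_apply]
  exact ε.commutes c

/-- the projective resolution -/
noncomputable def pres : ProjectiveResolution (ModuleCat.of A (Triv ε)) where
  complex := cx B D hS
  projective := fun n => by
    change Projective (ModuleCat.of A (B n → A))
    infer_instance
  π := (ChainComplex.toSingle₀Equiv _ _).symm ⟨ModuleCat.ofHom (augm ε B), cx_w ε B D h0 hS⟩
  quasiIso := ⟨fun n => by
    cases n
    · rw [ChainComplex.quasiIsoAt₀_iff, ShortComplex.quasiIso_iff_of_zeros']
      · constructor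
        · rw [ShortComplex.moduleCat_exact_iff_range_eq_ker]
          have e1 : (cx B D hS).d 1 0 = ModuleCat.ofHom (dl B D 0) := cx_d B D hS 0
          have e2 : LinearMap.range ((cx B D hS).d 1 0).hom = LinearMap.range (dl B D 0) :=
            congrArg (fun z : ModuleCat.of A (B (0 + 1) → A) ⟶ ModuleCat.of A (B 0 → A) =>
              LinearMap.range (ModuleCat.Hom.hom z)) e1
          exact e2.trans h0
        · rw [ModuleCat.epi_iff_surjective]
          exact augm_surj ε B
      all_goals rfl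
    · rw [quasiIsoAt_iff_exactAt']
      · apply cx_exactAt
      · apply ChainComplex.exactAt_succ_single_obj⟩


variable (hε : ∀ i c b, ε (D i c b) = 0)

include hε in
theorem comp_dl (n : ℕ) (f : (B n → A) →ₗ[A] Triv ε) : f.comp (dl B D n) = 0 := by
  apply LinearMap.ext
  intro x
  classical
  have h1 : ∀ g : B n → A, (∀ b, ε (g b) = 0) → f g = 0 := by
    intro g hg
    have : g = ∑ b, g b • (Pi.single b (1 : A) : B n → A) := by
      ext b
      simp [Finset.sum_apply, Pi.single_apply]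
    rw [this, map_sum]
    refine Finset.sum_eq_zero fun b _ => ?_
    rw [map_smul, smul_triv, hg, zero_smul]
  change f (dl B D n x) = 0
  rw [dl, Fintype.linearCombination_apply, map_sum]
  refine Finset.sum_eq_zero fun c _ => ?_
  rw [map_smul, h1 _ (hε n c), smul_zero]

/-- the Hom complex -/
noncomputable abbrev hc : CochainComplex (ModuleCat k) ℕ :=
  (pres ε B D h0 hS).complex.linearYonedaObj k (ModuleCat.of A (Triv ε))

include hε in
theorem hc_d (i j : ℕ) : (hc ε B D h0 hS).d i j = 0 := by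
  by_cases h : i + 1 = j
  · subst h
    apply ModuleCat.hom_ext
    apply LinearMap.ext
    intro f
    change (pres ε B D h0 hS).complex.d (i + 1) i ≫ f = 0
    have e1 : (pres ε B D h0 hS).complex.d (i + 1) i = ModuleCat.ofHom (dl B D i) := cx_d B D hS i
    have e2 : (pres ε B D h0 hS).complex.d (i + 1) i ≫ f =
      (ModuleCat.ofHom (dl B D i) : ModuleCat.of A (B (i + 1) → A) ⟶ ModuleCat.of A (B i → A)) ≫ f :=
      congrArg (fun z : ModuleCat.of A (B (i + 1) → A) ⟶ ModuleCat.of A (B i → A) =>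
              z ≫ (f : ModuleCat.of A (B i → A) ⟶ ModuleCat.of A (Triv ε))) e1
    rw [e2]
    apply ModuleCat.hom_ext
    exact comp_dl ε B D hε i (ModuleCat.Hom.hom
      (f : ModuleCat.of A (B i → A) ⟶ ModuleCat.of A (Triv ε)))
  · exact (hc ε B D h0 hS).shape i j h

/-- homology of a complex with zero differentials -/
theorem homology_iso_of_d_zero {C : CochainComplex (ModuleCat.{u} k) ℕ} (h : ∀ i j, C.d i j = 0)
    (n : ℕ) : Nonempty (C.homology n ≅ C.X n) :=
  ⟨(ShortComplex.HomologyData.ofZeros (C.sc n) (h _ _) (h _ _)).left.homologyIso⟩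

/-- evaluating on the basis -/
noncomputable def homEq (n : ℕ) : (ModuleCat.of A (B n → A) ⟶ ModuleCat.of A (Triv ε)) ≃+ (B n → k) :=
  (ModuleCat.homAddEquiv.trans
    ((Pi.basisFun A (B n)).constr k : (B n → Triv ε) ≃ₗ[k] ((B n → A) →ₗ[A] Triv ε)).symm.toAddEquiv)

theorem rank_hom (n : ℕ) :
    Module.rank k ((hc ε B D h0 hS).X n) = Fintype.card (B n) := by
  have hj : ∀ (r : k) (m : (hc ε B D h0 hS).X n),
      (homEq ε B n) (r • m) = r • (homEq ε B n) m := by
    intro r m
    funext b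
    have key : ∀ y : Triv ε, (algebraMap k A r) • y = r • y := fun y => algebraMap_smul A r y
    exact key (ModuleCat.Hom.hom
      (m : ModuleCat.of A (B n → A) ⟶ ModuleCat.of A (Triv ε)) ((Pi.basisFun A (B n)) b))
  have := rank_eq_of_equiv_equiv (M := (hc ε B D h0 hS).X n) (M₁ := B n → k) (id : k → k)
    (homEq ε B n) Function.bijective_id hj
  rw [this, rank_fun']

include h0 hS hε in
theorem rank_ext (n : ℕ) :
    Module.rank k (((Ext k (ModuleCat.{u} A) n).obj (op (ModuleCat.of A (Triv ε)))).obj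
      (ModuleCat.of A (Triv ε))) = Fintype.card (B n) := by
  have i1 := (pres ε B D h0 hS).isoExt (R := k) n (ModuleCat.of A (Triv ε))
  obtain ⟨i2⟩ := homology_iso_of_d_zero (k := k) (hc_d ε B D h0 hS hε) n
  have i3 := (i1 ≪≫ i2).toLinearEquiv
  rw [i3.rank_eq]
  exact rank_hom ε B D h0 hS n

end Ext
/-! ## Quadratic algebras and the kernel lemma -/

section Quad

variable {k : Type u} [Field k] {V : Type u} [AddCommGroup V] [Module k V]

theorem mulTwo_tmul (v w : V) :
    mulTwo k V (v ⊗ₜ w) = TensorAlgebra.ι k v * TensorAlgebra.ι k w := rfl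

variable (R : Submodule k (V ⊗[k] V))

theorem gen_apply (v : V) : gen R v = RingQuot.mkAlgHom k (QuadRel R) (TensorAlgebra.ι k v) := rfl

theorem mk_mulTwo (r : V ⊗[k] V) (hr : r ∈ R) :
    RingQuot.mkAlgHom k (QuadRel R) (mulTwo k V r) = 0 := by
  have := RingQuot.mkAlgHom_rel k (s := QuadRel R) (x := mulTwo k V r) (y := 0) ⟨r, hr, rfl, rfl⟩
  rw [this, map_zero]

theorem aug_gen (v : V) : aug R (gen R v) = 0 := by
  rw [gen_apply, aug, RingQuot.liftAlgHom_mkAlgHom_apply, TensorAlgebra.lift_ι_apply]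
  rfl

/-- the algebra is generated by V -/
theorem quad_induction {C : QuadAlg R → Prop} (h1 : ∀ c : k, C (algebraMap k _ c))
    (hg : ∀ v, C (gen R v)) (hm : ∀ a b, C a → C b → C (a * b)) (ha : ∀ a b, C a → C b → C (a + b))
    (a : QuadAlg R) : C a := by
  obtain ⟨t, rfl⟩ := RingQuot.mkAlgHom_surjective k (QuadRel R) a
  induction t using TensorAlgebra.induction with
  | algebraMap r => rw [AlgHom.commutes]; exact h1 r
  | ι x => exact hg x
  | mul a b ha hb => rw [map_mul]; exact hm _ _ ha hb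
  | add a b hxa hxb => rw [map_add]; exact ha _ _ hxa hxb

end Quad

section Ker

variable {k : Type u} [Field k] {V : Type u} [AddCommGroup V] [Module k V]
  (R : Submodule k (V ⊗[k] V)) {M : Type u} [AddCommGroup M] [Module (QuadAlg R) M]
  [Module k M] [IsScalarTower k (QuadAlg R) M] (φ : V →ₗ[k] M)

theorem smul_comm' (c : k) (a : QuadAlg R) (m : M) : a • (c • m) = c • (a • m) := by
  rw [← algebraMap_smul (QuadAlg R) c m, ← algebraMap_smul (QuadAlg R) c (a • m), ← mul_smul,
    ← mul_smul, Algebra.commutes]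

/-- the pairing of relations with a module -/
noncomputable def psi : (V ⊗[k] V) →ₗ[k] M :=
  TensorProduct.lift (LinearMap.mk₂ k (fun v w => gen R v • φ w)
    (fun a b c => by simp only [map_add, add_smul])
    (fun c a b => by simp only [map_smul, smul_assoc])
    (fun a b c => by simp only [map_add, smul_add])
    (fun c a b => by rw [map_smul, smul_comm']))

theorem psi_tmul (v w : V) : psi R φ (v ⊗ₜ w) = gen R v • φ w := rfl

/-- the operators -/
noncomputable def opv (v : V) : Module.End k (k × M) where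
  toFun p := (0, p.1 • φ v + gen R v • p.2)
  map_add' p q := by
    apply Prod.ext
    · simp
    · change (p.1 + q.1) • φ v + gen R v • (p.2 + q.2) =
        (p.1 • φ v + gen R v • p.2) + (q.1 • φ v + gen R v • q.2)
      rw [add_smul, smul_add]; abel
  map_smul' c p := by
    apply Prod.ext
    · simp
    · change (c * p.1) • φ v + gen R v • (c • p.2) =
        c • (p.1 • φ v + gen R v • p.2)
      rw [mul_smul, smul_add, smul_comm' R c (gen R v) p.2]

/-- the operators, linearly -/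
noncomputable def opl : V →ₗ[k] Module.End k (k × M) where
  toFun := opv R φ
  map_add' v w := by
    apply LinearMap.ext
    intro p
    apply Prod.ext
    · simp [opv]
    · change p.1 • φ (v + w) + gen R (v + w) • p.2 =
        (p.1 • φ v + gen R v • p.2) + (p.1 • φ w + gen R w • p.2)
      rw [map_add, map_add, smul_add, add_smul]
      abel
  map_smul' c v := by
    apply LinearMap.ext
    intro p
    apply Prod.ext
    · simp [opv]
    · change p.1 • φ (c • v) + gen R (c • v) • p.2 =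
        c • (p.1 • φ v + gen R v • p.2)
      rw [map_smul, map_smul, smul_add, smul_assoc, smul_comm c p.1]

theorem opl_apply (v : V) (p : k × M) :
    opl R φ v p = (0, p.1 • φ v + gen R v • p.2) := rfl

theorem opl_two (r : V ⊗[k] V) (p : k × M) :
    TensorAlgebra.lift k (opl R φ) (mulTwo k _ r) p =
      (0, p.1 • psi R φ r + RingQuot.mkAlgHom k (QuadRel R) (mulTwo k _ r) • p.2) := by
  induction r using TensorProduct.induction_on with
  | zero => simp [Prod.zero_eq_mk]
  | tmul v w =>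
    rw [mulTwo_tmul, map_mul, TensorAlgebra.lift_ι_apply, TensorAlgebra.lift_ι_apply, map_mul]
    change opl R φ v (opl R φ w p) = _
    rw [opl_apply, opl_apply]
    apply Prod.ext
    · rfl
    · change (0 : k) • φ v + gen R v • (p.1 • φ w + gen R w • p.2) = _
      rw [zero_smul, zero_add, smul_add, ← gen_apply, ← gen_apply, mul_smul, psi_tmul,
        smul_comm']
  | add x y hx hy =>
    rw [map_add, map_add, LinearMap.add_apply, hx, hy]
    apply Prod.ext
    · simp
    · change (p.1 • psi R φ x + RingQuot.mkAlgHom k (QuadRel R) (mulTwo k _ x) • p.2) +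
        (p.1 • psi R φ y + RingQuot.mkAlgHom k (QuadRel R) (mulTwo k _ y) • p.2) =
        p.1 • psi R φ (x + y) +
          RingQuot.mkAlgHom k (QuadRel R) (mulTwo k _ x + mulTwo k _ y) • p.2
      rw [map_add, map_add, smul_add, add_smul]
      abel

variable (hφ : ∀ r ∈ R, psi R φ r = 0)

/-- the module structure -/
noncomputable def act : QuadAlg R →ₐ[k] Module.End k (k × M) :=
  RingQuot.liftAlgHom k ⟨TensorAlgebra.lift k (opl R φ), by
    rintro a b ⟨r, hr, rfl, rfl⟩
    rw [map_zero (TensorAlgebra.lift k (opl R φ))]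
    apply LinearMap.ext
    intro p
    rw [opl_two, mk_mulTwo R r hr, hφ r hr]
    simp⟩

theorem act_gen (v : V) : act R φ hφ (gen R v) = opl R φ v := by
  rw [gen_apply, act, RingQuot.liftAlgHom_mkAlgHom_apply, TensorAlgebra.lift_ι_apply]

theorem act_zero (a : QuadAlg R) (m : M) :
    act R φ hφ a (0, m) = (0, a • m) := by
  revert m
  refine quad_induction R (C := fun a => ∀ m : M,
    act R φ hφ a (0, m) = (0, a • m)) ?_ ?_ ?_ ?_ a
  · intro c m
    rw [AlgHom.commutes, Module.algebraMap_end_apply, algebraMap_smul]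
    simp
  · intro v m
    rw [act_gen, opl_apply]; simp
  · intro a b ha hb m
    rw [map_mul, Module.End.mul_apply, hb, ha, mul_smul]
  · intro a b ha hb m
    rw [map_add, LinearMap.add_apply, ha, hb, add_smul]; simp

include hφ in
/-- the kernel lemma -/
theorem ker_abs {ι : Type*} (s : Finset ι) (a : ι → QuadAlg R) (v : ι → V)
    (ha : ∑ i ∈ s, a i * gen R (v i) = 0) : ∑ i ∈ s, a i • φ (v i) = 0 := by
  have h1 : ∀ (b : QuadAlg R) (v : V),
      act R φ hφ (b * gen R v) (1, 0) = (0, b • φ v) := by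
    intro b v
    rw [map_mul, Module.End.mul_apply, act_gen, opl_apply, smul_zero, add_zero, one_smul, act_zero]
  have h2 : act R φ hφ (∑ i ∈ s, a i * gen R (v i)) (1, 0) =
      (0, ∑ i ∈ s, a i • φ (v i)) := by
    rw [map_sum, LinearMap.sum_apply, Finset.sum_congr rfl (fun g _ => h1 _ _)]
    apply Prod.ext
    · simp [Prod.fst_sum]
    · simp only [Prod.snd_sum]
  rw [ha, map_zero, LinearMap.zero_apply] at h2
  exact (congrArg Prod.snd h2).symm

end Ker

/-! ## Linear resolutions -/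

section LinRes

variable {A : Type u} [Ring A] (S : Set A)

/-- shorthand -/
noncomputable abbrev lc {κ ι : Type} [Fintype κ] (E : κ → ι → A) : (κ → A) →ₗ[A] (ι → A) :=
  Fintype.linearCombination A E

theorem lc_apply {κ ι : Type} [Fintype κ] (E : κ → ι → A) (f : κ → A) (i : ι) :
    lc E f i = ∑ c, f c * E c i := by
  rw [lc, Fintype.linearCombination_apply, Finset.sum_apply]
  rfl

/-- a submodule `K` of a free module has a linear resolution with Betti numbers `b` -/
def LinRes (b : ℕ → ℕ) {ι : Type} (K : Submodule A (ι → A)) : Prop :=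
  ∃ (B : ℕ → Type) (_ : ∀ i, Fintype (B i)) (E : B 0 → ι → A) (D : ∀ i, B (i + 1) → B i → A),
    (∀ i, Fintype.card (B i) = b i) ∧ (∀ c j, E c j ∈ S) ∧ (∀ i c j, D i c j ∈ S) ∧
    LinearMap.range (lc E) = K ∧
    LinearMap.range (lc (D 0)) = LinearMap.ker (lc E) ∧
    ∀ i, LinearMap.range (lc (D (i + 1))) = LinearMap.ker (lc (D i))

theorem LinRes.zero {ι : Type} : LinRes S (fun _ => 0) (⊥ : Submodule A (ι → A)) := by
  refine ⟨fun _ => Empty, fun _ => inferInstance, fun c => c.elim, fun _ c => c.elim,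
    fun _ => by simp, fun c => c.elim, fun _ c => c.elim, ?_, ?_, ?_⟩
  · rw [eq_bot_iff]
    rintro _ ⟨f, rfl⟩
    have : f = 0 := Subsingleton.elim _ _
    rw [this, map_zero]; exact Submodule.zero_mem _
  · exact Subsingleton.elim _ _
  · intro i; exact Subsingleton.elim _ _

theorem LinRes.cons {b : ℕ → ℕ} {ι κ : Type} [Fintype κ] (E : κ → ι → A)
    (hE : ∀ c j, E c j ∈ S) (h : LinRes S b (LinearMap.ker (lc E))) (b' : ℕ → ℕ)
    (h0 : b' 0 = Fintype.card κ) (h1 : ∀ i, b' (i + 1) = b i)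
    {L : Submodule A (ι → A)} (hL : LinearMap.range (lc E) = L) : LinRes S b' L := by
  obtain ⟨B, fB, E', D, hc, hE', hD, r0, r1, r2⟩ := h
  refine ⟨fun i => match i with | 0 => κ | i + 1 => B i,
    fun i => match i with | 0 => inferInstanceAs (Fintype κ) | i + 1 => fB i, E,
    fun i => match i with | 0 => E' | i + 1 => D i, ?_, hE, ?_, hL, r0, ?_⟩
  · rintro (_ | i)
    · exact h0.symm
    · rw [h1]; exact hc i
  · rintro (_ | i)
    · exact hE'
    · exact hD i
  · rintro (_ | i)
    · exact r1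
    · exact r2 i

/-- block matrices -/
def blk {κ κ' ι ι' : Type} (E : κ → ι → A) (E' : κ' → ι' → A) : κ ⊕ κ' → ι ⊕ ι' → A :=
  Sum.elim (fun c => Sum.elim (E c) 0) (fun c => Sum.elim 0 (E' c))

theorem lc_blk {κ κ' ι ι' : Type} [Fintype κ] [Fintype κ'] (E : κ → ι → A) (E' : κ' → ι' → A)
    (f : κ ⊕ κ' → A) :
    lc (blk E E') f = Sum.elim (lc E (f ∘ Sum.inl)) (lc E' (f ∘ Sum.inr)) := by
  funext i
  rcases i with i | i
  · simp [lc_apply, blk, Fintype.sum_sum_type]
  · simp [lc_apply, blk, Fintype.sum_sum_type]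

theorem mem_range_blk {κ κ' ι ι' : Type} [Fintype κ] [Fintype κ'] (E : κ → ι → A)
    (E' : κ' → ι' → A) (g : ι ⊕ ι' → A) : g ∈ LinearMap.range (lc (blk E E')) ↔
    g ∘ Sum.inl ∈ LinearMap.range (lc E) ∧ g ∘ Sum.inr ∈ LinearMap.range (lc E') := by
  constructor
  · rintro ⟨f, rfl⟩
    rw [lc_blk]
    exact ⟨⟨_, rfl⟩, ⟨_, rfl⟩⟩
  · rintro ⟨⟨f, hf⟩, ⟨f', hf'⟩⟩
    refine ⟨Sum.elim f f', ?_⟩
    rw [lc_blk]
    simp only [Sum.elim_comp_inl, Sum.elim_comp_inr]
    rw [hf, hf']
    exact Sum.elim_comp_inl_inr g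

theorem mem_ker_blk {κ κ' ι ι' : Type} [Fintype κ] [Fintype κ'] (E : κ → ι → A)
    (E' : κ' → ι' → A) (f : κ ⊕ κ' → A) : f ∈ LinearMap.ker (lc (blk E E')) ↔
    f ∘ Sum.inl ∈ LinearMap.ker (lc E) ∧ f ∘ Sum.inr ∈ LinearMap.ker (lc E') := by
  rw [LinearMap.mem_ker, LinearMap.mem_ker, LinearMap.mem_ker, lc_blk]
  constructor
  · intro h
    exact ⟨funext fun i => congrFun h (Sum.inl i), funext fun i => congrFun h (Sum.inr i)⟩
  · rintro ⟨h1, h2⟩
    rw [h1, h2]
    funext i
    rcases i with i | i <;> rfl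

variable {S}

theorem LinRes.sum (hS : (0 : A) ∈ S) {b b' : ℕ → ℕ} {ι ι' : Type} {K : Submodule A (ι → A)}
    {K' : Submodule A (ι' → A)} (h : LinRes S b K) (h' : LinRes S b' K')
    (b'' : ℕ → ℕ) (hb : ∀ i, b'' i = b i + b' i)
    (L : Submodule A (ι ⊕ ι' → A)) (hL : ∀ f, f ∈ L ↔ f ∘ Sum.inl ∈ K ∧ f ∘ Sum.inr ∈ K') :
    LinRes S b'' L := by
  obtain ⟨B, fB, E, D, hc, hE, hD, r0, r1, r2⟩ := h
  obtain ⟨B', fB', E', D', hc', hE', hD', r0', r1', r2'⟩ := h'
  have hblk : ∀ {κ κ' ι ι' : Type} (E : κ → ι → A) (E' : κ' → ι' → A),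
      (∀ c j, E c j ∈ S) → (∀ c j, E' c j ∈ S) → ∀ c j, blk E E' c j ∈ S := by
    intro κ κ' ι ι' E E' h1 h2 c j
    rcases c with c | c <;> rcases j with j | j
    · exact h1 c j
    · exact hS
    · exact hS
    · exact h2 c j
  refine ⟨fun i => B i ⊕ B' i, fun i => inferInstance, blk E E', fun i => blk (D i) (D' i), ?_,
    hblk _ _ hE hE', fun i => hblk _ _ (hD i) (hD' i), ?_, ?_, ?_⟩
  · intro i
    rw [Fintype.card_sum, hc, hc', hb]
  · ext f
    rw [mem_range_blk, hL, r0, r0']
  · ext f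
    rw [mem_range_blk, mem_ker_blk, r1, r1']
  · intro i
    ext f
    rw [mem_range_blk, mem_ker_blk, r2, r2']

/-- a left ideal as a submodule of a free module of rank one -/
def toU (I : Submodule A A) : Submodule A (Unit → A) := I.comap (LinearMap.proj ())

theorem mem_toU (I : Submodule A A) (f : Unit → A) : f ∈ toU I ↔ f () ∈ I := Iff.rfl

theorem LinRes.step (hS : (0 : A) ∈ S) {b : ℕ → ℕ} {I I' : Submodule A A} (w1 w2 : A)
    (h : LinRes S b (toU I)) (hw1 : w1 ∈ S) (hw2 : w2 ∈ S)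
    (z1 : ∀ s ∈ I, s * w1 = 0) (z2 : ∀ s ∈ I, s * w2 = 0)
    (hk : ∀ s ∈ I, ∀ a1 a2, s + (a1 * w1 + a2 * w2) = 0 → s = 0 ∧ a1 ∈ I ∧ a2 ∈ I)
    (hI : ∀ t, t ∈ I' ↔ ∃ s ∈ I, ∃ a1 a2, s + (a1 * w1 + a2 * w2) = t)
    (b' : ℕ → ℕ) (h0 : b' 0 = b 0 + 2) (h1 : ∀ i, b' (i + 1) = b (i + 1) + 2 * b i) :
    LinRes S b' (toU I') := by
  have h' := h
  obtain ⟨B, fB, E, D, hc, hE, hD, r0, r1, r2⟩ := h
  have hker : LinRes S (fun i => b (i + 1)) (LinearMap.ker (lc E)) :=
    ⟨fun i => B (i + 1), fun i => inferInstance, D 0, fun i => D (i + 1), fun i => hc (i + 1),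
      hD 0, fun i => hD (i + 1), r1, r2 0, fun i => r2 (i + 1)⟩
  have hrE : ∀ f : B 0 → A, lc E f () ∈ I := by
    intro f
    have : lc E f ∈ toU I := by rw [← r0]; exact ⟨f, rfl⟩
    exact this
  have hrE' : ∀ s ∈ I, ∃ f : B 0 → A, lc E f () = s := by
    intro s hs
    have : (fun _ => s : Unit → A) ∈ LinearMap.range (lc E) := by rw [r0]; exact hs
    obtain ⟨f, hf⟩ := this
    exact ⟨f, by rw [hf]⟩
  have hsum : LinRes S (fun i => b i + b i)
      ((toU I).comap (LinearMap.funLeft A A (Sum.inl : Unit → Unit ⊕ Unit)) ⊓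
        (toU I).comap (LinearMap.funLeft A A (Sum.inr : Unit → Unit ⊕ Unit))) :=
    LinRes.sum hS h' h' _ (fun _ => rfl) _ (fun f => Iff.rfl)
  let E' : B 0 ⊕ (Unit ⊕ Unit) → Unit → A :=
    Sum.elim E (Sum.elim (fun _ _ => w1) (fun _ _ => w2))
  have hE'a : ∀ f : B 0 ⊕ (Unit ⊕ Unit) → A, lc E' f () = lc E (f ∘ Sum.inl) () +
      (f (Sum.inr (Sum.inl ())) * w1 + f (Sum.inr (Sum.inr ())) * w2) := by
    intro f
    simp [lc_apply, E', Fintype.sum_sum_type]
  refine LinRes.cons S E' ?_ (LinRes.sum hS hker hsum (fun i => b (i + 1) + 2 * b i) ?_ _ ?_) b' ?_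
    ?_ ?_
  · rintro (c | c | c) j
    · exact hE c j
    · exact hw1
    · exact hw2
  · intro i; ring
  · intro f
    rw [LinearMap.mem_ker]
    constructor
    · intro hf
      have h2 := congrFun hf ()
      rw [hE'a] at h2
      obtain ⟨h3, h4, h5⟩ := hk _ (hrE _) _ _ h2
      refine ⟨?_, h4, h5⟩
      rw [LinearMap.mem_ker]
      funext j; exact h3
    · rintro ⟨h3, h4, h5⟩
      funext j
      rw [LinearMap.mem_ker] at h3
      change lc E' f () = 0
      have e4 : f (Sum.inr (Sum.inl ())) * w1 = 0 := z1 _ h4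
      have e5 : f (Sum.inr (Sum.inr ())) * w2 = 0 := z2 _ h5
      rw [hE'a, h3, e4, e5]
      simp
  · simp [hc, h0]
  · intro i; rw [h1]
  · ext f
    rw [mem_toU, hI]
    constructor
    · rintro ⟨g, rfl⟩
      exact ⟨_, hrE (g ∘ Sum.inl), _, _, (hE'a g).symm⟩
    · rintro ⟨s, hs, a1, a2, h2⟩
      obtain ⟨f', hf'⟩ := hrE' s hs
      refine ⟨Sum.elim f' (Sum.elim (fun _ => a1) (fun _ => a2)), ?_⟩
      funext j
      change lc E' _ () = f ()
      rw [hE'a, ← h2, ← hf']
      rfl

end LinRes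

/-! ## The algebra, abstractly -/

/-- the generators -/
inductive G (m : ℕ) : Type
  | X (p : Fin 2 × Fin 2)
  | Y (l : Fin 2)
  | U
  | W (l : Fin m) (c : Fin 2)
  deriving DecidableEq, Fintype

/-- the level of a generator -/
def lvl {m : ℕ} : G m → ℕ
  | G.W l _ => l.val + 1
  | _ => 0

/-- splitting the generators -/
def eqG (m : ℕ) : G m ≃ (Fin 2 × Fin 2) ⊕ (Fin 2 ⊕ (Unit ⊕ (Fin m × Fin 2))) where
  toFun g := match g with
    | G.X p => Sum.inl p
    | G.Y l => Sum.inr (Sum.inl l)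
    | G.U => Sum.inr (Sum.inr (Sum.inl ()))
    | G.W l c => Sum.inr (Sum.inr (Sum.inr (l, c)))
  invFun z := match z with
    | Sum.inl p => G.X p
    | Sum.inr (Sum.inl l) => G.Y l
    | Sum.inr (Sum.inr (Sum.inl ())) => G.U
    | Sum.inr (Sum.inr (Sum.inr (l, c))) => G.W l c
  left_inv g := by cases g <;> rfl
  right_inv z := by rcases z with p | l | ⟨⟩ | ⟨l, c⟩ <;> rfl

theorem sumG {m : ℕ} {M : Type*} [AddCommMonoid M] (F : G m → M) :
    ∑ g, F g = ∑ p, F (G.X p) +
      (∑ l, F (G.Y l) + (F G.U + ∑ q : Fin m × Fin 2, F (G.W q.1 q.2))) := by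
  rw [← (eqG m).symm.sum_comp, Fintype.sum_sum_type, Fintype.sum_sum_type, Fintype.sum_sum_type]
  simp [eqG]

section Abs

variable {A : Type u} [Ring A] {m : ℕ} (x : G m → A)

/-- left ideal generated by the `X`'s -/
def AX : Submodule A A := Submodule.span A (Set.range fun p => x (G.X p))

/-- left ideal generated by the `X`'s and `U` -/
def AXU : Submodule A A := Submodule.span A (Set.range (fun p => x (G.X p)) ∪ {x G.U})

/-- left ideal generated by generators of level at most `l` -/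
def IL (l : ℕ) : Submodule A A := Submodule.span A {s | ∃ g : G m, lvl g ≤ l ∧ x g = s}

/-- the matrix of the second differential -/
def SS : (Fin 2 × Fin 2) ⊕ (Fin 2 × Fin 2) → (Fin 2 × Fin 2) → A
  | Sum.inl p => Pi.single p (x G.U)
  | Sum.inr (i, j) => Pi.single (0, i) (x (G.X (1, j))) - Pi.single (i, j) (x (G.Y 1))

/-- the properties of the algebra we use -/
structure Good : Prop where
  rxy : ∀ p l, x (G.X p) * x (G.Y l) = 0
  rux : ∀ p, x G.U * x (G.X p) = 0
  ruy : x G.U * x (G.Y 0) = 0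
  rxx : ∀ i j, x (G.X (1, j)) * x (G.X (0, i)) = x (G.Y 1) * x (G.X (i, j))
  rgw : ∀ g l c, lvl g ≤ l.val → x g * x (G.W l c) = 0
  kerU : ∀ a : G m → A, ∑ g, a g * x g = 0 → a G.U = 0
  kerY1 : ∀ a : G m → A, ∑ g, a g * x g = 0 → a (G.Y 1) ∈ AX x
  kerY0 : ∀ a : G m → A, ∑ g, a g * x g = 0 → a (G.Y 0) ∈ AXU x
  kerW : ∀ a : G m → A, ∑ g, a g * x g = 0 → ∀ l c, a (G.W l c) ∈ IL x l.val
  kerX : ∀ a : G m → A, ∑ g, a g * x g = 0 → (fun p => a (G.X p)) ∈ LinearMap.range (lc (SS x))

variable {x} (h : Good x)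

/-- annihilation from a left ideal -/
theorem span_mul_zero (s : Set A) (w : A) (h : ∀ t ∈ s, t * w = 0) :
    ∀ a ∈ Submodule.span A s, a * w = 0 := by
  intro a ha
  induction ha using Submodule.span_induction with
  | mem t ht => exact h t ht
  | zero => exact zero_mul _
  | add a b _ _ h1 h2 => rw [add_mul, h1, h2, add_zero]
  | smul r a _ h1 => rw [smul_eq_mul, mul_assoc, h1, mul_zero]

include h in
theorem AX_mul (a : A) (ha : a ∈ AX x) (l : Fin 2) : a * x (G.Y l) = 0 :=
  span_mul_zero _ _ (by rintro _ ⟨p, rfl⟩; exact h.rxy p l) a ha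

include h in
theorem AXU_mul (a : A) (ha : a ∈ AXU x) : a * x (G.Y 0) = 0 :=
  span_mul_zero _ _ (by
    rintro _ (⟨p, rfl⟩ | rfl)
    · exact h.rxy p 0
    · exact h.ruy) a ha

include h in
theorem IL_mul (l : Fin m) (c : Fin 2) (a : A) (ha : a ∈ IL x l.val) :
    a * x (G.W l c) = 0 :=
  span_mul_zero _ _ (by rintro _ ⟨g, hg, rfl⟩; exact h.rgw g l c hg) a ha

/-- the coefficient vector -/
def coef (cX : Fin 2 × Fin 2 → A) (u y1 y0 : A) : G m → A
  | G.X p => cX p
  | G.Y l => if l = 0 then y0 else y1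
  | G.U => u
  | G.W _ _ => 0

theorem sum_coef (cX : Fin 2 × Fin 2 → A) (u y1 y0 : A) :
    ∑ g, coef cX u y1 y0 g * x g =
      (∑ p, cX p * x (G.X p) + u * x G.U) + (y1 * x (G.Y 1) + y0 * x (G.Y 0)) := by
  rw [sumG]
  simp only [coef, zero_mul, Finset.sum_const_zero, add_zero, Fin.sum_univ_two]
  simp only [Fin.isValue, ↓reduceIte, one_ne_zero]
  abel

include h in
theorem base_ker (cX : Fin 2 × Fin 2 → A) (u y1 y0 : A)
    (h' : (∑ p, cX p * x (G.X p) + u * x G.U) + (y1 * x (G.Y 1) + y0 * x (G.Y 0)) = 0) :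
    u = 0 ∧ y1 ∈ AX x ∧ y0 ∈ AXU x ∧ cX ∈ LinearMap.range (lc (SS x)) := by
  rw [← sum_coef] at h'
  exact ⟨h.kerU _ h', h.kerY1 _ h', h.kerY0 _ h', h.kerX _ h'⟩

variable (x) in
/-- the `X` part of the first differential -/
def EX : Fin 2 × Fin 2 → Unit → A := fun p _ => x (G.X p)

include h in
theorem SS_le : LinearMap.range (lc (SS x)) ≤ LinearMap.ker (lc (EX x)) := by
  rw [lc, Fintype.range_linearCombination, Submodule.span_le]
  rintro _ ⟨c, rfl⟩
  change lc (EX x) (SS x c) = 0
  funext j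
  rw [lc_apply]
  change ∑ p, SS x c p * x (G.X p) = 0
  rcases c with p | ⟨i, j⟩
  · rw [SS, Finset.sum_eq_single p]
    · rw [Pi.single_eq_same, h.rux]
    · intro q _ hq; rw [Pi.single_eq_of_ne hq, zero_mul]
    · intro h; exact absurd (Finset.mem_univ _) h
  · simp only [SS, Pi.sub_apply, sub_mul, Finset.sum_sub_distrib]
    rw [Finset.sum_eq_single (0, i), Finset.sum_eq_single (i, j)]
    · rw [Pi.single_eq_same, Pi.single_eq_same, h.rxx, sub_self]
    · intro q _ hq; rw [Pi.single_eq_of_ne hq, zero_mul]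
    · intro h; exact absurd (Finset.mem_univ _) h
    · intro q _ hq; rw [Pi.single_eq_of_ne hq, zero_mul]
    · intro h; exact absurd (Finset.mem_univ _) h

include h in
theorem ker_EX : LinearMap.ker (lc (EX x)) = LinearMap.range (lc (SS x)) := by
  refine le_antisymm ?_ (SS_le h)
  intro f hf
  have h1 := congrFun (show lc (EX x) f = 0 from hf) ()
  rw [lc_apply] at h1
  have h2 : (∑ p, f p * x (G.X p) + 0 * x G.U) + (0 * x (G.Y 1) + 0 * x (G.Y 0)) = 0 := by
    rw [zero_mul, zero_mul, zero_mul, add_zero, add_zero, add_zero]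
    exact h1
  exact (base_ker h _ _ _ _ h2).2.2.2

theorem SS_one (f : (Fin 2 × Fin 2) ⊕ (Fin 2 × Fin 2) → A) (j : Fin 2) :
    lc (SS x) f (1, j) =
      f (Sum.inl (1, j)) * x G.U - f (Sum.inr (1, j)) * x (G.Y 1) := by
  rw [lc_apply, Fintype.sum_sum_type]
  simp only [SS, Pi.sub_apply, Pi.single_apply, Prod.mk.injEq, Fintype.sum_prod_type,
    Fin.sum_univ_two]
  fin_cases j <;> simp [sub_eq_add_neg]

theorem SS_zero (f : (Fin 2 × Fin 2) ⊕ (Fin 2 × Fin 2) → A) (i : Fin 2) :
    lc (SS x) f (0, i) =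
      f (Sum.inl (0, i)) * x G.U + (f (Sum.inr (i, 0)) * x (G.X (1, 0)) +
        f (Sum.inr (i, 1)) * x (G.X (1, 1))) - f (Sum.inr (0, i)) * x (G.Y 1) := by
  rw [lc_apply, Fintype.sum_sum_type]
  simp only [SS, Pi.sub_apply, Pi.single_apply, Prod.mk.injEq, Fintype.sum_prod_type,
    Fin.sum_univ_two]
  fin_cases i <;> simp <;> noncomm_ring

include h in
theorem inj_SS : LinearMap.ker (lc (SS x)) = ⊥ := by
  rw [eq_bot_iff]
  intro f hf
  replace hf : lc (SS x) f = 0 := hf
  -- the equations at `(1, j)`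
  have h1 : ∀ j, f (Sum.inl (1, j)) = 0 ∧ f (Sum.inr (1, j)) ∈ AX x := by
    intro j
    have h3 := congrFun hf (1, j)
    rw [SS_one, Pi.zero_apply] at h3
    have h2 : (∑ p : Fin 2 × Fin 2, (0 : A) * x (G.X p) +
        f (Sum.inl (1, j)) * x G.U) +
        ((-f (Sum.inr (1, j))) * x (G.Y 1) + 0 * x (G.Y 0)) = 0 := by
      simp only [zero_mul, Finset.sum_const_zero, zero_add, add_zero, neg_mul]
      rw [← sub_eq_add_neg]; exact h3
    obtain ⟨e1, e2, -, -⟩ := base_ker h (fun _ => 0) _ _ _ h2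
    exact ⟨e1, by simpa using (AX x).neg_mem e2⟩
  -- the equations at `(0, i)`
  have h0 : ∀ i, f (Sum.inl (0, i)) = 0 ∧ f (Sum.inr (0, i)) ∈ AX x ∧
      (fun p : Fin 2 × Fin 2 => if p.1 = 1 then f (Sum.inr (i, p.2)) else 0) ∈
        LinearMap.range (lc (SS x)) := by
    intro i
    have h3 := congrFun hf (0, i)
    rw [SS_zero, Pi.zero_apply] at h3
    have h2 : (∑ p : Fin 2 × Fin 2, (if p.1 = 1 then f (Sum.inr (i, p.2)) else 0) *
        x (G.X p) + f (Sum.inl (0, i)) * x G.U) +
        ((-f (Sum.inr (0, i))) * x (G.Y 1) + 0 * x (G.Y 0)) = 0 := by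
      rw [Fintype.sum_prod_type]
      simp only [Fin.sum_univ_two, zero_mul, add_zero, neg_mul]
      simp only [Fin.isValue, zero_ne_one, ↓reduceIte, zero_mul, add_zero, zero_add]
      rw [← h3]
      abel
    obtain ⟨e1, e2, -, e3⟩ := base_ker h _ _ _ _ h2
    exact ⟨e1, by simpa using (AX x).neg_mem e2, e3⟩
  have hX : ∀ i j, f (Sum.inr (i, j)) ∈ AX x := by
    intro i j
    fin_cases i
    · exact (h0 j).2.1
    · exact (h1 j).2
  have hz : ∀ i j, f (Sum.inr (i, j)) = 0 := by
    intro i j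
    obtain ⟨g, hg⟩ := (h0 i).2.2
    have h3 := congrFun hg (1, j)
    rw [SS_one] at h3
    simp only [if_true] at h3
    obtain ⟨c, hc⟩ := (Submodule.mem_span_range_iff_exists_fun A).1 (hX i j)
    have h2 : (∑ p : Fin 2 × Fin 2, (- c p) * x (G.X p) + g (Sum.inl (1, j)) * x G.U) +
        ((-g (Sum.inr (1, j))) * x (G.Y 1) + 0 * x (G.Y 0)) = 0 := by
      simp only [neg_mul, Finset.sum_neg_distrib, zero_mul, add_zero]
      have hc' : ∑ p, c p * x (G.X p) = f (Sum.inr (i, j)) := hc
      rw [hc', ← h3]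
      abel
    obtain ⟨e1, e2, -, -⟩ := base_ker h _ _ _ _ h2
    have e2' : g (Sum.inr (1, j)) ∈ AX x := by simpa using (AX x).neg_mem e2
    rw [← h3, e1, AX_mul h _ e2' 1, zero_mul, sub_zero]
  rw [Submodule.mem_bot]
  funext z
  rcases z with ⟨i, j⟩ | ⟨i, j⟩
  · fin_cases i
    · exact (h0 j).1
    · exact (h1 j).1
  · exact hz i j

variable {S : Set A} (hx : ∀ g, x g ∈ S) (hsub : ∀ a ∈ S, ∀ b ∈ S, a - b ∈ S)

include hx hsub in
theorem S_zero : (0 : A) ∈ S := by
  have := hsub _ (hx G.U) _ (hx G.U)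
  rwa [sub_self] at this

include hx hsub in
theorem S_SS (c : (Fin 2 × Fin 2) ⊕ (Fin 2 × Fin 2)) (p : Fin 2 × Fin 2) : SS x c p ∈ S := by
  have h1 : ∀ (p q : Fin 2 × Fin 2) (g : G m),
      (Pi.single p (x g) : Fin 2 × Fin 2 → A) q ∈ S := by
    intro p q g
    rw [Pi.single_apply]
    split_ifs
    · exact hx g
    · exact S_zero hx hsub
  rcases c with q | ⟨i, j⟩
  · exact h1 _ _ _
  · exact hsub _ (h1 _ _ _) _ (h1 _ _ _)

/-- sequences with three entries -/
def seq3 (a b c : ℕ) : ℕ → ℕ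
  | 0 => a
  | 1 => b
  | 2 => c
  | _ => 0

include h hx hsub

theorem res_SS : LinRes S (seq3 8 0 0) (LinearMap.range (lc (SS x))) := by
  refine LinRes.cons S (b := fun _ => 0) (SS x) (S_SS hx hsub) ?_ _ rfl ?_ rfl
  · rw [inj_SS h]; exact LinRes.zero _
  · rintro (_ | _ | i) <;> rfl

theorem res_AX : LinRes S (seq3 4 8 0) (toU (AX x)) := by
  refine LinRes.cons S (b := seq3 8 0 0) (EX x) (fun c _ => hx _) ?_ _ rfl ?_ ?_
  · rw [ker_EX h]; exact res_SS h hx hsub
  · rintro (_ | _ | _ | i) <;> rfl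
  · ext f
    rw [mem_toU, AX, Submodule.mem_span_range_iff_exists_fun]
    constructor
    · rintro ⟨g, rfl⟩
      exact ⟨g, (lc_apply (EX x) g ()).symm⟩
    · rintro ⟨g, hg⟩
      refine ⟨g, ?_⟩
      funext j
      rw [lc_apply]
      exact hg

omit h hx hsub in
variable (x) in
/-- the differential for `AXU` -/
def EXU : (Fin 2 × Fin 2) ⊕ Unit → Unit → A := Sum.elim (EX x) (fun _ _ => x G.U)

omit h hx hsub in
theorem EXU_apply (f : (Fin 2 × Fin 2) ⊕ Unit → A) :
    lc (EXU x) f () = ∑ p, f (Sum.inl p) * x (G.X p) + f (Sum.inr ()) * x G.U := by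
  rw [lc_apply, Fintype.sum_sum_type]
  simp [EXU, EX]

omit hx hsub in
theorem ker_EXU (f : (Fin 2 × Fin 2) ⊕ Unit → A) : f ∈ LinearMap.ker (lc (EXU x)) ↔
    f ∘ Sum.inl ∈ LinearMap.range (lc (SS x)) ∧
      f ∘ Sum.inr ∈ (⊥ : Submodule A (Unit → A)) := by
  constructor
  · intro h0
    have h1 := congrFun (show lc (EXU x) f = 0 from h0) ()
    rw [EXU_apply] at h1
    have h2 : (∑ p, f (Sum.inl p) * x (G.X p) + f (Sum.inr ()) * x G.U) +
        (0 * x (G.Y 1) + 0 * x (G.Y 0)) = 0 := by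
      rw [zero_mul, zero_mul, add_zero, add_zero]
      exact h1
    obtain ⟨e1, -, -, e2⟩ := base_ker h _ _ _ _ h2
    refine ⟨e2, ?_⟩
    rw [Submodule.mem_bot]
    funext j
    exact e1
  · rintro ⟨h1, h2⟩
    rw [← ker_EX h] at h1
    have h3 := congrFun (show lc (EX x) (f ∘ Sum.inl) = 0 from h1) ()
    rw [lc_apply] at h3
    rw [Submodule.mem_bot] at h2
    have h4 : f (Sum.inr ()) = 0 := congrFun h2 ()
    change lc (EXU x) f = 0
    funext j
    change lc (EXU x) f () = 0
    rw [EXU_apply, h4, zero_mul, add_zero]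
    exact h3

theorem res_kerEXU : LinRes S (seq3 8 0 0) (LinearMap.ker (lc (EXU x))) :=
  LinRes.sum (S_zero hx hsub) (res_SS h hx hsub) (LinRes.zero _) (seq3 8 0 0) (fun _ => rfl) _
    (ker_EXU h)

omit h hx hsub in
theorem range_EXU : LinearMap.range (lc (EXU x)) = toU (AXU x) := by
  ext f
  rw [mem_toU, AXU, Submodule.span_union, Submodule.mem_sup]
  constructor
  · rintro ⟨g, rfl⟩
    refine ⟨_, (Submodule.mem_span_range_iff_exists_fun A).2 ⟨fun p => g (Sum.inl p), rfl⟩,
      _, Submodule.mem_span_singleton.2 ⟨g (Sum.inr ()), rfl⟩, ?_⟩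
    rw [EXU_apply]
    rfl
  · rintro ⟨y, hy, z, hz, h⟩
    obtain ⟨c, hc⟩ := (Submodule.mem_span_range_iff_exists_fun A).1 hy
    obtain ⟨a, ha⟩ := Submodule.mem_span_singleton.1 hz
    refine ⟨Sum.elim c (fun _ => a), ?_⟩
    funext j
    change lc (EXU x) _ () = f ()
    rw [EXU_apply, ← h, ← hc, ← ha]
    rfl

theorem res_AXU : LinRes S (seq3 5 8 0) (toU (AXU x)) := by
  refine LinRes.cons S (EXU x) ?_ (res_kerEXU h hx hsub) _ rfl ?_ range_EXU
  · rintro (c | c) j
    · exact hx _
    · exact hx _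
  · rintro (_ | _ | _ | i) <;> rfl

omit h hx hsub in
variable (x) in
/-- the first differential -/
def E0 : ((Fin 2 × Fin 2) ⊕ Unit) ⊕ (Unit ⊕ Unit) → Unit → A :=
  Sum.elim (EXU x) (Sum.elim (fun _ _ => x (G.Y 1)) (fun _ _ => x (G.Y 0)))

omit h hx hsub in
theorem E0_apply (f : ((Fin 2 × Fin 2) ⊕ Unit) ⊕ (Unit ⊕ Unit) → A) :
    lc (E0 x) f () = (∑ p, f (Sum.inl (Sum.inl p)) * x (G.X p) +
      f (Sum.inl (Sum.inr ())) * x G.U) + (f (Sum.inr (Sum.inl ())) * x (G.Y 1) +
        f (Sum.inr (Sum.inr ())) * x (G.Y 0)) := by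
  rw [lc_apply, Fintype.sum_sum_type, Fintype.sum_sum_type, Fintype.sum_sum_type]
  simp [E0, EXU, EX]

theorem res_I0 : LinRes S (seq3 7 17 16) (toU (IL x 0)) := by
  have hyy : LinRes S (seq3 9 16 0)
      ((toU (AX x)).comap (LinearMap.funLeft A A (Sum.inl : Unit → Unit ⊕ Unit)) ⊓
        (toU (AXU x)).comap (LinearMap.funLeft A A (Sum.inr : Unit → Unit ⊕ Unit))) :=
    LinRes.sum (S_zero hx hsub) (res_AX h hx hsub) (res_AXU h hx hsub) _
      (by rintro (_ | _ | _ | i) <;> rfl) _ (fun f => Iff.rfl)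
  refine LinRes.cons S (E0 x) ?_ (LinRes.sum (S_zero hx hsub) (res_kerEXU h hx hsub) hyy
    (seq3 17 16 0) ?_ _ ?_) _ rfl ?_ ?_
  · rintro ((c | c) | (c | c)) j
    · exact hx _
    · exact hx _
    · exact hx _
    · exact hx _
  · rintro (_ | _ | _ | i) <;> rfl
  · intro f
    constructor
    · intro h0
      have h1 := congrFun (show lc (E0 x) f = 0 from h0) ()
      rw [E0_apply] at h1
      obtain ⟨e1, e2, e3, e4⟩ := base_ker h _ _ _ _ h1
      refine ⟨(ker_EXU h _).2 ⟨e4, ?_⟩, e2, e3⟩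
      rw [Submodule.mem_bot]
      funext j
      exact e1
    · rintro ⟨h1, h2, h3⟩
      have h4 := congrFun (show lc (EXU x) (f ∘ Sum.inl) = 0 from h1) ()
      rw [EXU_apply] at h4
      have h5 : f (Sum.inr (Sum.inl ())) * x (G.Y 1) = 0 := AX_mul h _ h2 1
      have h6 : f (Sum.inr (Sum.inr ())) * x (G.Y 0) = 0 := AXU_mul h _ h3
      change lc (E0 x) f = 0
      funext j
      change lc (E0 x) f () = 0
      rw [E0_apply, h5, h6, add_zero, add_zero]
      exact h4
  · rintro (_ | _ | _ | i) <;> rfl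
  · ext f
    rw [mem_toU]
    constructor
    · rintro ⟨g, rfl⟩
      rw [E0_apply]
      have hm : ∀ (a : A) (g : G m), lvl g ≤ 0 → a * x g ∈ IL x 0 := fun a g hg =>
        (IL x 0).smul_mem a (Submodule.subset_span ⟨g, hg, rfl⟩)
      refine Submodule.add_mem _ (Submodule.add_mem _ (Submodule.sum_mem _ fun p _ => ?_) ?_)
        (Submodule.add_mem _ ?_ ?_)
      · exact hm _ _ le_rfl
      · exact hm _ _ le_rfl
      · exact hm _ _ le_rfl
      · exact hm _ _ le_rfl
    · intro hf
      have : IL x 0 ≤ (LinearMap.range (lc (E0 x))).map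
          (LinearMap.proj () : (Unit → A) →ₗ[A] A) := by
        rw [IL, Submodule.span_le]
        rintro _ ⟨g, hg, rfl⟩
        match g with
        | G.X p =>
          refine ⟨_, ⟨Pi.single (Sum.inl (Sum.inl p)) 1, rfl⟩, ?_⟩
          rw [lc, Fintype.linearCombination_apply_single, one_smul]; rfl
        | G.Y 0 =>
          refine ⟨_, ⟨Pi.single (Sum.inr (Sum.inr ())) 1, rfl⟩, ?_⟩
          rw [lc, Fintype.linearCombination_apply_single, one_smul]; rfl
        | G.Y 1 =>
          refine ⟨_, ⟨Pi.single (Sum.inr (Sum.inl ())) 1, rfl⟩, ?_⟩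
          rw [lc, Fintype.linearCombination_apply_single, one_smul]; rfl
        | G.U =>
          refine ⟨_, ⟨Pi.single (Sum.inl (Sum.inr ())) 1, rfl⟩, ?_⟩
          rw [lc, Fintype.linearCombination_apply_single, one_smul]; rfl
        | G.W l c => exact absurd hg (Nat.not_succ_le_zero _)
      obtain ⟨g, hg, hg'⟩ := this hf
      have e : f = g := funext fun j => hg'.symm
      rw [e]
      exact hg

omit h hx hsub in
theorem IL_succ (l : Fin m) : IL x (l.val + 1) =
    IL x l.val ⊔ (Submodule.span A {x (G.W l 0)} ⊔ Submodule.span A {x (G.W l 1)}) := by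
  apply le_antisymm
  · rw [IL, Submodule.span_le]
    rintro _ ⟨g, hg, rfl⟩
    by_cases h1 : lvl g ≤ l.val
    · exact Submodule.mem_sup_left (Submodule.subset_span ⟨g, h1, rfl⟩)
    · have h2 : lvl g = l.val + 1 := by omega
      refine Submodule.mem_sup_right ?_
      match g with
      | G.X p => exact absurd (Nat.zero_le _) h1
      | G.Y p => exact absurd (Nat.zero_le _) h1
      | G.U => exact absurd (Nat.zero_le _) h1
      | G.W l' c =>
        have h3 : l' = l := Fin.ext (Nat.succ.inj h2)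
        subst h3
        fin_cases c
        · exact Submodule.mem_sup_left (Submodule.subset_span rfl)
        · exact Submodule.mem_sup_right (Submodule.subset_span rfl)
  · refine sup_le ?_ (sup_le ?_ ?_)
    · refine Submodule.span_mono ?_
      rintro _ ⟨g, hg, rfl⟩
      exact ⟨g, by omega, rfl⟩
    · rw [Submodule.span_le]
      rintro _ rfl
      exact Submodule.subset_span ⟨_, le_rfl, rfl⟩
    · rw [Submodule.span_le]
      rintro _ rfl
      exact Submodule.subset_span ⟨_, le_rfl, rfl⟩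

omit h hx hsub in
theorem IL_repr (l : ℕ) (s : A) (hs : s ∈ IL x l) :
    ∃ f : G m → A, (∀ g, l < lvl g → f g = 0) ∧ ∑ g, f g * x g = s := by
  induction hs using Submodule.span_induction with
  | mem t ht =>
    obtain ⟨g, hg, rfl⟩ := ht
    refine ⟨Pi.single g 1, fun g' hg' => ?_, ?_⟩
    · rw [Pi.single_eq_of_ne]
      rintro rfl
      omega
    · rw [Finset.sum_eq_single g]
      · simp
      · intro b _ hb; rw [Pi.single_eq_of_ne hb, zero_mul]
      · intro h; exact absurd (Finset.mem_univ _) h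
  | zero => exact ⟨0, fun _ _ => rfl, by simp⟩
  | add a b _ _ h1 h2 =>
    obtain ⟨f, hf, rfl⟩ := h1
    obtain ⟨g, hg, rfl⟩ := h2
    refine ⟨f + g, fun i hi => by rw [Pi.add_apply, hf i hi, hg i hi, add_zero], ?_⟩
    simp [add_mul, Finset.sum_add_distrib]
  | smul r a _ h1 =>
    obtain ⟨f, hf, rfl⟩ := h1
    refine ⟨fun g => r * f g, fun i hi => by change r * f i = 0; rw [hf i hi, mul_zero], ?_⟩
    simp [Finset.mul_sum, mul_assoc]

omit hx hsub in
theorem W_indep (l : Fin m) (s : A) (hs : s ∈ IL x l.val) (a1 a2 : A)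
    (h0 : s + (a1 * x (G.W l 0) + a2 * x (G.W l 1)) = 0) :
    s = 0 ∧ a1 ∈ IL x l.val ∧ a2 ∈ IL x l.val := by
  obtain ⟨f, hf, hfs⟩ := IL_repr _ _ hs
  have h1 : ∑ g, (f g + ((if g = G.W l 0 then a1 else 0) + (if g = G.W l 1 then a2 else 0))) *
      x g = 0 := by
    refine Eq.trans ?_ h0
    rw [← hfs]
    simp [add_mul, Finset.sum_add_distrib]
  have e1 := h.kerW _ h1 l 0
  have e2 := h.kerW _ h1 l 1
  have hne : ∀ c : Fin 2, f (G.W l c) = 0 := fun c => hf _ (Nat.lt_succ_self _)
  have e1' : a1 ∈ IL x l.val := by simpa [hne] using e1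
  have e2' : a2 ∈ IL x l.val := by simpa [hne] using e2
  refine ⟨?_, e1', e2'⟩
  rw [IL_mul h l 0 _ e1', IL_mul h l 1 _ e2', add_zero, add_zero] at h0
  exact h0

omit h hx hsub in
/-- the Betti numbers (shifted) -/
def bet : ℕ → ℕ → ℕ
  | 0, i => seq3 7 17 16 i
  | m + 1, 0 => bet m 0 + 2
  | m + 1, i + 1 => bet m (i + 1) + 2 * bet m i

theorem res_IL (l : ℕ) (hl : l ≤ m) : LinRes S (bet l) (toU (IL x l)) := by
  induction l with
  | zero =>
    have : bet 0 = seq3 7 17 16 := by funext i; rw [bet]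
    rw [this]; exact res_I0 h hx hsub
  | succ l ih =>
    have hl' : l < m := hl
    refine LinRes.step (S_zero hx hsub) (x (G.W ⟨l, hl'⟩ 0)) (x (G.W ⟨l, hl'⟩ 1)) (ih hl'.le)
      (hx _) (hx _) (IL_mul h ⟨l, hl'⟩ 0) (IL_mul h ⟨l, hl'⟩ 1)
      (W_indep h ⟨l, hl'⟩) ?_ _ (by rw [bet]) (fun i => by rw [bet])
    intro t
    have := IL_succ (x := x) ⟨l, hl'⟩
    simp only at this
    rw [this, Submodule.mem_sup]
    constructor
    · rintro ⟨s, hs, z, hz, rfl⟩
      obtain ⟨z1, hz1, z2, hz2, rfl⟩ := Submodule.mem_sup.1 hz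
      obtain ⟨a1, rfl⟩ := Submodule.mem_span_singleton.1 hz1
      obtain ⟨a2, rfl⟩ := Submodule.mem_span_singleton.1 hz2
      exact ⟨s, hs, a1, a2, rfl⟩
    · rintro ⟨s, hs, a1, a2, rfl⟩
      exact ⟨s, hs, _, Submodule.mem_sup.2 ⟨_, Submodule.mem_span_singleton.2 ⟨a1, rfl⟩, _,
        Submodule.mem_span_singleton.2 ⟨a2, rfl⟩, rfl⟩, rfl⟩

end Abs

/-! ## The algebra -/

section Rel

variable (k : Type u) [Field k] (m : ℕ)

/-- the basis vectors -/
def e (g : G m) : G m → k := Pi.single g 1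

/-- the relations -/
inductive Rels : ((G m → k) ⊗[k] (G m → k)) → Prop
  | xy (p : Fin 2 × Fin 2) (l : Fin 2) : Rels (e k m (G.X p) ⊗ₜ e k m (G.Y l))
  | ux (p : Fin 2 × Fin 2) : Rels (e k m G.U ⊗ₜ e k m (G.X p))
  | uy : Rels (e k m G.U ⊗ₜ e k m (G.Y 0))
  | xx (i j : Fin 2) : Rels (e k m (G.X (1, j)) ⊗ₜ e k m (G.X (0, i)) -
      e k m (G.Y 1) ⊗ₜ e k m (G.X (i, j)))
  | gw (g : G m) (l : Fin m) (c : Fin 2) (h : lvl g ≤ l.val) :
      Rels (e k m g ⊗ₜ e k m (G.W l c))

/-- the space of relations -/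
def RR : Submodule k ((G m → k) ⊗[k] (G m → k)) := Submodule.span k {r | Rels k m r}

/-- the algebra -/
abbrev AA : Type u := QuadAlg (RR k m)

/-- the generators of the algebra -/
noncomputable def x (g : G m) : AA k m := gen (RR k m) (e k m g)

variable {k m}

section phi

variable {M : Type u} [AddCommGroup M] [Module (AA k m) M]
  [Module k M] [IsScalarTower k (AA k m) M] (f : G m → M)

/-- linear extension -/
noncomputable def phi : (G m → k) →ₗ[k] M := Fintype.linearCombination k f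

theorem phi_e (g : G m) : phi f (e k m g) = f g := by
  rw [phi, e, Fintype.linearCombination_apply_single, one_smul]

theorem ker_f (c1 : ∀ p l, x k m (G.X p) • f (G.Y l) = 0)
    (c2 : ∀ p, x k m G.U • f (G.X p) = 0)
    (c3 : x k m G.U • f (G.Y 0) = 0)
    (c4 : ∀ i j, x k m (G.X (1, j)) • f (G.X (0, i)) = x k m (G.Y 1) • f (G.X (i, j)))
    (c5 : ∀ g l c, lvl g ≤ l.val → x k m g • f (G.W l c) = 0)
    (a : G m → AA k m) (ha : ∑ g, a g * x k m g = 0) : ∑ g, a g • f g = 0 := by
  have h1 : ∀ r ∈ RR k m, psi (RR k m) (phi f) r = 0 := by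
    intro r hr
    have : RR k m ≤ LinearMap.ker (psi (RR k m) (phi f)) := by
      refine Submodule.span_le.2 ?_
      intro r hr
      change psi (RR k m) (phi f) r = 0
      induction hr with
      | xy p l => rw [psi_tmul, phi_e]; exact c1 p l
      | ux p => rw [psi_tmul, phi_e]; exact c2 p
      | uy => rw [psi_tmul, phi_e]; exact c3
      | xx i j => rw [map_sub, psi_tmul, psi_tmul, phi_e, phi_e, sub_eq_zero]; exact c4 i j
      | gw g l c h => rw [psi_tmul, phi_e]; exact c5 g l c h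
    exact this hr
  have h2 := ker_abs (RR k m) (phi f) h1 Finset.univ a (e k m) ha
  simp only [phi_e] at h2
  exact h2

end phi

theorem rel_mul (r : (G m → k) ⊗[k] (G m → k)) (hr : Rels k m r) :
    RingQuot.mkAlgHom k (QuadRel (RR k m)) (mulTwo k _ r) = 0 :=
  mk_mulTwo _ _ (Submodule.subset_span hr)

theorem mk_tmul (g h : G m) : RingQuot.mkAlgHom k (QuadRel (RR k m))
    (mulTwo k _ (e k m g ⊗ₜ e k m h)) = x k m g * x k m h := by
  rw [mulTwo_tmul, map_mul]; rfl

section kers

variable (a : G m → AA k m) (ha : ∑ g, a g * x k m g = 0)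

include ha in
theorem ker_one (I : Submodule (AA k m) (AA k m)) (g₀ : G m)
    (c1 : ∀ p l, G.Y l = g₀ → x k m (G.X p) ∈ I)
    (c2 : ∀ p, G.X p = g₀ → False)
    (c3 : G.Y 0 = g₀ → x k m G.U ∈ I)
    (c5 : ∀ g l c, lvl g ≤ l.val → G.W l c = g₀ → x k m g ∈ I) : a g₀ ∈ I := by
  have key : ∀ b ∈ I, b • I.mkQ 1 = 0 := by
    intro b hb
    rw [← map_smul, Submodule.mkQ_apply, Submodule.Quotient.mk_eq_zero, smul_eq_mul, mul_one]
    exact hb
  have := ker_f (k := k) (m := m)
    (fun g => if g = g₀ then I.mkQ 1 else 0)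
    (by
      intro p l
      split_ifs with h
      · exact key _ (c1 p l h)
      · exact smul_zero _)
    (by
      intro p
      rw [if_neg (fun h => c2 p h), smul_zero])
    (by
      split_ifs with h
      · exact key _ (c3 h)
      · exact smul_zero _)
    (by
      intro i j
      rw [if_neg (fun h => c2 _ h), if_neg (fun h => c2 _ h), smul_zero, smul_zero])
    (by
      intro g l c hg
      split_ifs with h
      · exact key _ (c5 g l c hg h)
      · exact smul_zero _) a ha
  simp only [smul_ite, smul_zero, Finset.sum_ite_eq', Finset.mem_univ, if_true] at this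
  rwa [← map_smul, Submodule.mkQ_apply, Submodule.Quotient.mk_eq_zero, smul_eq_mul, mul_one] at this

variable (k m) in
/-- test function for the `X` block -/
noncomputable def fX : G m → (Fin 2 × Fin 2 → AA k m) ⧸ LinearMap.range (lc (SS (x k m)))
  | G.X p => (LinearMap.range (lc (SS (x k m)))).mkQ (Pi.single p 1)
  | _ => 0

include ha in
theorem kerX' : (fun p => a (G.X p)) ∈ LinearMap.range (lc (SS (x k m))) := by
  have := ker_f (k := k) (m := m) (fX k m)
    (by intro p l; exact smul_zero _)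
    (by
      intro p
      change x k m G.U • (LinearMap.range (lc (SS (x k m)))).mkQ (Pi.single p 1) = 0
      rw [← map_smul, Submodule.mkQ_apply, Submodule.Quotient.mk_eq_zero]
      refine ⟨Pi.single (Sum.inl p) 1, ?_⟩
      rw [lc, Fintype.linearCombination_apply_single, one_smul]
      rw [SS, ← Pi.single_smul, smul_eq_mul, mul_one])
    (by exact smul_zero _)
    (by
      intro i j
      change x k m (G.X (1, j)) • (LinearMap.range (lc (SS (x k m)))).mkQ (Pi.single (0, i) 1) =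
        x k m (G.Y 1) • (LinearMap.range (lc (SS (x k m)))).mkQ (Pi.single (i, j) 1)
      rw [← sub_eq_zero, ← map_smul, ← map_smul, ← map_sub, Submodule.mkQ_apply,
        Submodule.Quotient.mk_eq_zero]
      refine ⟨Pi.single (Sum.inr (i, j)) 1, ?_⟩
      rw [lc, Fintype.linearCombination_apply_single, one_smul]
      rw [SS, ← Pi.single_smul, smul_eq_mul, mul_one, ← Pi.single_smul, smul_eq_mul, mul_one])
    (by intro g l c _; exact smul_zero _) a ha
  rw [sumG] at this
  simp only [fX, smul_zero, Finset.sum_const_zero, add_zero] at this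
  simp only [← map_smul, ← map_sum] at this
  rw [Submodule.mkQ_apply, Submodule.Quotient.mk_eq_zero] at this
  convert this using 1
  funext p
  simp [Finset.sum_apply, Pi.single_apply]

end kers

variable (k m) in
theorem good : Good (x k m) where
  rxy p l := by rw [← mk_tmul]; exact rel_mul _ (Rels.xy p l)
  rux p := by rw [← mk_tmul]; exact rel_mul _ (Rels.ux p)
  ruy := by rw [← mk_tmul]; exact rel_mul _ Rels.uy
  rxx i j := by
    have h := rel_mul _ (Rels.xx (k := k) (m := m) i j)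
    rw [map_sub, map_sub, mk_tmul, mk_tmul] at h
    exact sub_eq_zero.1 h
  rgw g l c h := by rw [← mk_tmul]; exact rel_mul _ (Rels.gw g l c h)
  kerU a ha := by
    have := ker_one a ha ⊥ G.U (fun p l h => by simp at h) (fun p h => by simp at h)
      (fun h => by simp at h) (fun g l c _ h => by simp at h)
    exact this
  kerY1 a ha := ker_one a ha (AX (x k m)) (G.Y 1)
    (fun p l h => Submodule.subset_span ⟨p, rfl⟩) (fun p h => by simp at h)
      (fun h => by simp at h) (fun g l c _ h => by simp at h)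
  kerY0 a ha := ker_one a ha (AXU (x k m)) (G.Y 0)
    (fun p l h => Submodule.subset_span (Or.inl ⟨p, rfl⟩)) (fun p h => by simp at h)
      (fun h => Submodule.subset_span (Or.inr rfl)) (fun g l c _ h => by simp at h)
  kerW a ha l c := ker_one a ha (IL (x k m) l.val) (G.W l c)
    (fun p l h => by simp at h) (fun p h => by simp at h)
      (fun h => by simp at h) (fun g l' c' hg h => by
        obtain ⟨rfl, rfl⟩ := G.W.inj h
        exact Submodule.subset_span ⟨g, hg, rfl⟩)
  kerX a ha := kerX' a ha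

end Rel

/-! ## The theorem -/

section Fin

variable {k : Type u} [Field k] {m : ℕ}

theorem lvl_le (g : G m) : lvl g ≤ m := by
  cases g with
  | X p => exact Nat.zero_le _
  | Y l => exact Nat.zero_le _
  | U => exact Nat.zero_le _
  | W l c => exact l.isLt

theorem gen_sum (v : G m → k) : gen (RR k m) v = ∑ g, v g • x k m g := by
  have : v = ∑ g, v g • e k m g := by
    funext g
    simp [e, Finset.sum_apply, Pi.single_apply]
  conv_lhs => rw [this]
  rw [map_sum]
  refine Finset.sum_congr rfl fun g _ => ?_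
  rw [map_smul]
  rfl

theorem gen_mem (v : G m → k) : gen (RR k m) v ∈ IL (x k m) m := by
  rw [gen_sum]
  refine Submodule.sum_mem _ fun g _ => ?_
  rw [← algebraMap_smul (AA k m) (v g)]
  exact Submodule.smul_mem _ _ (Submodule.subset_span ⟨g, lvl_le g, rfl⟩)

theorem aug_IL (a : AA k m) : a - algebraMap k _ (aug (RR k m) a) ∈ IL (x k m) m := by
  refine quad_induction (RR k m)
    (C := fun a => a - algebraMap k _ (aug (RR k m) a) ∈ IL (x k m) m) ?_ ?_ ?_ ?_ a
  · intro c
    rw [AlgHom.commutes]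
    change _ - algebraMap k (AA k m) c ∈ _
    rw [sub_self]
    exact Submodule.zero_mem _
  · intro v
    rw [aug_gen, map_zero, sub_zero]
    exact gen_mem v
  · intro a b ha hb
    have h : a * b - algebraMap k _ (aug (RR k m) (a * b)) =
        a * (b - algebraMap k _ (aug (RR k m) b)) +
          algebraMap k _ (aug (RR k m) b) * (a - algebraMap k _ (aug (RR k m) a)) := by
      have e1 : algebraMap k (AA k m) (aug (RR k m) (a * b)) =
          algebraMap k _ (aug (RR k m) b) * algebraMap k _ (aug (RR k m) a) := by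
        rw [map_mul, mul_comm, map_mul]
      rw [e1, mul_sub, mul_sub, Algebra.commutes (aug (RR k m) b) a]
      abel
    rw [h]
    exact Submodule.add_mem _ (Submodule.smul_mem _ a hb) (Submodule.smul_mem _ _ ha)
  · intro a b ha hb
    have h : a + b - algebraMap k _ (aug (RR k m) (a + b)) =
        (a - algebraMap k _ (aug (RR k m) a)) + (b - algebraMap k _ (aug (RR k m) b)) := by
      rw [map_add, map_add]
      abel
    rw [h]
    exact Submodule.add_mem _ ha hb

theorem IL_aug (a : AA k m) (ha : a ∈ IL (x k m) m) : aug (RR k m) a = 0 := by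
  induction ha using Submodule.span_induction with
  | mem t ht => obtain ⟨g, -, rfl⟩ := ht; exact aug_gen _ _
  | zero => exact map_zero _
  | add a b _ _ h1 h2 => rw [map_add, h1, h2, add_zero]
  | smul r a _ h1 => rw [smul_eq_mul, map_mul, h1, mul_zero]

theorem aug_iff (a : AA k m) : aug (RR k m) a = 0 ↔ a ∈ IL (x k m) m := by
  constructor
  · intro h
    have := aug_IL a
    rwa [h, map_zero, sub_zero] at this
  · exact IL_aug a

theorem bet0 (m : ℕ) : bet m 0 = 2 * m + 7 := by
  induction m with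
  | zero => rfl
  | succ m ih => rw [bet, ih]; ring

theorem bet1 (m : ℕ) : bet m 1 + 1 = 2 * (m + 3) ^ 2 := by
  induction m with
  | zero => rfl
  | succ m ih =>
    have : bet (m + 1) 1 = bet m 1 + 2 * bet m 0 := by rw [bet]
    rw [this, bet0]
    calc bet m 1 + 2 * (2 * m + 7) + 1 = (bet m 1 + 1) + 2 * (2 * m + 7) := by ring
      _ = 2 * (m + 1 + 3) ^ 2 := by rw [ih]; ring

theorem bet_top (m : ℕ) : bet m (m + 2) ≠ 0 := by
  induction m with
  | zero => decide
  | succ m ih =>
    have : bet (m + 1) (m + 1 + 2) = bet m (m + 3) + 2 * bet m (m + 2) := by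
      change bet (m + 1) (m + 2 + 1) = _
      rw [bet]
    omega

theorem bet_zero (m : ℕ) : ∀ i, m + 3 ≤ i → bet m i = 0 := by
  induction m with
  | zero =>
    intro i hi
    match i with
    | 0 => omega
    | 1 => omega
    | 2 => omega
    | i + 3 => rfl
  | succ m ih =>
    intro i hi
    match i with
    | 0 => omega
    | i + 1 => rw [bet, ih _ (by omega), ih _ (by omega)]

/-- the complete Betti sequence -/
def bb (m : ℕ) : ℕ → ℕ
  | 0 => 1
  | i + 1 => bet m i

variable (k m) in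
theorem main : IsKoszul (RR k m) ∧ HasBetti (RR k m) (bb m) := by
  have hsub : ∀ a ∈ {a : AA k m | ∃ v, gen (RR k m) v = a},
      ∀ b ∈ {a : AA k m | ∃ v, gen (RR k m) v = a},
      a - b ∈ {a : AA k m | ∃ v, gen (RR k m) v = a} := by
    rintro _ ⟨v, rfl⟩ _ ⟨w, rfl⟩
    exact ⟨v - w, map_sub _ _ _⟩
  have h := res_IL (good k m) (S := {a | ∃ v, gen (RR k m) v = a}) (fun g => ⟨_, rfl⟩) hsub m le_rfl
  obtain ⟨B, fB, E, D, hc, hE, hD, r0, r1, r2⟩ := h
  let B' : ℕ → Type := fun i => match i with | 0 => Unit | i + 1 => B i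
  let fB' : ∀ i, Fintype (B' i) := fun i => match i with
    | 0 => inferInstanceAs (Fintype Unit) | i + 1 => fB i
  let uB : Unique (B' 0) := inferInstanceAs (Unique Unit)
  let D' : ∀ i, B' (i + 1) → B' i → AA k m := fun i => match i with | 0 => E | i + 1 => D i
  have hlin : ∀ i c b, D' i c b ∈ LinearMap.range (gen (RR k m)) := by
    rintro (_ | i) c b
    · exact hE c b
    · exact hD i c b
  have h0 : ∀ f : B' 0 → AA k m,
      f ∈ LinearMap.range (Fintype.linearCombination (AA k m) (D' 0)) ↔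
        aug (RR k m) (f default) = 0 := by
    intro f
    rw [aug_iff]
    change f ∈ LinearMap.range (lc E) ↔ _
    rw [r0]
    rfl
  have hs : ∀ i, LinearMap.range (Fintype.linearCombination (AA k m) (D' (i + 1))) =
      LinearMap.ker (Fintype.linearCombination (AA k m) (D' i)) := by
    rintro (_ | i)
    · exact r1
    · exact r2 i
  refine ⟨⟨B', fB', uB, D', hlin, h0, hs⟩, ?_⟩
  intro i
  have h0' : LinearMap.range (dl B' D' 0) = LinearMap.ker (augm (aug (RR k m)) B') := by
    ext f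
    rw [LinearMap.mem_ker, augm_apply]
    exact h0 f
  have := rank_ext (aug (RR k m)) B' D' h0' hs (by
    intro i c b
    obtain ⟨v, hv⟩ := hlin i c b
    rw [← hv, aug_gen]) i
  refine this.trans ?_
  congr 1
  rcases i with _ | i
  · rfl
  · exact hc i

end Fin

end Pool.Agent.H26.Koszul
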