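import Mathlib

/-!
# The Wiener algebra of absolutely summable power series

`WA` is the Banach algebra of sequences `f : ℕ → ℂ` with `∑ ‖f n‖ < ∞` under Cauchy product.
-/

namespace H26.Wiener

open scoped BigOperators ENNReal
open Finset

/-- absolutely summable sequences of complex numbers -/
def WA : Type := lp (fun _ : ℕ => ℂ) 1

noncomputable instance : NormedAddCommGroup WA :=
  inferInstanceAs (NormedAddCommGroup (lp (fun _ : ℕ => ℂ) 1))

noncomputable instance : NormedSpace ℂ WA :=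
  inferInstanceAs (NormedSpace ℂ (lp (fun _ : ℕ => ℂ) 1))

instance : CompleteSpace WA :=
  inferInstanceAs (CompleteSpace (lp (fun _ : ℕ => ℂ) 1))

/-- the `n`-th coefficient -/
def co (f : WA) (n : ℕ) : ℂ := (show lp (fun _ : ℕ => ℂ) 1 from f).1 n

theorem ext_co {f g : WA} (h : ∀ n, co f n = co g n) : f = g := by
  apply Subtype.ext
  funext n
  exact h n

theorem co_add (f g : WA) (n : ℕ) : co (f + g) n = co f n + co g n := rfl
theorem co_sub (f g : WA) (n : ℕ) : co (f - g) n = co f n - co g n := rfl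
theorem co_neg (f : WA) (n : ℕ) : co (-f) n = -co f n := rfl
theorem co_zero (n : ℕ) : co (0 : WA) n = 0 := rfl
theorem co_smul (c : ℂ) (f : WA) (n : ℕ) : co (c • f) n = c * co f n := rfl

theorem summable_co (f : WA) : Summable (fun n => ‖co f n‖) := by
  have h := (lp.hasSum_norm (p := 1) (by simp) (show lp (fun _ : ℕ => ℂ) 1 from f)).summable
  simp only [ENNReal.toReal_one, Real.rpow_one] at h
  exact h

theorem norm_eq (f : WA) : ‖f‖ = ∑' n, ‖co f n‖ := by
  have h := lp.norm_eq_tsum_rpow (p := 1) (by simp) (show lp (fun _ : ℕ => ℂ) 1 from f)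
  simp only [ENNReal.toReal_one, Real.rpow_one, div_one] at h
  exact h

/-- build an element from a summable sequence -/
noncomputable def mkWA (c : ℕ → ℂ) (h : Summable (fun n => ‖c n‖)) : WA :=
  show lp (fun _ : ℕ => ℂ) 1 from ⟨c, memℓp_gen (by simpa using h)⟩

theorem co_mk (c : ℕ → ℂ) (h : Summable (fun n => ‖c n‖)) (n : ℕ) : co (mkWA c h) n = c n := rfl

noncomputable instance : Mul WA :=
  ⟨fun f g => mkWA (fun n => ∑ kl ∈ antidiagonal n, co f kl.1 * co g kl.2)
    (summable_norm_sum_mul_antidiagonal_of_summable_norm (summable_co f) (summable_co g))⟩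

theorem co_mul (f g : WA) (n : ℕ) :
    co (f * g) n = ∑ kl ∈ antidiagonal n, co f kl.1 * co g kl.2 := rfl

noncomputable instance : One WA :=
  ⟨mkWA (fun n => if n = 0 then 1 else 0) (by
    apply summable_of_ne_finset_zero (s := {0})
    intro b hb
    simp only [Finset.mem_singleton] at hb
    simp [hb])⟩

theorem co_one (n : ℕ) : co (1 : WA) n = if n = 0 then 1 else 0 := rfl

/-- the associated formal power series -/
noncomputable def ps (f : WA) : PowerSeries ℂ := PowerSeries.mk (co f)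

theorem ps_inj {f g : WA} (h : ps f = ps g) : f = g := by
  apply ext_co
  intro n
  have := congrArg (PowerSeries.coeff n) h
  simpa [ps] using this

theorem ps_mul (f g : WA) : ps (f * g) = ps f * ps g := by
  ext n
  simp [ps, PowerSeries.coeff_mul, co_mul]

theorem ps_one : ps 1 = 1 := by
  ext n
  simp [ps, co_one, PowerSeries.coeff_one]

theorem ps_add (f g : WA) : ps (f + g) = ps f + ps g := by
  ext n
  simp [ps, co_add]

theorem ps_zero : ps 0 = 0 := by
  ext n
  simp [ps, co_zero]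

theorem ps_smul (c : ℂ) (f : WA) : ps (c • f) = c • ps f := by
  ext n
  simp [ps, co_smul]

noncomputable instance : CommRing WA :=
  { (inferInstance : AddCommGroup WA) with
    mul := (· * ·)
    one := 1
    mul_assoc := fun a b c => ps_inj (by simp only [ps_mul, mul_assoc])
    one_mul := fun a => ps_inj (by rw [ps_mul, ps_one, one_mul])
    mul_one := fun a => ps_inj (by rw [ps_mul, ps_one, mul_one])
    left_distrib := fun a b c => ps_inj (by simp only [ps_mul, ps_add, mul_add])
    right_distrib := fun a b c => ps_inj (by simp only [ps_mul, ps_add, add_mul])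
    zero_mul := fun a => ps_inj (by rw [ps_mul, ps_zero, zero_mul])
    mul_zero := fun a => ps_inj (by rw [ps_mul, ps_zero, mul_zero])
    mul_comm := fun a b => ps_inj (by rw [ps_mul, ps_mul, mul_comm]) }

theorem norm_mul_le' (f g : WA) : ‖f * g‖ ≤ ‖f‖ * ‖g‖ := by
  rw [norm_eq, norm_eq, norm_eq,
    tsum_mul_tsum_eq_tsum_sum_antidiagonal_of_summable_norm (f := fun n => ‖co f n‖)
      (g := fun n => ‖co g n‖) (by simpa using summable_co f) (by simpa using summable_co g)]
  refine Summable.tsum_le_tsum ?_ (summable_co (f * g)) ?_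
  · intro n
    rw [co_mul]
    refine (norm_sum_le _ _).trans ?_
    refine Finset.sum_le_sum fun kl _ => ?_
    rw [norm_mul]
  · have := (summable_norm_sum_mul_antidiagonal_of_summable_norm
      (f := fun n => ‖co f n‖) (g := fun n => ‖co g n‖)
      (by simpa using summable_co f) (by simpa using summable_co g))
    refine this.congr fun n => ?_
    rw [Real.norm_of_nonneg]
    exact Finset.sum_nonneg fun kl _ => by positivity

noncomputable instance : NormedCommRing WA :=
  { (inferInstance : CommRing WA), (inferInstance : NormedAddCommGroup WA) with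
    norm_mul_le := norm_mul_le' }

noncomputable instance : Algebra ℂ WA :=
  Algebra.ofModule
    (fun c f g => ps_inj (by rw [ps_mul, ps_smul, ps_smul, ps_mul, smul_mul_assoc]))
    (fun c f g => ps_inj (by rw [ps_mul, ps_smul, ps_smul, ps_mul, mul_smul_comm]))

noncomputable instance : NormedAlgebra ℂ WA :=
  { (inferInstance : Algebra ℂ WA) with
    norm_smul_le := fun c f => (norm_smul c f).le }

theorem norm_one' : ‖(1 : WA)‖ = 1 := by
  rw [norm_eq, tsum_eq_single 0]
  · simp [co_one]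
  · intro n hn
    simp [co_one, hn]

instance : NormOneClass WA := ⟨norm_one'⟩

/-- weighted shift: `(D f)_0 = 0`, `(D f)_{n+1} = m n * f n` -/
noncomputable def shift (m : ℕ → ℂ) (C : ℝ) (hm : ∀ n, ‖m n‖ ≤ C) (f : WA) : WA :=
  mkWA (fun n => match n with
    | 0 => 0
    | k + 1 => m k * co f k) (by
    rw [← summable_nat_add_iff 1]
    refine Summable.of_nonneg_of_le (fun n => norm_nonneg _) (fun n => ?_)
      ((summable_co f).mul_left C)
    simp only [norm_mul]
    exact mul_le_mul_of_nonneg_right (hm n) (norm_nonneg _))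

theorem co_shift_zero (m : ℕ → ℂ) (C : ℝ) (hm : ∀ n, ‖m n‖ ≤ C) (f : WA) :
    co (shift m C hm f) 0 = 0 := rfl

theorem co_shift_succ (m : ℕ → ℂ) (C : ℝ) (hm : ∀ n, ‖m n‖ ≤ C) (f : WA) (n : ℕ) :
    co (shift m C hm f) (n + 1) = m n * co f n := rfl

theorem shift_sub (m : ℕ → ℂ) (C : ℝ) (hm : ∀ n, ‖m n‖ ≤ C) (f g : WA) :
    shift m C hm (f - g) = shift m C hm f - shift m C hm g := by
  apply ext_co
  intro n
  rcases n with _ | n
  · rw [co_sub, co_shift_zero, co_shift_zero, co_shift_zero, sub_zero]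
  · rw [co_sub, co_shift_succ, co_shift_succ, co_shift_succ, co_sub, mul_sub]

theorem norm_shift_le (m : ℕ → ℂ) (C : ℝ) (hm : ∀ n, ‖m n‖ ≤ C) (f : WA) :
    ‖shift m C hm f‖ ≤ C * ‖f‖ := by
  rw [norm_eq, norm_eq, (summable_co (shift m C hm f)).tsum_eq_zero_add, co_shift_zero, norm_zero,
    zero_add, ← tsum_mul_left]
  refine Summable.tsum_le_tsum (fun n => ?_) ?_ ((summable_co f).mul_left C)
  · rw [co_shift_succ, norm_mul]
    exact mul_le_mul_of_nonneg_right (hm n) (norm_nonneg _)
  · exact (summable_nat_add_iff 1).2 (summable_co (shift m C hm f))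

/-- evaluation at a point of the closed unit disc -/
noncomputable def ev (z : ℂ) (f : WA) : ℂ := ∑' n, co f n * z ^ n

theorem summable_ev {z : ℂ} (hz : ‖z‖ ≤ 1) (f : WA) : Summable (fun n => ‖co f n * z ^ n‖) := by
  refine Summable.of_nonneg_of_le (fun n => norm_nonneg _) (fun n => ?_) (summable_co f)
  rw [norm_mul, norm_pow]
  exact mul_le_of_le_one_right (norm_nonneg _) (pow_le_one₀ (norm_nonneg _) hz)

theorem ev_add {z : ℂ} (hz : ‖z‖ ≤ 1) (f g : WA) : ev z (f + g) = ev z f + ev z g := by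
  unfold ev
  rw [← ((summable_ev hz f).of_norm).tsum_add ((summable_ev hz g).of_norm)]
  exact tsum_congr fun n => by rw [co_add, add_mul]

theorem ev_sub {z : ℂ} (hz : ‖z‖ ≤ 1) (f g : WA) : ev z (f - g) = ev z f - ev z g := by
  unfold ev
  rw [← ((summable_ev hz f).of_norm).tsum_sub ((summable_ev hz g).of_norm)]
  exact tsum_congr fun n => by rw [co_sub, sub_mul]

theorem ev_smul (z : ℂ) (c : ℂ) (f : WA) : ev z (c • f) = c * ev z f := by
  unfold ev
  rw [← tsum_mul_left]
  exact tsum_congr fun n => by rw [co_smul, mul_assoc]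

theorem ev_mul {z : ℂ} (hz : ‖z‖ ≤ 1) (f g : WA) : ev z (f * g) = ev z f * ev z g := by
  unfold ev
  rw [tsum_mul_tsum_eq_tsum_sum_antidiagonal_of_summable_norm (summable_ev hz f)
    (summable_ev hz g)]
  refine tsum_congr fun n => ?_
  rw [co_mul, Finset.sum_mul]
  refine Finset.sum_congr rfl fun kl hkl => ?_
  rw [← Finset.HasAntidiagonal.mem_antidiagonal.1 hkl, pow_add]
  ring

theorem ev_one (z : ℂ) : ev z 1 = 1 := by
  unfold ev
  rw [tsum_eq_single 0]
  · simp [co_one]
  · intro n hn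
    simp [co_one, hn]

theorem ev_zero_fun (z : ℂ) : ev z 0 = 0 := by
  unfold ev
  simp [co_zero]

theorem ev_at_zero (f : WA) : ev 0 f = co f 0 := by
  unfold ev
  rw [tsum_eq_single 0]
  · simp
  · intro n hn
    simp [hn]

theorem norm_ev_le {z : ℂ} (hz : ‖z‖ ≤ 1) (f : WA) : ‖ev z f‖ ≤ ‖f‖ := by
  unfold ev
  refine (norm_tsum_le_tsum_norm (summable_ev hz f)).trans ?_
  rw [norm_eq]
  refine Summable.tsum_le_tsum (fun n => ?_) (summable_ev hz f) (summable_co f)
  rw [norm_mul, norm_pow]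
  exact mul_le_of_le_one_right (norm_nonneg _) (pow_le_one₀ (norm_nonneg _) hz)

/-- evaluation as a ring homomorphism -/
noncomputable def evHom (z : ℂ) (hz : ‖z‖ ≤ 1) : WA →+* ℂ where
  toFun := ev z
  map_one' := ev_one z
  map_mul' := ev_mul hz
  map_zero' := ev_zero_fun z
  map_add' := ev_add hz

theorem continuous_evHom (z : ℂ) (hz : ‖z‖ ≤ 1) : Continuous (evHom z hz) := by
  refine (AddMonoidHomClass.lipschitz_of_bound (evHom z hz) 1 fun f => ?_).continuous
  rw [one_mul]
  exact norm_ev_le hz f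

noncomputable instance : NormedAlgebra ℚ WA := NormedAlgebra.restrictScalars ℚ ℂ WA

theorem ev_exp {z : ℂ} (hz : ‖z‖ ≤ 1) (f : WA) :
    ev z (NormedSpace.exp f) = Complex.exp (ev z f) := by
  have h := NormedSpace.map_exp (evHom z hz) (continuous_evHom z hz) f
  rw [Complex.exp_eq_exp_ℂ]
  exact h

/-! ### exponential estimates -/

theorem norm_exp_sub_one_le (x : WA) :
    ‖NormedSpace.exp x - 1‖ ≤ ‖x‖ * Real.exp ‖x‖ := by
  have h1 : Real.exp ‖x‖ - 1 ≤ ‖x‖ * Real.exp ‖x‖ := by
    have h2 := Real.add_one_le_exp (-‖x‖)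
    have h3 : Real.exp (-‖x‖) * Real.exp ‖x‖ = 1 := by
      rw [← Real.exp_add]; simp
    have h4 := Real.exp_pos ‖x‖
    nlinarith
  refine le_trans ?_ h1
  have hs : HasSum (fun n : ℕ => ((n.factorial : ℂ)⁻¹) • x ^ n) (NormedSpace.exp x) :=
    NormedSpace.exp_series_hasSum_exp' (𝕂 := ℂ) x
  have hs1 : HasSum (fun n : ℕ => (((n + 1).factorial : ℂ)⁻¹) • x ^ (n + 1))
      (NormedSpace.exp x - 1) := by
    rw [hasSum_nat_add_iff (f := fun n : ℕ => ((n.factorial : ℂ)⁻¹) • x ^ n) 1]
    simpa using hs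
  have hr : HasSum (fun n : ℕ => ‖x‖ ^ n / (n.factorial : ℝ)) (Real.exp ‖x‖) := by
    have := NormedSpace.expSeries_div_hasSum_exp (𝔸 := ℝ) ‖x‖
    rwa [← Real.exp_eq_exp_ℝ] at this
  have hr1 : HasSum (fun n : ℕ => ‖x‖ ^ (n + 1) / ((n + 1).factorial : ℝ))
      (Real.exp ‖x‖ - 1) := by
    rw [hasSum_nat_add_iff (f := fun n : ℕ => ‖x‖ ^ n / (n.factorial : ℝ)) 1]
    simpa using hr
  rw [← hs1.tsum_eq, ← hr1.tsum_eq]
  refine tsum_of_norm_bounded hr1.summable.hasSum fun n => ?_
  rw [norm_smul, norm_inv, Complex.norm_natCast, inv_mul_eq_div]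
  gcongr
  exact norm_pow_le x (n + 1)

theorem norm_exp_le (x : WA) : ‖NormedSpace.exp x‖ ≤ Real.exp ‖x‖ := by
  have hs : HasSum (fun n : ℕ => ((n.factorial : ℂ)⁻¹) • x ^ n) (NormedSpace.exp x) :=
    NormedSpace.exp_series_hasSum_exp' (𝕂 := ℂ) x
  have hr : HasSum (fun n : ℕ => ‖x‖ ^ n / (n.factorial : ℝ)) (Real.exp ‖x‖) := by
    have := NormedSpace.expSeries_div_hasSum_exp (𝔸 := ℝ) ‖x‖
    rwa [← Real.exp_eq_exp_ℝ] at this
  rw [← hs.tsum_eq, ← hr.tsum_eq]
  refine tsum_of_norm_bounded hr.summable.hasSum fun n => ?_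
  rw [norm_smul, norm_inv, Complex.norm_natCast, inv_mul_eq_div]
  gcongr
  exact norm_pow_le x n

theorem norm_exp_sub_exp_le (x y : WA) :
    ‖NormedSpace.exp x - NormedSpace.exp y‖ ≤
      Real.exp ‖y‖ * (‖x - y‖ * Real.exp ‖x - y‖) := by
  have h : NormedSpace.exp x - NormedSpace.exp y =
      NormedSpace.exp y * (NormedSpace.exp (x - y) - 1) := by
    rw [mul_sub, mul_one, ← NormedSpace.exp_add_of_commute (Commute.all y (x - y)),
      add_sub_cancel]
  rw [h]
  refine (norm_mul_le _ _).trans ?_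
  exact mul_le_mul (norm_exp_le y) (norm_exp_sub_one_le _) (norm_nonneg _) (Real.exp_pos _).le

end H26.Wiener
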