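import Mathlib
import Pool.Agent.H26.Wiener

/-!
# The fixed point equation for the linearization
-/

namespace H26.Siegel

open H26.Wiener Metric Set

/-- the nonlinear part: `E = exp (T f)`, `X = exp (-b I E)` -/
noncomputable def EE (T : WA → WA) (f : WA) : WA := NormedSpace.exp (T f)

/-- see `EE` -/
noncomputable def XX (b : ℂ) (I T : WA → WA) (f : WA) : WA :=
  NormedSpace.exp (-(b • I (EE T f)))

/-- the map whose fixed point is sought -/
noncomputable def Phi (t : ℝ) (b : ℂ) (I T : WA → WA) (f : WA) : WA :=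
  (t : ℂ) • (b • (XX b I T f * EE T f) - (XX b I T f - 1) * f)

section

variable {t τ : ℝ} {b : ℂ} {I T : WA → WA}
  (ht0 : 0 < t) (ht1 : t ≤ 1 / 10 ^ 6) (hτ : 0 ≤ τ) (htτ : t * τ ≤ 1 / 200000)
  (hb : ‖b‖ ≤ 9 / 2)
  (hIs : ∀ f g, I (f - g) = I f - I g) (hI : ∀ f, ‖I f‖ ≤ ‖f‖)
  (hTs : ∀ f g, T (f - g) = T f - T g) (hT : ∀ f, ‖T f‖ ≤ τ * ‖f‖)

theorem exp_le_one_div {x : ℝ} (hx : x < 1) : Real.exp x ≤ 1 / (1 - x) := by
  have h := Real.add_one_le_exp (-x)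
  have h2 : Real.exp (-x) * Real.exp x = 1 := by rw [← Real.exp_add]; simp
  have h3 : 0 < 1 - x := by linarith
  rw [le_div_iff₀ h3]
  nlinarith [Real.exp_pos x]

theorem exp_small : Real.exp (1 / 100) ≤ 102 / 100 := by
  refine (exp_le_one_div (by norm_num)).trans ?_
  norm_num

theorem exp_small2 : Real.exp (2 / 100) ≤ 103 / 100 := by
  refine (exp_le_one_div (by norm_num)).trans ?_
  norm_num

theorem exp_one_le3 : Real.exp 1 ≤ 3 := by
  have := Real.exp_one_lt_d9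
  linarith

theorem exp_five : Real.exp 5 ≤ 150 := by
  have h : Real.exp 5 = Real.exp 1 ^ 5 := by
    rw [← Real.exp_nat_mul]; norm_num
  rw [h]
  have h1 := Real.exp_one_lt_d9.le
  calc Real.exp 1 ^ 5 ≤ 2.7182818286 ^ 5 := by gcongr
    _ ≤ 150 := by norm_num

include ht0 htτ hτ hT in
theorem norm_T_le {f : WA} (hf : ‖f‖ ≤ 2000 * t) : ‖T f‖ ≤ 1 / 100 := by
  refine (hT f).trans ?_
  have : τ * ‖f‖ ≤ τ * (2000 * t) := by gcongr
  nlinarith

include ht0 htτ hτ hT in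
theorem norm_EE_le {f : WA} (hf : ‖f‖ ≤ 2000 * t) : ‖EE T f‖ ≤ 102 / 100 := by
  refine (norm_exp_le _).trans (le_trans ?_ exp_small)
  exact Real.exp_le_exp.2 (norm_T_le ht0 hτ htτ hT hf)

include ht0 htτ hτ hT hb hI in
theorem norm_arg_le {f : WA} (hf : ‖f‖ ≤ 2000 * t) : ‖-(b • I (EE T f))‖ ≤ 5 := by
  rw [norm_neg, norm_smul]
  have h1 := (hI (EE T f)).trans (norm_EE_le ht0 hτ htτ hT hf)
  have h2 : ‖b‖ * ‖I (EE T f)‖ ≤ 9 / 2 * (102 / 100) :=
    mul_le_mul hb h1 (norm_nonneg _) (by norm_num)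
  linarith

include ht0 htτ hτ hT hb hI in
theorem norm_XX_le {f : WA} (hf : ‖f‖ ≤ 2000 * t) : ‖XX b I T f‖ ≤ 150 := by
  refine (norm_exp_le _).trans (le_trans ?_ exp_five)
  exact Real.exp_le_exp.2 (norm_arg_le ht0 hτ htτ hb hI hT hf)

include ht0 htτ hτ hT hb hI in
theorem norm_XX_sub_one_le {f : WA} (hf : ‖f‖ ≤ 2000 * t) : ‖XX b I T f - 1‖ ≤ 151 := by
  refine (norm_sub_le _ _).trans ?_
  have := norm_XX_le ht0 hτ htτ hb hI hT hf
  rw [norm_one]
  linarith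

include ht0 ht1 htτ hτ hT hb hI in
theorem norm_Phi_le {f : WA} (hf : ‖f‖ ≤ 2000 * t) : ‖Phi t b I T f‖ ≤ 2000 * t := by
  unfold Phi
  rw [norm_smul, Complex.norm_real, Real.norm_of_nonneg ht0.le]
  have h1 : ‖b • (XX b I T f * EE T f)‖ ≤ 9 / 2 * (150 * (102 / 100)) := by
    rw [norm_smul]
    refine mul_le_mul hb ?_ (norm_nonneg _) (by norm_num)
    refine (norm_mul_le _ _).trans ?_
    exact mul_le_mul (norm_XX_le ht0 hτ htτ hb hI hT hf) (norm_EE_le ht0 hτ htτ hT hf)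
      (norm_nonneg _) (by norm_num)
  have h2 : ‖(XX b I T f - 1) * f‖ ≤ 151 * (2000 * t) := by
    refine (norm_mul_le _ _).trans ?_
    exact mul_le_mul (norm_XX_sub_one_le ht0 hτ htτ hb hI hT hf) hf (norm_nonneg _) (by norm_num)
  have h3 := norm_sub_le (b • (XX b I T f * EE T f)) ((XX b I T f - 1) * f)
  have h4 : ‖b • (XX b I T f * EE T f) - (XX b I T f - 1) * f‖ ≤ 2000 := by
    norm_num at ht1
    linarith
  nlinarith

include ht0 htτ hτ hT hTs in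
theorem norm_EE_sub_le {f g : WA} (hf : ‖f‖ ≤ 2000 * t) (hg : ‖g‖ ≤ 2000 * t) :
    ‖EE T f - EE T g‖ ≤ 2 * (τ * ‖f - g‖) := by
  have h1 : ‖T f - T g‖ ≤ τ * ‖f - g‖ := by
    rw [← hTs]
    exact hT _
  have h2 : ‖T f - T g‖ ≤ 2 / 100 := by
    have h3 := norm_T_le ht0 hτ htτ hT hf
    have h4 := norm_T_le ht0 hτ htτ hT hg
    have h5 := norm_sub_le (T f) (T g)
    linarith
  have h3 := norm_exp_sub_exp_le (T f) (T g)
  have h4 : Real.exp ‖T g‖ ≤ 102 / 100 :=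
    (Real.exp_le_exp.2 (norm_T_le ht0 hτ htτ hT hg)).trans exp_small
  have h5 : Real.exp ‖T f - T g‖ ≤ 103 / 100 := (Real.exp_le_exp.2 h2).trans exp_small2
  refine h3.trans ?_
  have h6 : ‖T f - T g‖ * Real.exp ‖T f - T g‖ ≤ τ * ‖f - g‖ * (103 / 100) :=
    mul_le_mul h1 h5 (Real.exp_pos _).le (by positivity)
  have h7 : Real.exp ‖T g‖ * (‖T f - T g‖ * Real.exp ‖T f - T g‖) ≤
      102 / 100 * (τ * ‖f - g‖ * (103 / 100)) :=
    mul_le_mul h4 h6 (by positivity) (by norm_num)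
  have h8 : 0 ≤ τ * ‖f - g‖ := by positivity
  linarith

include ht0 htτ hτ hT hTs hb hI hIs in
theorem norm_XX_sub_le {f g : WA} (hf : ‖f‖ ≤ 2000 * t) (hg : ‖g‖ ≤ 2000 * t) :
    ‖XX b I T f - XX b I T g‖ ≤ 4050 * (τ * ‖f - g‖) := by
  have h0 : 0 ≤ τ * ‖f - g‖ := by positivity
  have hd : τ * ‖f - g‖ ≤ 2 / 100 := by
    have h1 : ‖f - g‖ ≤ 4000 * t := by
      have := norm_sub_le f g
      linarith
    have h2 : τ * ‖f - g‖ ≤ τ * (4000 * t) := by gcongr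
    nlinarith
  have hy : ‖-(b • I (EE T f)) - -(b • I (EE T g))‖ ≤ 9 * (τ * ‖f - g‖) := by
    have h1 : -(b • I (EE T f)) - -(b • I (EE T g)) = -(b • I (EE T f - EE T g)) := by
      rw [hIs, smul_sub]; abel
    rw [h1, norm_neg, norm_smul]
    have h2 := (hI (EE T f - EE T g)).trans (norm_EE_sub_le ht0 hτ htτ hTs hT hf hg)
    have h3 : ‖b‖ * ‖I (EE T f - EE T g)‖ ≤ 9 / 2 * (2 * (τ * ‖f - g‖)) :=
      mul_le_mul hb h2 (norm_nonneg _) (by norm_num)
    linarith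
  have h1 := norm_exp_sub_exp_le (-(b • I (EE T f))) (-(b • I (EE T g)))
  have h4 : Real.exp ‖-(b • I (EE T g))‖ ≤ 150 :=
    (Real.exp_le_exp.2 (norm_arg_le ht0 hτ htτ hb hI hT hg)).trans exp_five
  have h5 : Real.exp ‖-(b • I (EE T f)) - -(b • I (EE T g))‖ ≤ 3 :=
    (Real.exp_le_exp.2 (by linarith)).trans exp_one_le3
  refine h1.trans ?_
  have h6 : ‖-(b • I (EE T f)) - -(b • I (EE T g))‖ *
      Real.exp ‖-(b • I (EE T f)) - -(b • I (EE T g))‖ ≤ 9 * (τ * ‖f - g‖) * 3 :=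
    mul_le_mul hy h5 (Real.exp_pos _).le (by positivity)
  have h7 := mul_le_mul h4 h6 (by positivity) (by norm_num)
  linarith

include ht0 ht1 htτ hτ hT hTs hb hI hIs in
theorem norm_Phi_sub_le {f g : WA} (hf : ‖f‖ ≤ 2000 * t) (hg : ‖g‖ ≤ 2000 * t) :
    ‖Phi t b I T f - Phi t b I T g‖ ≤ 1 / 2 * ‖f - g‖ := by
  have hd : 0 ≤ τ * ‖f - g‖ := by positivity
  have hE := norm_EE_sub_le ht0 hτ htτ hTs hT hf hg
  have hX := norm_XX_sub_le ht0 hτ htτ hb hIs hI hTs hT hf hg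
  have key : Phi t b I T f - Phi t b I T g =
      (t : ℂ) • (b • ((XX b I T f - XX b I T g) * EE T f + XX b I T g * (EE T f - EE T g)) -
        ((XX b I T f - XX b I T g) * f + (XX b I T g - 1) * (f - g))) := by
    unfold Phi
    rw [← smul_sub]
    congr 1
    have : b • (XX b I T f * EE T f) - b • (XX b I T g * EE T g) =
        b • ((XX b I T f - XX b I T g) * EE T f + XX b I T g * (EE T f - EE T g)) := by
      rw [← smul_sub]
      congr 1
      ring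
    rw [← this]
    ring
  rw [key, norm_smul, Complex.norm_real, Real.norm_of_nonneg ht0.le]
  have h1 : ‖(XX b I T f - XX b I T g) * EE T f‖ ≤ 4050 * (τ * ‖f - g‖) * (102 / 100) :=
    (norm_mul_le _ _).trans
      (mul_le_mul hX (norm_EE_le ht0 hτ htτ hT hf) (norm_nonneg _) (by positivity))
  have h2 : ‖XX b I T g * (EE T f - EE T g)‖ ≤ 150 * (2 * (τ * ‖f - g‖)) :=
    (norm_mul_le _ _).trans
      (mul_le_mul (norm_XX_le ht0 hτ htτ hb hI hT hg) hE (norm_nonneg _) (by norm_num))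
  have h3 : ‖(XX b I T f - XX b I T g) * f‖ ≤ 4050 * (τ * ‖f - g‖) * (2000 * t) :=
    (norm_mul_le _ _).trans (mul_le_mul hX hf (norm_nonneg _) (by positivity))
  have h4 : ‖(XX b I T g - 1) * (f - g)‖ ≤ 151 * ‖f - g‖ :=
    (norm_mul_le _ _).trans (mul_le_mul_of_nonneg_right
      (norm_XX_sub_one_le ht0 hτ htτ hb hI hT hg) (norm_nonneg _))
  have h5 : ‖b • ((XX b I T f - XX b I T g) * EE T f + XX b I T g * (EE T f - EE T g))‖ ≤
      9 / 2 * (4050 * (τ * ‖f - g‖) * (102 / 100) + 150 * (2 * (τ * ‖f - g‖))) := by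
    rw [norm_smul]
    refine mul_le_mul hb ?_ (norm_nonneg _) (by norm_num)
    exact (norm_add_le _ _).trans (add_le_add h1 h2)
  have h6 : ‖(XX b I T f - XX b I T g) * f + (XX b I T g - 1) * (f - g)‖ ≤
      4050 * (τ * ‖f - g‖) * (2000 * t) + 151 * ‖f - g‖ :=
    (norm_add_le _ _).trans (add_le_add h3 h4)
  have h7 := (norm_sub_le (b • ((XX b I T f - XX b I T g) * EE T f +
    XX b I T g * (EE T f - EE T g)))
    ((XX b I T f - XX b I T g) * f + (XX b I T g - 1) * (f - g))).trans (add_le_add h5 h6)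
  have hn : 0 ≤ ‖f - g‖ := norm_nonneg _
  have h8 : t * (τ * ‖f - g‖) ≤ 1 / 200000 * ‖f - g‖ := by
    rw [← mul_assoc]
    exact mul_le_mul_of_nonneg_right htτ hn
  have h9 : t * ‖f - g‖ ≤ 1 / 10 ^ 6 * ‖f - g‖ := mul_le_mul_of_nonneg_right ht1 hn
  have h10 : t * (t * (τ * ‖f - g‖)) ≤ t * (1 / 200000 * ‖f - g‖) :=
    mul_le_mul_of_nonneg_left h8 ht0.le
  refine (mul_le_mul_of_nonneg_left h7 ht0.le).trans ?_
  nlinarith

include ht0 ht1 htτ hτ hT hTs hb hI hIs in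
theorem exists_fixed : ∃ f : WA, ‖f‖ ≤ 2000 * t ∧ Phi t b I T f = f := by
  have hc : IsComplete (closedBall (0 : WA) (2000 * t)) := isClosed_closedBall.isComplete
  have hm : MapsTo (Phi t b I T) (closedBall (0 : WA) (2000 * t))
      (closedBall (0 : WA) (2000 * t)) := by
    intro f hf
    rw [mem_closedBall_zero_iff] at hf ⊢
    exact norm_Phi_le ht0 ht1 hτ htτ hb hI hT hf
  have hcon : ContractingWith (1 / 2) (hm.restrict (Phi t b I T) _ _) := by
    refine ⟨by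
      rw [← NNReal.coe_lt_coe]; norm_num, LipschitzWith.of_dist_le_mul fun x y => ?_⟩
    rw [Subtype.dist_eq, Subtype.dist_eq, dist_eq_norm, dist_eq_norm]
    have := norm_Phi_sub_le ht0 ht1 hτ htτ hb hIs hI hTs hT
      (mem_closedBall_zero_iff.1 x.2) (mem_closedBall_zero_iff.1 y.2)
    simpa using this
  obtain ⟨y, hy, hfix, -⟩ := hcon.exists_fixedPoint' hc hm (x := 0)
    (by rw [mem_closedBall_zero_iff, norm_zero]; positivity) (edist_ne_top _ _)
  exact ⟨y, mem_closedBall_zero_iff.1 hy, hfix⟩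

end

end H26.Siegel
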