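import Mathlib

/-!
# Elementary lemmas on holomorphic maps commuting with a rotation, and on the function `w`
-/

namespace H26.Siegel

open Metric Set Filter Topology

theorem linear_of_commute {f : ℂ → ℂ} {r : ℝ} (hr : 0 < r) {lam : ℂ} (hlam : ‖lam‖ = 1)
    (hroot : ∀ n : ℕ, lam ^ (n + 1) ≠ 1) (hf : DifferentiableOn ℂ f (ball 0 r))
    (hc : ∀ z ∈ ball (0 : ℂ) r, f (lam * z) = lam * f z) :
    ∃ c : ℂ, ∀ z ∈ ball (0 : ℂ) r, f z = c * z := by
  have hl0 : lam ≠ 0 := by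
    intro h
    rw [h, norm_zero] at hlam
    exact zero_ne_one hlam
  have h0 : (0 : ℂ) ∈ ball (0 : ℂ) r := mem_ball_self hr
  have hm : MapsTo (lam * ·) (ball (0 : ℂ) r) (ball (0 : ℂ) r) := by
    intro z hz
    rw [mem_ball_zero_iff] at hz ⊢
    rw [norm_mul, hlam, one_mul]
    exact hz
  have hu : UniqueDiffOn ℂ (ball (0 : ℂ) r) := isOpen_ball.uniqueDiffOn
  have hcd : ∀ n : ℕ, ContDiffOn ℂ n f (ball 0 r) := fun n =>
    (hf.analyticOnNhd isOpen_ball).contDiffOn hu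
  have key : ∀ n : ℕ, lam ^ n * iteratedDeriv n f 0 = lam * iteratedDeriv n f 0 := by
    intro n
    have e1 := iteratedDerivWithin_comp_const_smul (n := n) h0 hu (hcd n) lam hm
    have e2 : iteratedDerivWithin n (fun x => f (lam * x)) (ball 0 r) 0 =
        iteratedDerivWithin n (fun x => lam * f x) (ball 0 r) 0 :=
      iteratedDerivWithin_congr (fun x hx => hc x hx) h0
    have e3 : iteratedDerivWithin n (fun x => lam * f x) (ball 0 r) 0 =
        lam * iteratedDerivWithin n f (ball 0 r) 0 := by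
      simp
    rw [mul_zero] at e1
    have e4 : iteratedDerivWithin n f (ball 0 r) 0 = iteratedDeriv n f 0 :=
      iteratedDerivWithin_of_isOpen isOpen_ball h0
    rw [← e4, ← e3, ← e2, e1, smul_eq_mul]
  have hz : ∀ n : ℕ, n ≠ 1 → iteratedDeriv n f 0 = 0 := by
    intro n hn
    have h1 := key n
    have h2 : (lam ^ n - lam) * iteratedDeriv n f 0 = 0 := by linear_combination h1
    rcases mul_eq_zero.1 h2 with h3 | h3
    · exfalso
      rcases n with _ | n
      · apply hroot 0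
        rw [pow_zero] at h3
        rw [zero_add, pow_one]
        linear_combination -h3
      · rcases n with _ | n
        · exact hn rfl
        · apply hroot n
          have h4 : lam * (lam ^ (n + 1) - 1) = 0 := by
            rw [← h3]; ring
          rcases mul_eq_zero.1 h4 with h5 | h5
          · exact absurd h5 hl0
          · linear_combination h5
    · exact h3
  refine ⟨iteratedDeriv 1 f 0, fun z hzb => ?_⟩
  have hs := Complex.hasSum_taylorSeries_on_ball hf hzb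
  have hs2 : HasSum (fun n : ℕ => ((n.factorial : ℂ)⁻¹) • (z - 0) ^ n • iteratedDeriv n f 0)
      (((Nat.factorial 1 : ℂ)⁻¹) • (z - 0) ^ 1 • iteratedDeriv 1 f 0) := by
    apply hasSum_single
    intro n hn
    rw [hz n hn, smul_zero, smul_zero]
  rw [hs.unique hs2]
  simp [mul_comm]

/-- basic estimates for `w` with `w' = 4 e^u`, `|u| ≤ 1/100` -/
theorem norm_sub_lin_le {w u : ℂ → ℂ}
    (hwd : ∀ z ∈ ball (0 : ℂ) 1, HasDerivAt w (4 * Complex.exp (u z)) z)
    (hu : ∀ z ∈ ball (0 : ℂ) 1, ‖u z‖ ≤ 1 / 100) {x y : ℂ} (hx : x ∈ ball (0 : ℂ) 1)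
    (hy : y ∈ ball (0 : ℂ) 1) :
    ‖(w x - 4 * x) - (w y - 4 * y)‖ ≤ 2 / 25 * ‖x - y‖ := by
  have hd : ∀ z ∈ ball (0 : ℂ) 1, HasDerivWithinAt (fun z => w z - 4 * z)
      (4 * Complex.exp (u z) - 4) (ball 0 1) z := by
    intro z hz
    have := (hwd z hz).sub ((hasDerivAt_id z).const_mul 4)
    simp only [mul_one] at this
    exact this.hasDerivWithinAt
  have hb : ∀ z ∈ ball (0 : ℂ) 1, ‖4 * Complex.exp (u z) - 4‖ ≤ 2 / 25 := by
    intro z hz
    have h1 : ‖Complex.exp (u z) - 1‖ ≤ 2 * ‖u z‖ :=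
      Complex.norm_exp_sub_one_le ((hu z hz).trans (by norm_num))
    have h2 := hu z hz
    have h3 : 4 * Complex.exp (u z) - 4 = 4 * (Complex.exp (u z) - 1) := by ring
    rw [h3, norm_mul]
    have h4 : ‖(4 : ℂ)‖ = 4 := by norm_num
    rw [h4]
    linarith
  exact (convex_ball (0 : ℂ) 1).norm_image_sub_le_of_norm_hasDerivWithin_le hd hb hy hx

theorem w_injOn {w u : ℂ → ℂ}
    (hwd : ∀ z ∈ ball (0 : ℂ) 1, HasDerivAt w (4 * Complex.exp (u z)) z)
    (hu : ∀ z ∈ ball (0 : ℂ) 1, ‖u z‖ ≤ 1 / 100) : InjOn w (ball (0 : ℂ) 1) := by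
  intro x hx y hy hxy
  have h := norm_sub_lin_le hwd hu hx hy
  rw [hxy] at h
  have h2 : w y - 4 * x - (w y - 4 * y) = -(4 * (x - y)) := by ring
  rw [h2, norm_neg, norm_mul] at h
  have h4 : ‖(4 : ℂ)‖ = 4 := by norm_num
  rw [h4] at h
  have h5 : ‖x - y‖ ≤ 0 := by
    have := norm_nonneg (x - y)
    linarith
  exact sub_eq_zero.1 (norm_le_zero_iff.1 h5)

theorem norm_w_le {w u : ℂ → ℂ} (hw0 : w 0 = 0)
    (hwd : ∀ z ∈ ball (0 : ℂ) 1, HasDerivAt w (4 * Complex.exp (u z)) z)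
    (hu : ∀ z ∈ ball (0 : ℂ) 1, ‖u z‖ ≤ 1 / 100) {x : ℂ} (hx : x ∈ ball (0 : ℂ) 1) :
    ‖w x‖ ≤ 5 * ‖x‖ := by
  have h := norm_sub_lin_le hwd hu hx (mem_ball_self one_pos)
  rw [hw0] at h
  simp only [mul_zero, sub_zero] at h
  have h1 : ‖w x‖ ≤ ‖w x - 4 * x‖ + ‖4 * x‖ := by
    have := norm_add_le (w x - 4 * x) (4 * x)
    simpa using this
  have h4 : ‖(4 : ℂ) * x‖ = 4 * ‖x‖ := by rw [norm_mul]; norm_num
  have := norm_nonneg x
  linarith

theorem exists_w_eq {w u : ℂ → ℂ} (hw0 : w 0 = 0)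
    (hwd : ∀ z ∈ ball (0 : ℂ) 1, HasDerivAt w (4 * Complex.exp (u z)) z)
    (hu : ∀ z ∈ ball (0 : ℂ) 1, ‖u z‖ ≤ 1 / 100) {c : ℂ} (hc : ‖c‖ ≤ 7 / 2) :
    ∃ z ∈ closedBall (0 : ℂ) (9 / 10), w z = c := by
  have hsub : closedBall (0 : ℂ) (9 / 10) ⊆ ball (0 : ℂ) 1 :=
    closedBall_subset_ball (by norm_num)
  set G : ℂ → ℂ := fun z => (c - (w z - 4 * z)) / 4 with hG
  have hcc : IsComplete (closedBall (0 : ℂ) (9 / 10)) := isClosed_closedBall.isComplete
  have h4 : ‖(4 : ℂ)‖ = 4 := by norm_num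
  have hm : MapsTo G (closedBall (0 : ℂ) (9 / 10)) (closedBall (0 : ℂ) (9 / 10)) := by
    intro z hz
    have h := norm_sub_lin_le hwd hu (hsub hz) (mem_ball_self one_pos)
    rw [hw0] at h
    simp only [mul_zero, sub_zero] at h
    rw [mem_closedBall_zero_iff] at hz ⊢
    simp only [hG]
    rw [norm_div, h4]
    have h1 := norm_sub_le c (w z - 4 * z)
    rw [div_le_iff₀ (by norm_num)]
    linarith
  have hcon : ContractingWith (1 / 2) (hm.restrict G _ _) := by
    refine ⟨by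
      rw [← NNReal.coe_lt_coe]; norm_num, LipschitzWith.of_dist_le_mul fun x y => ?_⟩
    rw [Subtype.dist_eq, Subtype.dist_eq, dist_eq_norm, dist_eq_norm]
    have h := norm_sub_lin_le hwd hu (hsub x.2) (hsub y.2)
    have e : G x - G y = -(((w x - 4 * x) - (w y - 4 * y)) / 4) := by
      simp only [hG]; ring
    have h2 : ‖G x - G y‖ ≤ 1 / 2 * ‖(x : ℂ) - y‖ := by
      rw [e, norm_neg, norm_div, h4, div_le_iff₀ (by norm_num)]
      have := norm_nonneg ((x : ℂ) - y)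
      linarith
    simpa using h2
  obtain ⟨y, hy, hfix, -⟩ := hcon.exists_fixedPoint' hcc hm (x := 0)
    (by rw [mem_closedBall_zero_iff, norm_zero]; norm_num) (edist_ne_top _ _)
  refine ⟨y, hy, ?_⟩
  have h5 : G y = y := hfix
  simp only [hG] at h5
  rw [div_eq_iff (by norm_num)] at h5
  linear_combination -h5

/-- image of a ball under an injective holomorphic map with nonvanishing derivative -/
theorem isOpen_image_of_deriv {f f' : ℂ → ℂ} {V : Set ℂ} (hV : IsOpen V)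
    (hd : ∀ z ∈ V, HasDerivAt f (f' z) z) (hne : ∀ z ∈ V, f' z ≠ 0) :
    ∀ z ∈ V, map f (𝓝 z) = 𝓝 (f z) := by
  intro z hz
  have hA : AnalyticAt ℂ f z := by
    have : DifferentiableOn ℂ f V := fun y hy => (hd y hy).differentiableAt.differentiableWithinAt
    exact this.analyticAt (hV.mem_nhds hz)
  have hs : HasStrictDerivAt f (f' z) z := by
    have := hA.hasStrictDerivAt
    rwa [(hd z hz).deriv] at this
  exact hs.map_nhds_eq (hne z hz)

end H26.Siegel
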