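import Mathlib
import Pool.Agent.H26.Wiener
import Pool.Agent.H26.SiegelFix

/-!
# The functions on the unit disc obtained from the fixed point
-/

namespace H26.Siegel

open H26.Wiener Metric Set

theorem bound_I (n : ℕ) : ‖(1 / ((n : ℂ) + 1))‖ ≤ 1 := by
  rw [norm_div, norm_one]
  have h : ((n : ℂ) + 1) = ((n + 1 : ℕ) : ℂ) := by push_cast; ring
  rw [h, Complex.norm_natCast, div_le_one (by positivity)]
  push_cast
  have : (0 : ℝ) ≤ n := Nat.cast_nonneg n
  linarith

/-- the antiderivative operator -/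
noncomputable def opI (f : WA) : WA := shift (fun n => 1 / ((n : ℂ) + 1)) 1 bound_I f

theorem norm_opI_le (f : WA) : ‖opI f‖ ≤ ‖f‖ := by
  have := norm_shift_le (fun n => 1 / ((n : ℂ) + 1)) 1 bound_I f
  rwa [one_mul] at this

theorem opI_sub (f g : WA) : opI (f - g) = opI f - opI g := shift_sub _ _ _ f g

theorem norm_le_one_of_mem {z : ℂ} (hz : z ∈ ball (0 : ℂ) 1) : ‖z‖ ≤ 1 := by
  rw [mem_ball_zero_iff] at hz
  exact hz.le

theorem hasDerivAt_ev_opI (f : WA) {z : ℂ} (hz : z ∈ ball (0 : ℂ) 1) :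
    HasDerivAt (fun y => ev y (opI f)) (ev z f) z := by
  have hu : Summable (fun n : ℕ => ‖co (opI f) n * n‖) := by
    rw [← summable_nat_add_iff 1]
    refine (summable_co f).congr fun n => ?_
    have hn : ((n : ℂ) + 1) ≠ 0 := by
      have : ((n : ℂ) + 1) = ((n + 1 : ℕ) : ℂ) := by push_cast; ring
      rw [this]
      exact Nat.cast_ne_zero.2 (Nat.succ_ne_zero n)
    have : co (opI f) (n + 1) * ((n + 1 : ℕ) : ℂ) = co f n := by
      unfold opI
      rw [co_shift_succ]
      push_cast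
      field_simp
    rw [this]
  have h := hasDerivAt_tsum_of_isPreconnected (𝕜 := ℂ)
    (g := fun n y => co (opI f) n * y ^ n)
    (g' := fun n y => co (opI f) n * ((n : ℂ) * y ^ (n - 1)))
    (u := fun n : ℕ => ‖co (opI f) n * n‖) (t := ball (0 : ℂ) 1) (y₀ := z) (y := z)
    hu isOpen_ball (convex_ball 0 1).isPreconnected
    (fun n y _ => (hasDerivAt_pow n y).const_mul _)
    (fun n y hy => by
      rw [← mul_assoc, norm_mul]
      refine mul_le_of_le_one_right (norm_nonneg _) ?_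
      rw [norm_pow]
      exact pow_le_one₀ (norm_nonneg _) (norm_le_one_of_mem hy))
    hz (summable_ev (norm_le_one_of_mem hz) (opI f)).of_norm hz
  have h2 : (∑' n : ℕ, co (opI f) n * ((n : ℂ) * z ^ (n - 1))) = ev z f := by
    have hs : Summable (fun n : ℕ => co (opI f) n * ((n : ℂ) * z ^ (n - 1))) := by
      refine Summable.of_norm_bounded hu fun n => ?_
      rw [← mul_assoc, norm_mul]
      refine mul_le_of_le_one_right (norm_nonneg _) ?_
      rw [norm_pow]
      exact pow_le_one₀ (norm_nonneg _) (norm_le_one_of_mem hz)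
    rw [hs.tsum_eq_zero_add]
    unfold ev
    simp only [Nat.cast_zero, zero_mul, mul_zero, zero_add, add_tsub_cancel_right]
    refine tsum_congr fun n => ?_
    have hn : ((n : ℂ) + 1) ≠ 0 := by
      have : ((n : ℂ) + 1) = ((n + 1 : ℕ) : ℂ) := by push_cast; ring
      rw [this]
      exact Nat.cast_ne_zero.2 (Nat.succ_ne_zero n)
    unfold opI
    rw [co_shift_succ]
    push_cast
    field_simp
  rw [← h2]
  exact h

theorem const_of_hasDerivAt_zero {K : ℂ → ℂ} (h : ∀ z ∈ ball (0 : ℂ) 1, HasDerivAt K 0 z) :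
    ∀ z ∈ ball (0 : ℂ) 1, K z = K 0 := by
  intro z hz
  refine isOpen_ball.is_const_of_deriv_eq_zero (convex_ball (0 : ℂ) 1).isPreconnected
    (fun y hy => (h y hy).differentiableAt.differentiableWithinAt)
    (fun y hy => (h y hy).deriv) hz (mem_ball_self one_pos)

section

variable {θ : ℝ} {lam : ℂ} (h0 : 0 < θ) (h1 : θ ≤ 1 / 10 ^ 7) (hlam : ‖lam‖ = 1)
  (hsd : ∀ n : ℕ, θ / (10 * (n + 1)) ≤ ‖lam ^ (n + 1) - 1‖)

theorem bound_T (h0 : 0 < θ) (hsd : ∀ n : ℕ, θ / (10 * (n + 1)) ≤ ‖lam ^ (n + 1) - 1‖) (n : ℕ) :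
    ‖(1 / (((n : ℂ) + 1) * (lam ^ (n + 1) - 1)))‖ ≤ 10 / θ := by
  have h : ((n : ℂ) + 1) = ((n + 1 : ℕ) : ℂ) := by push_cast; ring
  have hn : (0 : ℝ) < (n : ℝ) + 1 := by positivity
  have hp : 0 < θ / (10 * ((n : ℝ) + 1)) := by positivity
  have h2 := hsd n
  rw [norm_div, norm_one, norm_mul, h, Complex.norm_natCast]
  push_cast
  have h3 : θ / 10 ≤ ((n : ℝ) + 1) * ‖lam ^ (n + 1) - 1‖ := by
    have := mul_le_mul_of_nonneg_left h2 hn.le
    have h4 : ((n : ℝ) + 1) * (θ / (10 * ((n : ℝ) + 1))) = θ / 10 := by field_simp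
    rwa [h4] at this
  calc 1 / (((n : ℝ) + 1) * ‖lam ^ (n + 1) - 1‖) ≤ 1 / (θ / 10) :=
        one_div_le_one_div_of_le (by positivity) h3
    _ = 10 / θ := by field_simp

include h0 h1 hlam hsd in
theorem exists_w : ∃ w u : ℂ → ℂ, w 0 = 0 ∧
    (∀ z ∈ ball (0 : ℂ) 1, HasDerivAt w (4 * Complex.exp (u z)) z) ∧
    (∀ z ∈ ball (0 : ℂ) 1, ‖u z‖ ≤ 1 / 100) ∧
    (∀ z ∈ ball (0 : ℂ) 1, Complex.exp (w (lam * z)) =
      (θ : ℂ) ^ 2 + (1 - (θ : ℂ) ^ 2) * Complex.exp (lam / (1 - (θ : ℂ) ^ 2) * w z)) := by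
  have hnt : ∀ n : ℕ, lam ^ (n + 1) - 1 ≠ 0 := by
    intro n hn
    have h2 := hsd n
    rw [hn, norm_zero] at h2
    have hp : 0 < θ / (10 * ((n : ℝ) + 1)) := by positivity
    linarith
  set T : WA → WA := fun f => shift (fun n => 1 / (((n : ℂ) + 1) * (lam ^ (n + 1) - 1))) (10 / θ)
    (bound_T h0 hsd) f with hTdef
  have hTs : ∀ f g, T (f - g) = T f - T g := fun f g => shift_sub _ _ _ f g
  have hT : ∀ f, ‖T f‖ ≤ 10 / θ * ‖f‖ := fun f => norm_shift_le _ _ _ f
  have hsq : θ ^ 2 ≤ 1 / 10 ^ 12 := by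
    have : θ ^ 2 ≤ (1 / 10 ^ 7) ^ 2 := by gcongr
    refine this.trans ?_
    norm_num
  have ht0 : 0 < θ ^ 2 := by positivity
  have hcc : ((1 : ℂ) - (θ : ℂ) ^ 2) = ((1 - θ ^ 2 : ℝ) : ℂ) := by push_cast; ring
  have hpos : 0 < 1 - θ ^ 2 := by
    have : (1 : ℝ) / 10 ^ 12 < 1 := by norm_num
    linarith
  have hcne : ((1 : ℂ) - (θ : ℂ) ^ 2) ≠ 0 := by
    rw [hcc]
    exact Complex.ofReal_ne_zero.2 hpos.ne'
  have hb : ‖4 * (lam / (1 - (θ : ℂ) ^ 2))‖ ≤ 9 / 2 := by
    rw [norm_mul, norm_div, hlam, hcc, Complex.norm_real, Real.norm_of_nonneg hpos.le]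
    have h4 : ‖(4 : ℂ)‖ = 4 := by norm_num
    rw [h4, ← mul_div_assoc, div_le_iff₀ hpos]
    norm_num at hsq ⊢
    linarith
  set a : ℂ := lam / (1 - (θ : ℂ) ^ 2) with ha
  have htτ : θ ^ 2 * (10 / θ) ≤ 1 / 200000 := by
    have : θ ^ 2 * (10 / θ) = 10 * θ := by field_simp
    rw [this]
    norm_num at h1 ⊢
    linarith
  have hτ : 0 ≤ 10 / θ := by positivity
  have ht1 : θ ^ 2 ≤ 1 / 10 ^ 6 := hsq.trans (by norm_num)
  obtain ⟨p, hp1, hp2⟩ := exists_fixed ht0 ht1 hτ htτ hb opI_sub norm_opI_le hTs hT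
  have hTp := norm_T_le ht0 hτ htτ hT hp1
  -- the functions
  set u : ℂ → ℂ := fun z => ev z (T p) with hu
  set w : ℂ → ℂ := fun z => 4 * ev z (opI (EE T p)) with hw
  set F : ℂ → ℂ := fun z => ev z (opI p) with hF
  have hwd : ∀ z ∈ ball (0 : ℂ) 1, HasDerivAt w (4 * Complex.exp (u z)) z := by
    intro z hz
    have h2 := (hasDerivAt_ev_opI (EE T p) hz).const_mul 4
    have h3 : ev z (EE T p) = Complex.exp (u z) := ev_exp (norm_le_one_of_mem hz) (T p)
    rw [h3] at h2
    exact h2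
  have hFd : ∀ z ∈ ball (0 : ℂ) 1, HasDerivAt F (ev z p) z := fun z hz =>
    hasDerivAt_ev_opI p hz
  have hX : ∀ z ∈ ball (0 : ℂ) 1, ev z (XX (4 * a) opI T p) = Complex.exp (-(a * w z)) := by
    intro z hz
    unfold XX
    rw [ev_exp (norm_le_one_of_mem hz)]
    congr 1
    have : -((4 * a) • opI (EE T p)) = (-(4 * a)) • opI (EE T p) := by rw [neg_smul]
    rw [this, ev_smul]
    simp only [hw]
    ring
  have hpz : ∀ z ∈ ball (0 : ℂ) 1, ev z p = (θ : ℂ) ^ 2 *
      (4 * a * (Complex.exp (-(a * w z)) * Complex.exp (u z)) -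
        (Complex.exp (-(a * w z)) - 1) * ev z p) := by
    intro z hz
    have hz1 := norm_le_one_of_mem hz
    conv_lhs => rw [← hp2]
    unfold Phi
    rw [ev_smul, ev_sub hz1, ev_smul, ev_mul hz1, ev_mul hz1, ev_sub hz1, ev_one, hX z hz]
    have h3 : ev z (EE T p) = Complex.exp (u z) := ev_exp hz1 (T p)
    rw [h3]
    push_cast
    ring
  have hlz : ∀ z ∈ ball (0 : ℂ) 1, lam * z ∈ ball (0 : ℂ) 1 := by
    intro z hz
    rw [mem_ball_zero_iff] at hz ⊢
    rw [norm_mul, hlam, one_mul]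
    exact hz
  have huF : ∀ z ∈ ball (0 : ℂ) 1, u (lam * z) = u z + F z := by
    intro z hz
    have hz1 := norm_le_one_of_mem hz
    have hz2 := norm_le_one_of_mem (hlz z hz)
    simp only [hu, hF]
    unfold ev
    rw [← ((summable_ev hz1 (T p)).of_norm).tsum_add ((summable_ev hz1 (opI p)).of_norm)]
    refine tsum_congr fun n => ?_
    rcases n with _ | n
    · simp only [hTdef, opI]
      rw [co_shift_zero, co_shift_zero]
      simp
    · simp only [hTdef, opI]
      rw [co_shift_succ, co_shift_succ, mul_pow]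
      have hn : ((n : ℂ) + 1) ≠ 0 := by
        have : ((n : ℂ) + 1) = ((n + 1 : ℕ) : ℂ) := by push_cast; ring
        rw [this]
        exact Nat.cast_ne_zero.2 (Nat.succ_ne_zero n)
      have hn2 := hnt n
      field_simp
      ring
  have hw0 : w 0 = 0 := by
    simp only [hw]
    rw [ev_at_zero]
    unfold opI
    rw [co_shift_zero, mul_zero]
  have hF0 : F 0 = 0 := by
    simp only [hF]
    rw [ev_at_zero]
    unfold opI
    rw [co_shift_zero]
  have hK : ∀ z ∈ ball (0 : ℂ) 1,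
      Complex.exp (F z) * (1 + (θ : ℂ) ^ 2 * (Complex.exp (-(a * w z)) - 1)) = 1 := by
    have hd : ∀ z ∈ ball (0 : ℂ) 1, HasDerivAt (fun z => Complex.exp (F z) *
        (1 + (θ : ℂ) ^ 2 * (Complex.exp (-(a * w z)) - 1))) 0 z := by
      intro z hz
      have e1 : HasDerivAt (fun z => Complex.exp (F z)) (Complex.exp (F z) * ev z p) z :=
        (hFd z hz).cexp
      have e2 : HasDerivAt (fun z => Complex.exp (-(a * w z)))
          (Complex.exp (-(a * w z)) * (-(a * (4 * Complex.exp (u z))))) z :=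
        (((hwd z hz).const_mul a).neg).cexp
      have e3 := ((e2.sub_const 1).const_mul ((θ : ℂ) ^ 2)).const_add 1
      have e4 := e1.mul e3
      refine e4.congr_deriv ?_
      have h5 := hpz z hz
      linear_combination Complex.exp (F z) * h5
    intro z hz
    have := const_of_hasDerivAt_zero hd z hz
    rw [this, hw0, hF0]
    simp
  have hZ : ∀ z ∈ ball (0 : ℂ) 1, Complex.exp (-(w (lam * z))) *
      ((θ : ℂ) ^ 2 + (1 - (θ : ℂ) ^ 2) * Complex.exp (a * w z)) = 1 := by
    have hd : ∀ z ∈ ball (0 : ℂ) 1, HasDerivAt (fun z => Complex.exp (-(w (lam * z))) *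
      ((θ : ℂ) ^ 2 + (1 - (θ : ℂ) ^ 2) * Complex.exp (a * w z))) 0 z := by
      intro z hz
      have e0 : HasDerivAt (fun z => w (lam * z)) (4 * Complex.exp (u (lam * z)) * lam) z := by
        have := (hwd _ (hlz z hz)).comp z ((hasDerivAt_id z).const_mul lam)
        simpa [Function.comp_def] using this
      have e1 : HasDerivAt (fun z => Complex.exp (-(w (lam * z))))
          (Complex.exp (-(w (lam * z))) * (-(4 * Complex.exp (u (lam * z)) * lam))) z :=
        e0.neg.cexp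
      have e2 : HasDerivAt (fun z => Complex.exp (a * w z))
          (Complex.exp (a * w z) * (a * (4 * Complex.exp (u z)))) z :=
        ((hwd z hz).const_mul a).cexp
      have e3 := (e2.const_mul (1 - (θ : ℂ) ^ 2)).const_add ((θ : ℂ) ^ 2)
      have e4 := e1.mul e3
      refine e4.congr_deriv ?_
      have h5 := hK z hz
      have h6 : Complex.exp (a * w z) * Complex.exp (-(a * w z)) = 1 := by
        rw [← Complex.exp_add]; simp
      have h7 : (1 - (θ : ℂ) ^ 2) * a = lam := by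
        rw [ha]; field_simp
      have h8 : Complex.exp (u (lam * z)) = Complex.exp (u z) * Complex.exp (F z) := by
        rw [huF z hz, Complex.exp_add]
      rw [h8]
      set A := Complex.exp (a * w z) with hA
      set B := Complex.exp (-(a * w z)) with hB
      set C := Complex.exp (-(w (lam * z))) with hC
      set G := Complex.exp (F z) with hG
      set U := Complex.exp (u z) with hU
      set t := (θ : ℂ) ^ 2 with ht
      -- goal: C * (-(4 * (U * G) * lam)) * (t + (1 - t) * A) + C * ((1 - t) * (A * (a * (4 * U)))) = 0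
      linear_combination (4 * C * A * U) * h7 - (4 * C * U * lam * A) * h5 +
        (4 * C * U * G * lam * t) * h6
    intro z hz
    have := const_of_hasDerivAt_zero hd z hz
    rw [this, mul_zero, hw0]
    simp
  refine ⟨w, u, hw0, hwd, fun z hz => (norm_ev_le (norm_le_one_of_mem hz) (T p)).trans hTp,
    fun z hz => ?_⟩
  have h5 := hZ z hz
  have h6 : Complex.exp (w (lam * z)) * Complex.exp (-(w (lam * z))) = 1 := by
    rw [← Complex.exp_add]; simp
  linear_combination (-Complex.exp (w (lam * z))) * h5 + ((θ : ℂ) ^ 2 +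
    (1 - (θ : ℂ) ^ 2) * Complex.exp (a * w z)) * h6

end

end H26.Siegel
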